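import Mathlib
import Pool.Agent.Helper228.HC.Defs

/-! `L^p` norms, Walsh coefficients and degree of functions on the hypercube with values in a normed
space, and the optimal constant of the `L^p`-`L^q` comparison. -/

namespace Pool.Agent.Y749.VV

open Pool.Agent.Helper228.HC (Cube mean walsh)

/-- The norm `‖f‖_p = (E ‖f(x)‖^p)^{1/p}` of a function on the hypercube `{-1,1}^n` with values in a
normed space `E` (for `E = ℝ`: the usual `L^p` norm); `mean` is the expectation for the uniform
probability measure on the cube. -/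
noncomputable def lpE {E : Type*} [NormedAddCommGroup E] {n : ℕ} (p : ℝ) (f : Cube n → E) : ℝ :=
  (mean fun x => ‖f x‖ ^ p) ^ (1 / p)

/-- The Fourier-Walsh coefficient `f̂(S) = 2^{-n} ∑_x (∏_{i ∈ S} x_i) f(x)`, an element of `E`. -/
noncomputable def fourierE {E : Type*} [NormedAddCommGroup E] [NormedSpace ℝ E] {n : ℕ}
    (f : Cube n → E) (S : Finset (Fin n)) : E :=
  ((2 : ℝ) ^ n)⁻¹ • ∑ x, walsh S x • f x

open Classical in
/-- The degree of `f`: the largest `|S|` with `f̂(S) ≠ 0` (and `0` if there is none). -/
noncomputable def degreeE {E : Type*} [NormedAddCommGroup E] [NormedSpace ℝ E] {n : ℕ}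
    (f : Cube n → E) : ℕ :=
  (Finset.univ.filter fun S : Finset (Fin n) => fourierE f S ≠ 0).sup Finset.card

end Pool.Agent.Y749.VV
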