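import Mathlib
import Pool.Agent.Helper228.HC.Lower3
import Pool.Agent.Helper228.HC.Upper3

open MeasureTheory ProbabilityTheory Filter Topology Real

/-! Transfer of the `L^q`–`L^1` comparison from the cube to Gauss space. -/

namespace Pool.Agent.Y749.VV

open Pool.Agent.Helper228.HC (Cube lpNorm mean degree mean_nonneg lpNorm_one poly_bound mean_mono XX mean_const_mul
  exp_moment mean_add integrable_poly min_bdd_cont tendsto_mean degree_poly_le)

noncomputable section

lemma mean_rpow_le {q : ℝ} (hq : 0 < q) {n : ℕ} {f : Cube n → ℝ} {R : ℝ} (h : lpNorm q f ≤ R) :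
    mean (fun x => |f x| ^ q) ≤ R ^ q := by
  have h0 : 0 ≤ mean fun x => |f x| ^ q := mean_nonneg fun x => Real.rpow_nonneg (abs_nonneg _) _
  have h1 : (mean fun x => |f x| ^ q) ^ (1 / q) ≤ R := h
  have := Real.rpow_le_rpow (Real.rpow_nonneg h0 _) h1 hq.le
  rwa [← Real.rpow_mul h0, one_div_mul_cancel hq.ne', Real.rpow_one] at this

lemma rpow_le_one_add {y s : ℝ} (hy : 0 ≤ y) (hs : 0 ≤ s) : y ^ s ≤ 1 + y ^ ⌈s⌉₊ := by
  rcases le_total y 1 with h | h
  · have := Real.rpow_le_one hy h hs
    have : 0 ≤ y ^ ⌈s⌉₊ := by positivity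
    linarith
  · have h1 : y ^ s ≤ y ^ ((⌈s⌉₊ : ℕ) : ℝ) := Real.rpow_le_rpow_of_exponent_le h (Nat.le_ceil s)
    rw [Real.rpow_natCast] at h1
    linarith

lemma integrable_abs_rpow (p : Polynomial ℝ) {s : ℝ} (hs : 0 ≤ s) :
    Integrable (fun x => |p.eval x| ^ s) (gaussianReal 0 1) := by
  have h1 : Integrable (fun x : ℝ => 1 + |(p ^ ⌈s⌉₊).eval x|) (gaussianReal 0 1) :=
    (integrable_const 1).add (integrable_poly (p ^ ⌈s⌉₊)).abs
  have hc : Continuous (fun x : ℝ => |p.eval x| ^ s) :=
    (p.continuous.abs).rpow_const (fun x => Or.inr hs)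
  apply h1.mono' hc.aestronglyMeasurable
  apply ae_of_all
  intro x
  rw [Real.norm_of_nonneg (Real.rpow_nonneg (abs_nonneg _) _), Polynomial.eval_pow, abs_pow]
  exact rpow_le_one_add (abs_nonneg _) hs

theorem transferQ {q C : ℝ} (hq : 0 < q) (hC1 : 1 ≤ C)
    (h : ∀ n : ℕ, 1 ≤ n → ∀ f : Cube n → ℝ, lpNorm q f ≤ C ^ degree f * lpNorm 1 f) (p : Polynomial ℝ) :
    ∫ x, |p.eval x| ^ q ∂(gaussianReal 0 1) ≤
      (C ^ p.natDegree * ∫ x, |p.eval x| ∂(gaussianReal 0 1)) ^ q := by
  obtain ⟨K, hK0, hK⟩ := poly_bound (p ^ 2)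
  set B := K * (2 * Real.exp (1 / 2)) with hB
  have hB0 : 0 ≤ B := by rw [hB]; positivity
  have hBn : ∀ n : ℕ, 1 ≤ n → mean (fun x : Cube n => p.eval (XX n x) ^ 2) ≤ B := by
    intro n hn
    calc mean (fun x : Cube n => p.eval (XX n x) ^ 2) ≤ mean (fun x : Cube n => K * Real.exp |XX n x|) := by
          apply mean_mono
          intro x
          have := hK (XX n x)
          rw [Polynomial.eval_pow] at this
          exact (le_abs_self _).trans this
      _ = K * mean (fun x : Cube n => Real.exp |XX n x|) := mean_const_mul _ _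
      _ ≤ _ := mul_le_mul_of_nonneg_left (exp_moment hn) hK0
  have hsq : ∀ n : ℕ, 1 ≤ n → mean (fun x : Cube n => |p.eval (XX n x)| ^ q) ≤
      (C ^ p.natDegree * (mean fun x : Cube n => |p.eval (XX n x)|)) ^ q := by
    intro n hn
    have h1 := h n hn (fun x => p.eval (XX n x))
    have h0 : 0 ≤ mean fun x : Cube n => |p.eval (XX n x)| := mean_nonneg fun x => abs_nonneg _
    have h2 : lpNorm q (fun x : Cube n => p.eval (XX n x)) ≤
        C ^ p.natDegree * mean fun x : Cube n => |p.eval (XX n x)| := by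
      rw [lpNorm_one] at h1
      apply h1.trans
      apply mul_le_mul_of_nonneg_right _ h0
      exact pow_le_pow_right₀ hC1 (degree_poly_le n p)
    exact mean_rpow_le hq h2
  have hIq : Integrable (fun x => |p.eval x| ^ q) (gaussianReal 0 1) := integrable_abs_rpow p hq.le
  have hI2q : Integrable (fun x => |p.eval x| ^ (2 * q)) (gaussianReal 0 1) :=
    integrable_abs_rpow p (by linarith)
  have hI1 : Integrable (fun x => |p.eval x|) (gaussianReal 0 1) := (integrable_poly p).abs
  -- main finite inequality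
  have key : ∀ L : ℝ, 0 < L → ∫ x, |p.eval x| ^ q ∂(gaussianReal 0 1) ≤
      (C ^ p.natDegree * (∫ x, |p.eval x| ∂(gaussianReal 0 1) + B * L⁻¹)) ^ q +
        (∫ x, |p.eval x| ^ (2 * q) ∂(gaussianReal 0 1)) * L⁻¹ := by
    intro L hL
    obtain ⟨φ2, hφ2⟩ := min_bdd_cont (g := fun x => |p.eval x| ^ q)
      ((p.continuous.abs).rpow_const (fun x => Or.inr hq.le)) (fun x => Real.rpow_nonneg (abs_nonneg _) _) hL
    obtain ⟨φ1, hφ1⟩ := min_bdd_cont (g := fun x => |p.eval x|) (by fun_prop) (fun x => abs_nonneg _) hL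
    have hlim : ∫ x, φ2 x ∂(gaussianReal 0 1) ≤
        (C ^ p.natDegree * (∫ x, φ1 x ∂(gaussianReal 0 1) + B * L⁻¹)) ^ q := by
      apply le_of_tendsto_of_tendsto (tendsto_mean φ2)
        ((((tendsto_mean φ1).add_const (B * L⁻¹)).const_mul (C ^ p.natDegree)).rpow_const (Or.inr hq.le))
      filter_upwards [eventually_ge_atTop 1] with n hn
      have h1 : mean (fun x : Cube n => φ2 (XX n x)) ≤ mean (fun x : Cube n => |p.eval (XX n x)| ^ q) := by
        apply mean_mono
        intro x
        rw [hφ2]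
        exact min_le_left _ _
      have h2 : (mean fun x : Cube n => |p.eval (XX n x)|) ≤ mean (fun x : Cube n => φ1 (XX n x)) + B * L⁻¹ := by
        have : (mean fun x : Cube n => |p.eval (XX n x)|) ≤
            mean (fun x : Cube n => φ1 (XX n x) + L⁻¹ * p.eval (XX n x) ^ 2) := by
          apply mean_mono
          intro x
          rw [hφ1]
          set y := p.eval (XX n x)
          rcases le_total |y| L with hc | hc
          · rw [min_eq_left hc]
            have : 0 ≤ L⁻¹ * y ^ 2 := by positivity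
            linarith
          · rw [min_eq_right hc]
            have h3 : |y| ≤ L⁻¹ * y ^ 2 := by
              rw [inv_mul_eq_div, le_div_iff₀ hL, ← sq_abs y]
              nlinarith [abs_nonneg y]
            linarith
        rw [mean_add, mean_const_mul] at this
        have h4 : L⁻¹ * mean (fun x : Cube n => p.eval (XX n x) ^ 2) ≤ L⁻¹ * B :=
          mul_le_mul_of_nonneg_left (hBn n hn) (by positivity)
        linarith
      have h0 : 0 ≤ mean fun x : Cube n => |p.eval (XX n x)| := mean_nonneg fun x => abs_nonneg _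
      calc mean (fun x : Cube n => φ2 (XX n x)) ≤ _ := h1
        _ ≤ _ := hsq n hn
        _ ≤ _ := by
          apply Real.rpow_le_rpow (by positivity) _ hq.le
          exact mul_le_mul_of_nonneg_left h2 (by positivity)
    have h5 : ∫ x, φ1 x ∂(gaussianReal 0 1) ≤ ∫ x, |p.eval x| ∂(gaussianReal 0 1) := by
      apply integral_mono (φ1.integrable _) hI1
      intro x
      simp only [hφ1]
      exact min_le_left _ _
    have h50 : 0 ≤ ∫ x, φ1 x ∂(gaussianReal 0 1) := by
      apply integral_nonneg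
      intro x
      simp only [hφ1]
      exact le_min (abs_nonneg _) hL.le
    have h6 : ∫ x, |p.eval x| ^ q ∂(gaussianReal 0 1) ≤
        ∫ x, (φ2 x + |p.eval x| ^ (2 * q) * L⁻¹) ∂(gaussianReal 0 1) := by
      apply integral_mono hIq ((φ2.integrable _).add (hI2q.mul_const _))
      intro x
      simp only [Pi.add_apply, hφ2]
      have e : |p.eval x| ^ (2 * q) = (|p.eval x| ^ q) ^ 2 := by
        rw [← Real.rpow_natCast, ← Real.rpow_mul (abs_nonneg _)]
        congr 1; push_cast; ring
      rw [e]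
      have hy0 : 0 ≤ |p.eval x| ^ q := Real.rpow_nonneg (abs_nonneg _) _
      set y := |p.eval x| ^ q
      rcases le_total y L with hc | hc
      · rw [min_eq_left hc]
        have : 0 ≤ y ^ 2 * L⁻¹ := by positivity
        linarith
      · rw [min_eq_right hc]
        have h3 : y ≤ y ^ 2 * L⁻¹ := by
          rw [← div_eq_mul_inv, le_div_iff₀ hL]
          nlinarith
        linarith
    rw [integral_add (φ2.integrable _) (hI2q.mul_const _), integral_mul_const] at h6
    have h7 : (C ^ p.natDegree * (∫ x, φ1 x ∂(gaussianReal 0 1) + B * L⁻¹)) ^ q ≤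
        (C ^ p.natDegree * (∫ x, |p.eval x| ∂(gaussianReal 0 1) + B * L⁻¹)) ^ q := by
      apply Real.rpow_le_rpow (by positivity) _ hq.le
      apply mul_le_mul_of_nonneg_left _ (by positivity)
      linarith
    linarith
  have hlim2 : Tendsto (fun m : ℕ => (C ^ p.natDegree *
      (∫ x, |p.eval x| ∂(gaussianReal 0 1) + B * ((m : ℝ) + 1)⁻¹)) ^ q +
        (∫ x, |p.eval x| ^ (2 * q) ∂(gaussianReal 0 1)) * ((m : ℝ) + 1)⁻¹) atTop
      (𝓝 ((C ^ p.natDegree * (∫ x, |p.eval x| ∂(gaussianReal 0 1) + B * 0)) ^ q +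
        (∫ x, |p.eval x| ^ (2 * q) ∂(gaussianReal 0 1)) * 0)) := by
    have ht : Tendsto (fun m : ℕ => ((m : ℝ) + 1)⁻¹) atTop (𝓝 0) := by
      simpa [one_div] using tendsto_one_div_add_atTop_nhds_zero_nat (𝕜 := ℝ)
    exact ((((ht.const_mul B).const_add _).const_mul _).rpow_const (Or.inr hq.le)).add (ht.const_mul _)
  have := ge_of_tendsto' hlim2 (fun m => key ((m : ℝ) + 1) (by positivity))
  simpa using this

end

end Pool.Agent.Y749.VV
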