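import Mathlib
import Pool.Agent.Helper228.HC.Lower6
import Pool.Agent.Y749.VV.Low1

open MeasureTheory ProbabilityTheory Filter Topology Real Polynomial

/-! Lower bound `√(2q-1)` for the `L^q`–`L^1` comparison, `q ≥ 2`. -/

namespace Pool.Agent.Y749.VV

open Pool.Agent.Helper228.HC (Cube lpNorm mean degree hh ss ss_zero ss_rec ss_deriv JJ JJ_integrable JJ_add
  JJ_C_mul JJ_sub JJ_sum JJ_nonneg JJ_mono stein JJ_four_mul gauss_integral EE_L1 hh_natDegree)

noncomputable section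

lemma JJ_ss {b : ℝ} (hb : 0 < b) (k : ℕ) :
    JJ b (ss (2 * k)) = JJ b 1 * ((4 / b - 2) ^ k / (k.factorial : ℝ)) := by
  induction k with
  | zero => simp [ss_zero]
  | succ k ih =>
    have h1 := congrArg (JJ b) (ss_rec (2 * k))
    rw [JJ_C_mul, JJ_sub hb, mul_assoc, JJ_four_mul, JJ_four_mul] at h1
    have h2 := stein hb (ss (2 * k + 1))
    rw [ss_deriv, JJ_four_mul] at h2
    have e : 2 * (k + 1) = 2 * k + 2 := by ring
    rw [e]
    have h2' : JJ b (X * ss (2 * k + 1)) = 2 / b * JJ b (ss (2 * k)) := by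
      field_simp
      linarith
    have h3 : (((2 * k : ℕ) : ℝ) + 2) * JJ b (ss (2 * k + 2)) = (8 / b - 4) * JJ b (ss (2 * k)) := by
      rw [h1, h2']; ring
    rw [ih] at h3
    have h4 : (((2 * k : ℕ) : ℝ) + 2) ≠ 0 := by positivity
    apply mul_left_cancel₀ h4
    have e8 : 8 / b - 4 = 2 * (4 / b - 2) := by ring
    rw [h3, Nat.factorial_succ, e8]
    generalize (4 / b - 2) = β
    push_cast
    have : ((k.factorial : ℕ) : ℝ) ≠ 0 := by positivity
    field_simp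
    ring

lemma sq_rpow_half {y : ℝ} (hy : 0 ≤ y) (q : ℝ) : (y ^ 2) ^ (q / 2) = y ^ q := by
  rw [← Real.rpow_natCast y 2, ← Real.rpow_mul hy]
  congr 1; push_cast; ring

lemma JJ_one {b : ℝ} : JJ b 1 = Real.sqrt (π / b) := by
  unfold JJ
  simp only [eval_one, one_mul]
  exact integral_gaussian b

lemma JJ_one_pos {b : ℝ} (hb : 0 < b) : 0 < JJ b 1 := by
  rw [JJ_one]
  have := Real.pi_pos
  positivity

lemma integrable_abs_rpow_exp (p : ℝ[X]) {s b : ℝ} (hs : 0 ≤ s) (hb : 0 < b) :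
    Integrable (fun x : ℝ => |p.eval x| ^ s * Real.exp (-b * x ^ 2)) := by
  have h1 : Integrable (fun x : ℝ => (1 : ℝ[X]).eval x * Real.exp (-b * x ^ 2) +
      |(p ^ ⌈s⌉₊).eval x * Real.exp (-b * x ^ 2)|) :=
    (JJ_integrable hb 1).add (JJ_integrable hb (p ^ ⌈s⌉₊)).abs
  have hc : Continuous (fun x : ℝ => |p.eval x| ^ s * Real.exp (-b * x ^ 2)) :=
    ((p.continuous.abs).rpow_const (fun x => Or.inr hs)).mul (by fun_prop)
  apply h1.mono' hc.aestronglyMeasurable
  apply ae_of_all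
  intro x
  rw [Real.norm_of_nonneg (mul_nonneg (Real.rpow_nonneg (abs_nonneg _) _) (Real.exp_pos _).le),
    Polynomial.eval_pow, abs_mul, abs_pow, Real.abs_exp, eval_one, ← add_mul]
  exact mul_le_mul_of_nonneg_right (rpow_le_one_add (abs_nonneg _) hs) (Real.exp_pos _).le

/-- a substitute for Hölder's inequality -/
lemma JJ_sq_le {q ε D : ℝ} (hq : 2 ≤ q) (hε : 0 < ε) (hD : 0 < D) (p : ℝ[X])
    (h : ∫ x : ℝ, |p.eval x| ^ q * Real.exp (-(1 / 2) * x ^ 2) ≤ D ^ (q / 2)) :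
    JJ (1 / q + ε) (p * p) ≤ D * (1 + Real.sqrt (π / ε)) := by
  have hq0 : 0 < q := by linarith
  have hI := integrable_abs_rpow_exp p (s := q) (b := 1 / 2) hq0.le (by norm_num)
  have hE := JJ_integrable hε 1
  have hle : JJ (1 / q + ε) (p * p) ≤ ∫ x : ℝ, (D * ((1 : ℝ[X]).eval x * Real.exp (-ε * x ^ 2)) +
      D ^ (1 - q / 2) * (|p.eval x| ^ q * Real.exp (-(1 / 2) * x ^ 2))) := by
    unfold JJ
    apply integral_mono (JJ_integrable (by positivity) (p * p)) ((hE.const_mul D).add (hI.const_mul _))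
    intro x
    simp only [Pi.add_apply, eval_one, one_mul, eval_mul]
    set y := |p.eval x| with hy
    have hy0 : 0 ≤ y := abs_nonneg _
    have hpp : p.eval x * p.eval x = y ^ 2 := by rw [hy, sq_abs]; ring
    rw [hpp]
    set u := y ^ 2 * Real.exp (-(1 / q) * x ^ 2) with hu
    have hu0 : 0 ≤ u := by positivity
    have e1 : y ^ 2 * Real.exp (-(1 / q + ε) * x ^ 2) = u * Real.exp (-ε * x ^ 2) := by
      rw [hu, mul_assoc, ← Real.exp_add]
      congr 2; ring
    have e2 : y ^ q * Real.exp (-(1 / 2) * x ^ 2) = u ^ (q / 2) := by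
      rw [hu, Real.mul_rpow (by positivity) (Real.exp_pos _).le, sq_rpow_half hy0, ← Real.exp_mul]
      congr 2; field_simp
    rw [e1, e2]
    have h1 : u ≤ D + D ^ (1 - q / 2) * u ^ (q / 2) := by
      rcases le_total u D with hc | hc
      · have : 0 ≤ D ^ (1 - q / 2) * u ^ (q / 2) := by positivity
        linarith
      · have hu1 : 0 < u := lt_of_lt_of_le hD hc
        have h2 : u ^ (1 - q / 2) ≤ D ^ (1 - q / 2) :=
          Real.rpow_le_rpow_of_nonpos hD hc (by linarith)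
        have h3 : u = u ^ (1 - q / 2) * u ^ (q / 2) := by
          rw [← Real.rpow_add hu1]
          have : 1 - q / 2 + q / 2 = 1 := by ring
          rw [this, Real.rpow_one]
        have h4 : u ^ (1 - q / 2) * u ^ (q / 2) ≤ D ^ (1 - q / 2) * u ^ (q / 2) :=
          mul_le_mul_of_nonneg_right h2 (by positivity)
        linarith
    have h5 : Real.exp (-ε * x ^ 2) ≤ 1 := by
      rw [Real.exp_le_one_iff]; nlinarith [sq_nonneg x]
    have h6 : 0 < Real.exp (-ε * x ^ 2) := Real.exp_pos _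
    have h7 : 0 ≤ D ^ (1 - q / 2) * u ^ (q / 2) := by positivity
    nlinarith
  have h8 : ∫ x : ℝ, (D * ((1 : ℝ[X]).eval x * Real.exp (-ε * x ^ 2)) +
      D ^ (1 - q / 2) * (|p.eval x| ^ q * Real.exp (-(1 / 2) * x ^ 2))) =
      D * JJ ε 1 + D ^ (1 - q / 2) * ∫ x : ℝ, |p.eval x| ^ q * Real.exp (-(1 / 2) * x ^ 2) := by
    rw [integral_add (hE.const_mul D) (hI.const_mul _), integral_const_mul, integral_const_mul]
    rfl
  rw [h8, JJ_one] at hle
  have h9 : D ^ (1 - q / 2) * ∫ x : ℝ, |p.eval x| ^ q * Real.exp (-(1 / 2) * x ^ 2) ≤ D := by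
    calc _ ≤ D ^ (1 - q / 2) * D ^ (q / 2) := mul_le_mul_of_nonneg_left h (by positivity)
      _ = D := by
        rw [← Real.rpow_add hD]
        have : 1 - q / 2 + q / 2 = 1 := by ring
        rw [this, Real.rpow_one]
  linarith

/-- the weighted `L²` norms of the test polynomials, under the hypothesis -/
lemma JJ_hh_le {q K : ℝ} (hq : 2 ≤ q) (hK1 : 1 ≤ K)
    (h : ∀ n : ℕ, 1 ≤ n → ∀ f : Cube n → ℝ, lpNorm q f ≤ K ^ degree f * lpNorm 1 f) {ε : ℝ} (hε : 0 < ε)
    (n : ℕ) : JJ (1 / q + ε) (hh n * hh n) ≤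
      (2 * π * (1 + Real.sqrt (π / ε))) * (2 * ((n : ℝ) + 1) * ((2 * K ^ 2) ^ n / (n.factorial : ℝ))) := by
  have hq0 : 0 < q := by linarith
  have hpi := Real.pi_gt_three
  have hK0 : 0 < K := by linarith
  set D0 : ℝ := 2 * ((n : ℝ) + 1) * ((2 * K ^ 2) ^ n / (n.factorial : ℝ)) with hD0
  have hD0p : 0 < D0 := by rw [hD0]; positivity
  have h1 := transferQ hq0 hK1 h (hh n)
  have h2 := EE_L1 n
  set I := ∫ x, |(hh n).eval x| ∂(gaussianReal 0 1) with hI
  have hI0 : 0 ≤ I := integral_nonneg fun x => abs_nonneg _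
  have h3 : (K ^ (hh n).natDegree * I) ^ 2 ≤ D0 := by
    calc (K ^ (hh n).natDegree * I) ^ 2 = K ^ (2 * (hh n).natDegree) * I ^ 2 := by
          rw [mul_pow, ← pow_mul, mul_comm 2]
      _ ≤ K ^ (2 * n) * (2 * ((n : ℝ) + 1) * (2 ^ n / (n.factorial : ℝ))) := by
        apply mul_le_mul _ h2 (sq_nonneg _) (by positivity)
        apply pow_le_pow_right₀ hK1
        have := hh_natDegree n
        omega
      _ = D0 := by rw [hD0, mul_pow, pow_mul]; ring
  have h4 : (K ^ (hh n).natDegree * I) ^ q ≤ D0 ^ (q / 2) := by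
    have h5 : 0 ≤ K ^ (hh n).natDegree * I := by positivity
    calc (K ^ (hh n).natDegree * I) ^ q = ((K ^ (hh n).natDegree * I) ^ 2) ^ (q / 2) :=
          (sq_rpow_half h5 q).symm
      _ ≤ D0 ^ (q / 2) := Real.rpow_le_rpow (by positivity) h3 (by positivity)
  have h6 : ∫ x : ℝ, |(hh n).eval x| ^ q * Real.exp (-(1 / 2) * x ^ 2) ≤ (2 * π * D0) ^ (q / 2) := by
    have h7 := gauss_integral (fun x => |(hh n).eval x| ^ q)
    have h8 : ∫ x : ℝ, |(hh n).eval x| ^ q * Real.exp (-(1 / 2) * x ^ 2) =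
        Real.sqrt (2 * π) * ∫ x, |(hh n).eval x| ^ q ∂(gaussianReal 0 1) := by
      rw [h7]
      have : 0 < Real.sqrt (2 * π) := by positivity
      field_simp
    rw [h8, Real.mul_rpow (by positivity) hD0p.le]
    apply mul_le_mul _ (h1.trans h4) (integral_nonneg fun x => Real.rpow_nonneg (abs_nonneg _) _) (by positivity)
    rw [Real.sqrt_eq_rpow]
    apply Real.rpow_le_rpow_of_exponent_le (by linarith) (by linarith)
  have h9 := JJ_sq_le hq hε (by positivity) (hh n) h6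
  calc _ ≤ _ := h9
    _ = _ := by ring

lemma JJ_cs {w : ℝ} (hw : 0 < w) {p q : ℝ[X]} {a b : ℝ} (ha : 0 < a) (hb : 0 < b)
    (hp : JJ w (p * p) ≤ a ^ 2) (hq : JJ w (q * q) ≤ b ^ 2) : JJ w (p * q) ≤ a * b := by
  have h : 0 ≤ JJ w ((C b * p - C a * q) * (C b * p - C a * q)) :=
    JJ_nonneg (fun x => by rw [eval_mul]; exact mul_self_nonneg _)
  have e : (C b * p - C a * q) * (C b * p - C a * q) =
      C (b ^ 2) * (p * p) + (C (-(2 * a * b)) * (p * q) + C (a ^ 2) * (q * q)) := by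
    simp only [C_neg, C_mul, C_pow, C_ofNat]
    ring
  rw [e, JJ_add hw, JJ_add hw, JJ_C_mul, JJ_C_mul, JJ_C_mul] at h
  have h2 : 2 * a * b * JJ w (p * q) ≤ 2 * a * b * (a * b) := by
    nlinarith [mul_le_mul_of_nonneg_left hp (sq_nonneg b), mul_le_mul_of_nonneg_left hq (sq_nonneg a)]
  exact le_of_mul_le_mul_left h2 (by positivity)

/-- If all the weighted second moments of the test polynomials are at most `c·2(n+1)(2Q)^n/n!`, then
`(β/2)² ≤ Q²` up to polynomial factors, where `β = 4/w - 2`. -/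
theorem lower_mainW {w : ℝ} (hw : 0 < w) (hw2 : w < 2) {c Q : ℝ} (hc : 0 < c) (hQ : 0 < Q)
    (h2 : ∀ n : ℕ, JJ w (hh n * hh n) ≤ c * (2 * ((n : ℝ) + 1) * ((2 * Q) ^ n / (n.factorial : ℝ)))) (k : ℕ) :
    (JJ w 1) ^ 2 * ((4 / w - 2) ^ 2) ^ k ≤ 4 * c ^ 2 * (2 * (k : ℝ) + 1) ^ 5 * ((2 * Q) ^ 2) ^ k := by
  have hj := JJ_one_pos hw
  have hβ : 0 < 4 / w - 2 := by
    have : 2 < 4 / w := by rw [lt_div_iff₀ hw]; linarith
    linarith
  set β := 4 / w - 2 with hβdef
  -- the uniform bound for the products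
  set M : ℝ := c ^ 2 * (4 * (2 * (k : ℝ) + 1) ^ 2 * ((2 * Q) ^ (2 * k) * 4 ^ k / ((2 * k).factorial : ℝ))) with hM
  have hM0 : 0 < M := by rw [hM]; positivity
  have h3 : ∀ ij ∈ Finset.HasAntidiagonal.antidiagonal (2 * k), JJ w (hh ij.1 * hh ij.2) ≤ Real.sqrt M := by
    intro ij hij
    rw [Finset.HasAntidiagonal.mem_antidiagonal] at hij
    obtain ⟨i, j⟩ := ij
    simp only at hij ⊢
    set Di : ℝ := c * (2 * ((i : ℝ) + 1) * ((2 * Q) ^ i / (i.factorial : ℝ))) with hDi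
    set Dj : ℝ := c * (2 * ((j : ℝ) + 1) * ((2 * Q) ^ j / (j.factorial : ℝ))) with hDj
    have hDi0 : 0 < Di := by rw [hDi]; positivity
    have hDj0 : 0 < Dj := by rw [hDj]; positivity
    have h4 : JJ w (hh i * hh j) ≤ Real.sqrt Di * Real.sqrt Dj := by
      apply JJ_cs hw (Real.sqrt_pos.2 hDi0) (Real.sqrt_pos.2 hDj0)
      · rw [Real.sq_sqrt hDi0.le]; exact h2 i
      · rw [Real.sq_sqrt hDj0.le]; exact h2 j
    rw [← Real.sqrt_mul hDi0.le] at h4
    apply h4.trans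
    apply Real.sqrt_le_sqrt
    have e1 : Di * Dj = c ^ 2 * (4 * (((i : ℝ) + 1) * ((j : ℝ) + 1)) *
        ((2 * Q) ^ (2 * k) * (1 / ((i.factorial : ℝ) * (j.factorial : ℝ))))) := by
      rw [hDi, hDj, ← hij, pow_add]
      field_simp
      ring
    have e2 : 1 / ((i.factorial : ℝ) * (j.factorial : ℝ)) ≤ 4 ^ k / ((2 * k).factorial : ℝ) := by
      have c1 := Nat.add_choose_mul_factorial_mul_factorial i j
      have c2 := Nat.choose_le_two_pow (2 * k) j
      rw [← hij] at c2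
      have c3 : ((i + j).factorial : ℝ) ≤ 4 ^ k * ((i.factorial : ℝ) * (j.factorial : ℝ)) := by
        have c4 : ((i + j).factorial : ℝ) = ((i + j).choose j : ℝ) * (i.factorial : ℝ) * (j.factorial : ℝ) := by
          exact_mod_cast c1.symm
        have c5 : (((i + j).choose j : ℕ) : ℝ) ≤ 4 ^ k := by
          have : (4 : ℝ) ^ k = 2 ^ (i + j) := by
            rw [hij, pow_mul]; norm_num
          rw [this]
          exact_mod_cast c2
        rw [c4, mul_assoc]
        exact mul_le_mul_of_nonneg_right c5 (by positivity)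
      rw [hij] at c3
      rw [div_le_div_iff₀ (by positivity) (by positivity), one_mul]
      exact c3
    have e3 : ((i : ℝ) + 1) * ((j : ℝ) + 1) ≤ (2 * (k : ℝ) + 1) ^ 2 := by
      have c1 : (i : ℝ) ≤ 2 * k := by
        have : i ≤ 2 * k := by omega
        exact_mod_cast this
      have c2 : (j : ℝ) ≤ 2 * k := by
        have : j ≤ 2 * k := by omega
        exact_mod_cast this
      have c3 : (0 : ℝ) ≤ i := by positivity
      have c4 : (0 : ℝ) ≤ j := by positivity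
      nlinarith
    rw [e1, hM, mul_div_assoc]
    apply mul_le_mul_of_nonneg_left _ (by positivity)
    apply mul_le_mul
    · linarith
    · exact mul_le_mul_of_nonneg_left e2 (by positivity)
    · positivity
    · positivity
  have h4 : JJ w 1 * (β ^ k / (k.factorial : ℝ)) ≤ (2 * (k : ℝ) + 1) * Real.sqrt M := by
    rw [hβdef, ← JJ_ss hw, ss, JJ_sum hw]
    calc _ ≤ ∑ ij ∈ Finset.HasAntidiagonal.antidiagonal (2 * k), Real.sqrt M := Finset.sum_le_sum h3
      _ = _ := by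
        rw [Finset.sum_const, Finset.Nat.card_antidiagonal, nsmul_eq_mul]
        push_cast; ring
  have h5 : (JJ w 1 * (β ^ k / (k.factorial : ℝ))) ^ 2 ≤ (2 * (k : ℝ) + 1) ^ 2 * M := by
    calc _ ≤ ((2 * (k : ℝ) + 1) * Real.sqrt M) ^ 2 := pow_le_pow_left₀ (by positivity) h4 2
      _ = _ := by rw [mul_pow, Real.sq_sqrt hM0.le]
  -- central binomial
  have h6 : (4 : ℝ) ^ k * (k.factorial : ℝ) ^ 2 ≤ (2 * (k : ℝ) + 1) * ((2 * k).factorial : ℝ) := by
    have c1 : 4 ^ k ≤ (2 * k + 1) * k.centralBinom := by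
      rcases Nat.eq_zero_or_pos k with rfl | hk
      · simp
      · have := Nat.four_pow_le_two_mul_self_mul_centralBinom k hk
        nlinarith [Nat.centralBinom_pos k]
    have c2 : k.centralBinom * (k.factorial * k.factorial) = (2 * k).factorial := by
      have := Nat.add_choose_mul_factorial_mul_factorial k k
      rw [← two_mul] at this
      rw [Nat.centralBinom, ← mul_assoc]; exact this
    have c3 : ((4 : ℝ)) ^ k ≤ (2 * (k : ℝ) + 1) * (k.centralBinom : ℝ) := by exact_mod_cast c1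
    have c4 : ((k.centralBinom : ℝ)) * ((k.factorial : ℝ) * (k.factorial : ℝ)) = ((2 * k).factorial : ℝ) := by
      exact_mod_cast c2
    calc (4 : ℝ) ^ k * (k.factorial : ℝ) ^ 2 ≤ (2 * (k : ℝ) + 1) * (k.centralBinom : ℝ) * (k.factorial : ℝ) ^ 2 :=
          mul_le_mul_of_nonneg_right c3 (by positivity)
      _ = _ := by rw [← c4]; ring
  -- combine
  have hf : (0 : ℝ) < (k.factorial : ℝ) := by positivity
  have hg : (0 : ℝ) < ((2 * k).factorial : ℝ) := by positivity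
  have h7 : (JJ w 1) ^ 2 * (β ^ k) ^ 2 * ((2 * k).factorial : ℝ) ≤
      4 * c ^ 2 * (2 * (k : ℝ) + 1) ^ 4 * ((2 * Q) ^ (2 * k) * 4 ^ k) * (k.factorial : ℝ) ^ 2 := by
    rw [hM] at h5
    have h8 : (JJ w 1 * (β ^ k / (k.factorial : ℝ))) ^ 2 = (JJ w 1) ^ 2 * (β ^ k) ^ 2 / (k.factorial : ℝ) ^ 2 := by
      rw [mul_pow, div_pow]; ring
    rw [h8, div_le_iff₀ (by positivity)] at h5
    have := mul_le_mul_of_nonneg_right h5 hg.le
    calc _ ≤ _ := this
      _ = _ := by field_simp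
  have h8 : (JJ w 1) ^ 2 * (β ^ k) ^ 2 * (4 ^ k * (k.factorial : ℝ) ^ 2) ≤
      4 * c ^ 2 * (2 * (k : ℝ) + 1) ^ 5 * (2 * Q) ^ (2 * k) * (4 ^ k * (k.factorial : ℝ) ^ 2) := by
    calc _ ≤ (JJ w 1) ^ 2 * (β ^ k) ^ 2 * ((2 * (k : ℝ) + 1) * ((2 * k).factorial : ℝ)) :=
          mul_le_mul_of_nonneg_left h6 (by positivity)
      _ = (2 * (k : ℝ) + 1) * ((JJ w 1) ^ 2 * (β ^ k) ^ 2 * ((2 * k).factorial : ℝ)) := by ring
      _ ≤ (2 * (k : ℝ) + 1) * _ := mul_le_mul_of_nonneg_left h7 (by positivity)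
      _ = _ := by ring
  have h9 := le_of_mul_le_mul_right h8 (by positivity)
  have e1 : (β ^ 2) ^ k = (β ^ k) ^ 2 := by rw [← pow_mul, ← pow_mul, mul_comm]
  have e2 : ((2 * Q) ^ 2) ^ k = (2 * Q) ^ (2 * k) := by rw [← pow_mul]
  rw [e1, e2]
  exact h9

lemma le_of_pow_le {x y A B : ℝ} (hx : 0 ≤ x) (hy : 0 < y) (hA : 0 < A)
    (h : ∀ k : ℕ, A * x ^ k ≤ B * (2 * (k : ℝ) + 1) ^ 5 * y ^ k) : x ≤ y := by
  by_contra hc
  push Not at hc
  have hx0 : 0 < x := hy.trans hc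
  have hB : 0 ≤ B := by
    have := h 0
    simp only [pow_zero, mul_one, Nat.cast_zero, mul_zero, zero_add, one_pow] at this
    linarith
  set r := y / x with hr
  have hr0 : 0 ≤ r := by positivity
  have hr1 : r < 1 := by rw [hr, div_lt_one hx0]; exact hc
  have h3 : ∀ k : ℕ, 1 ≤ k → A ≤ 243 * B * ((k : ℝ) ^ 5 * r ^ k) := by
    intro k hk
    have h4 := h k
    have hk1 : (1 : ℝ) ≤ k := by exact_mod_cast hk
    have h5 : (2 * (k : ℝ) + 1) ^ 5 ≤ (3 * (k : ℝ)) ^ 5 := pow_le_pow_left₀ (by positivity) (by linarith) 5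
    have h6 : y ^ k = x ^ k * r ^ k := by
      rw [← mul_pow, hr]
      congr 1
      field_simp
    rw [h6] at h4
    have h7 : A * x ^ k ≤ 243 * B * ((k : ℝ) ^ 5 * r ^ k) * x ^ k := by
      calc A * x ^ k ≤ _ := h4
        _ ≤ B * (3 * (k : ℝ)) ^ 5 * (x ^ k * r ^ k) := by
          apply mul_le_mul_of_nonneg_right _ (by positivity)
          exact mul_le_mul_of_nonneg_left h5 hB
        _ = _ := by ring
    exact le_of_mul_le_mul_right h7 (by positivity)
  have h4 := (tendsto_pow_const_mul_const_pow_of_abs_lt_one 5 (by rw [abs_of_nonneg hr0]; exact hr1 : |r| < 1)).const_mul (243 * B)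
  rw [mul_zero] at h4
  have h5 := (h4.eventually (gt_mem_nhds hA)).and (eventually_ge_atTop 1)
  obtain ⟨k, hk, hk1⟩ := h5.exists
  have := h3 k hk1
  linarith

/-- **Lower bound** for `q ≥ 2`. -/
theorem lowerQ {q K : ℝ} (hq : 2 ≤ q) (hK1 : 1 ≤ K)
    (h : ∀ n : ℕ, 1 ≤ n → ∀ f : Cube n → ℝ, lpNorm q f ≤ K ^ degree f * lpNorm 1 f) :
    Real.sqrt (2 * q - 1) ≤ K := by
  have hq0 : 0 < q := by linarith
  have hK0 : 0 < K := by linarith
  rw [Real.sqrt_le_left hK0.le]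
  by_contra hc
  push Not at hc
  -- choose ε
  set w : ℝ := (1 / q + 2 / (K ^ 2 + 1)) / 2 with hw
  have h1 : 1 / q < 2 / (K ^ 2 + 1) := by
    rw [div_lt_div_iff₀ hq0 (by positivity)]
    linarith
  have h1q : 0 < 1 / q := by positivity
  have hw0 : 0 < w := by rw [hw]; positivity
  have hε : 0 < w - 1 / q := by rw [hw]; linarith
  have hw1 : w < 2 / (K ^ 2 + 1) := by rw [hw]; linarith
  have hw2 : w < 2 := by
    have : 2 / (K ^ 2 + 1) ≤ 2 := by
      rw [div_le_iff₀ (by positivity)]; nlinarith [sq_nonneg K]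
    linarith
  have h2 : ∀ n : ℕ, JJ w (hh n * hh n) ≤ (2 * π * (1 + Real.sqrt (π / (w - 1 / q)))) *
      (2 * ((n : ℝ) + 1) * ((2 * K ^ 2) ^ n / (n.factorial : ℝ))) := by
    intro n
    have := JJ_hh_le hq hK1 h hε n
    have e : 1 / q + (w - 1 / q) = w := by ring
    rwa [e] at this
  have hpi := Real.pi_pos
  have h3 := lower_mainW hw0 hw2 (c := 2 * π * (1 + Real.sqrt (π / (w - 1 / q)))) (Q := K ^ 2)
    (by positivity) (by positivity) h2
  have h4 := le_of_pow_le (by positivity) (by positivity) (pow_pos (JJ_one_pos hw0) 2) h3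
  have h5 : 4 / w - 2 ≤ 2 * K ^ 2 := by
    have : 0 ≤ 2 * K ^ 2 := by positivity
    exact le_of_sq_le_sq h4 this
  have h6 : 2 * (K ^ 2 + 1) < 4 / w := by
    rw [lt_div_iff₀ hw0]
    rw [lt_div_iff₀ (by positivity)] at hw1
    linarith
  linarith

end

end Pool.Agent.Y749.VV
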