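import Mathlib
import Pool.Agent.Y749.VV.Low2

open MeasureTheory ProbabilityTheory Filter Topology Real Polynomial

/-! Weighted `L²` and pointwise bounds for the Hermite polynomials `hh n`. -/

namespace Pool.Agent.Y749.VV

open Pool.Agent.Helper228.HC (hh ss hh_rec hh_deriv JJ JJ_integrable JJ_add
  JJ_C_mul JJ_sub JJ_sum JJ_nonneg JJ_mono stein JJ_two_mul)

noncomputable section

lemma JJ_zero (b : ℝ) : JJ b 0 = 0 := by simp [JJ]

lemma rec_ge2 {b : ℝ} (hb : 0 < b) (l : ℕ) (g : ℝ[X]) :
    ((l : ℝ) + 2) * JJ b (hh (l + 2) * g) =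
      2 * (1 / b - 1) * JJ b (hh l * g) + 1 / b * JJ b (hh (l + 1) * derivative g) := by
  have h1 : JJ b (C ((l : ℝ) + 2) * (hh (l + 2) * g)) = JJ b (2 * (X * (hh (l + 1) * g)) - 2 * (hh l * g)) := by
    congr 1
    rw [← mul_assoc, hh_rec]; ring
  rw [JJ_C_mul, JJ_sub hb, JJ_two_mul, JJ_two_mul] at h1
  have h2 := stein hb (hh (l + 1) * g)
  have h3 : derivative (hh (l + 1) * g) = 2 * (hh l * g) + hh (l + 1) * derivative g := by
    rw [derivative_mul, hh_deriv]; ring
  rw [h3, JJ_add hb, JJ_two_mul] at h2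
  rw [h1]
  field_simp
  linarith

lemma rec_1 {b : ℝ} (hb : 0 < b) (g : ℝ[X]) : JJ b (hh 1 * g) = 1 / b * JJ b (derivative g) := by
  have h1 : JJ b (hh 1 * g) = 2 * JJ b (X * g) := by
    rw [← JJ_two_mul]
    congr 1
    rw [hh]; ring
  have h2 := stein hb g
  rw [h1]
  field_simp
  linarith

lemma JJ_hh_nonneg {b : ℝ} (hb : 0 < b) (hb1 : b ≤ 1) : ∀ N i j : ℕ, i + j = N → 0 ≤ JJ b (hh i * hh j) := by
  intro N
  induction N using Nat.strong_induction_on with
  | _ N ih =>
    have hb' : 0 ≤ 1 / b - 1 := by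
      have : 1 ≤ 1 / b := by rw [le_div_iff₀ hb]; linarith
      linarith
    have hder : ∀ i j : ℕ, i + 1 + j = N → 0 ≤ JJ b (hh i * derivative (hh j)) := by
      intro i j hij
      cases j with
      | zero => simp [hh, JJ_zero]
      | succ m =>
        have e : hh i * derivative (hh (m + 1)) = 2 * (hh i * hh m) := by rw [hh_deriv]; ring
        rw [e, JJ_two_mul]
        have := ih (i + m) (by omega) i m rfl
        linarith
    have main : ∀ i j : ℕ, i + 1 + j = N → 0 ≤ JJ b (hh (i + 1) * hh j) := by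
      intro i j hij
      cases i with
      | zero =>
        rw [zero_add, rec_1 hb]
        have h1 := hder 0 j (by omega)
        have h2 : hh 0 * derivative (hh j) = derivative (hh j) := by simp [hh]
        rw [h2] at h1
        positivity
      | succ l =>
        have h1 := rec_ge2 hb l (hh j)
        have h2 := ih (l + j) (by omega) l j rfl
        have h3 := hder (l + 1) j (by omega)
        have h4 : 0 ≤ ((l : ℝ) + 2) * JJ b (hh (l + 2) * hh j) := by
          rw [h1]; positivity
        have h5 : (0 : ℝ) < (l : ℝ) + 2 := by positivity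
        exact nonneg_of_mul_nonneg_right h4 h5
    intro i j hij
    cases i with
    | succ i => exact main i j (by omega)
    | zero =>
      cases j with
      | zero =>
        apply JJ_nonneg
        intro x; simp [hh]
      | succ m =>
        rw [mul_comm]
        exact main m 0 (by omega)

/-- weighted second moment of `hh n` -/
lemma JJ_hh_sq_le {b : ℝ} (hb : 0 < b) (hb1 : b ≤ 1) (n : ℕ) :
    JJ b (hh n * hh n) ≤ JJ b 1 * ((4 / b - 2) ^ n / (n.factorial : ℝ)) := by
  have hmem : ((n, n) : ℕ × ℕ) ∈ Finset.HasAntidiagonal.antidiagonal (2 * n) := by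
    rw [Finset.HasAntidiagonal.mem_antidiagonal, two_mul]
  have h1 : ∀ ij ∈ Finset.HasAntidiagonal.antidiagonal (2 * n), 0 ≤ (fun ij : ℕ × ℕ => JJ b (hh ij.1 * hh ij.2)) ij := by
    intro ij _
    exact JJ_hh_nonneg hb hb1 (ij.1 + ij.2) ij.1 ij.2 rfl
  have h2 := Finset.single_le_sum h1 hmem
  have h3 : JJ b (ss (2 * n)) = ∑ ij ∈ Finset.HasAntidiagonal.antidiagonal (2 * n), JJ b (hh ij.1 * hh ij.2) := by
    rw [ss, JJ_sum hb]
  rw [← JJ_ss hb, h3]
  exact h2

lemma JJ_X2_le {b : ℝ} (hb : 0 < b) (h : ℝ[X]) :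
    JJ b (X * X * (h * h)) ≤ 1 / b * JJ b (h * h) + 1 / b ^ 2 * JJ b (derivative h * derivative h) := by
  have h1 := stein hb (X * (h * h))
  have h2 : derivative (X * (h * h)) = h * h + 2 * (X * h * derivative h) := by
    rw [derivative_mul, derivative_mul, derivative_X]; ring
  rw [h2, JJ_add hb] at h1
  have h3 : JJ b (2 * (X * h * derivative h)) ≤ JJ b (C b * (X * X * (h * h)) + C (1 / b) * (derivative h * derivative h)) := by
    apply JJ_mono hb
    intro x
    simp only [eval_mul, eval_add, eval_C, eval_X, eval_ofNat]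
    set u := eval x h
    set v := eval x (derivative h)
    have : 0 ≤ b * (x * u - v / b) ^ 2 := by positivity
    have e : b * (x * u - v / b) ^ 2 = b * (x * x * (u * u)) - 2 * (x * u * v) + 1 / b * (v * v) := by
      field_simp; ring
    linarith
  rw [JJ_add hb, JJ_C_mul, JJ_C_mul] at h3
  have e1 : X * (X * (h * h)) = X * X * (h * h) := by ring
  rw [e1] at h1
  have h4 : b * JJ b (X * X * (h * h)) ≤ JJ b (h * h) + 1 / b * JJ b (derivative h * derivative h) := by linarith
  have h5 : JJ b (X * X * (h * h)) ≤ (JJ b (h * h) + 1 / b * JJ b (derivative h * derivative h)) / b := by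
    rw [le_div_iff₀ hb]; linarith
  calc _ ≤ _ := h5
    _ = _ := by field_simp


end

end Pool.Agent.Y749.VV
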