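import Mathlib
import Pool.Agent.Y749.VV.Low3

open MeasureTheory ProbabilityTheory Filter Topology Real Polynomial

/-! The largest among the correlations `∫ h_i h_j e^{-b x²}`, `i + j = 2 n`, is the one with `i = j`. -/

namespace Pool.Agent.Y749.VV

open Pool.Agent.Helper228.HC (hh ss hh_rec hh_deriv JJ JJ_integrable JJ_add
  JJ_C_mul JJ_sub JJ_sum JJ_nonneg JJ_mono stein JJ_two_mul)

noncomputable section

/-- the correlations, extended by zero -/
def gz (b : ℝ) (i j : ℤ) : ℝ := if 0 ≤ i ∧ 0 ≤ j then JJ b (hh i.toNat * hh j.toNat) else 0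

lemma gz_nat (b : ℝ) (i j : ℕ) : gz b i j = JJ b (hh i * hh j) := by
  unfold gz; simp

lemma gz_neg_left (b : ℝ) {i : ℤ} (hi : i < 0) (j : ℤ) : gz b i j = 0 := by
  unfold gz; rw [if_neg]; omega

lemma gz_neg_right (b : ℝ) (i : ℤ) {j : ℤ} (hj : j < 0) : gz b i j = 0 := by
  unfold gz; rw [if_neg]; omega

lemma gz_comm (b : ℝ) (i j : ℤ) : gz b i j = gz b j i := by
  unfold gz
  by_cases h : 0 ≤ i ∧ 0 ≤ j
  · rw [if_pos h, if_pos ⟨h.2, h.1⟩, mul_comm]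
  · rw [if_neg h, if_neg (fun h' => h ⟨h'.2, h'.1⟩)]

lemma JJ_hh_deriv (b : ℝ) (i j : ℕ) : JJ b (hh i * derivative (hh j)) = 2 * gz b i ((j : ℤ) - 1) := by
  cases j with
  | zero =>
    rw [gz_neg_right b _ (by norm_num)]
    simp [hh, JJ_zero]
  | succ m =>
    have e : hh i * derivative (hh (m + 1)) = 2 * (hh i * hh m) := by rw [hh_deriv]; ring
    have e2 : ((m + 1 : ℕ) : ℤ) - 1 = m := by push_cast; ring
    rw [e, JJ_two_mul, e2, gz_nat]

lemma gz_rec {b : ℝ} (hb : 0 < b) (i j : ℤ) :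
    (i : ℝ) * gz b i j = 2 * (1 / b - 1) * gz b (i - 2) j + 2 / b * gz b (i - 1) (j - 1) := by
  rcases lt_or_ge j 0 with hj | hj
  · rw [gz_neg_right b i hj, gz_neg_right b (i - 2) hj, gz_neg_right b (i - 1) (by omega)]; ring
  rcases lt_trichotomy i 0 with hi | hi | hi
  · rw [gz_neg_left b hi, gz_neg_left b (by omega), gz_neg_left b (by omega)]; ring
  · subst hi
    rw [gz_neg_left b (by omega : (0 : ℤ) - 2 < 0), gz_neg_left b (by omega : (0 : ℤ) - 1 < 0)]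
    push_cast; ring
  · obtain ⟨l, rfl⟩ : ∃ l : ℕ, i = l := ⟨i.toNat, by omega⟩
    obtain ⟨j, rfl⟩ : ∃ j' : ℕ, j = j' := ⟨j.toNat, by omega⟩
    have hl : 1 ≤ l := by omega
    rcases Nat.eq_or_lt_of_le hl with h1 | h1
    · subst h1
      have e0 : ((1 : ℕ) : ℤ) - 1 = ((0 : ℕ) : ℤ) := by norm_num
      rw [gz_neg_left b (by norm_num : ((1 : ℕ) : ℤ) - 2 < 0), gz_nat, rec_1 hb, e0]
      have h2 := JJ_hh_deriv b 0 j
      have h3 : hh 0 * derivative (hh j) = derivative (hh j) := by simp [hh]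
      rw [h3] at h2
      rw [h2]
      push_cast; ring
    · obtain ⟨k, rfl⟩ : ∃ k : ℕ, l = k + 2 := ⟨l - 2, by omega⟩
      have e1 : ((k + 2 : ℕ) : ℤ) - 2 = k := by push_cast; ring
      have e2 : ((k + 2 : ℕ) : ℤ) - 1 = ((k + 1 : ℕ) : ℤ) := by push_cast; ring
      rw [e1, e2, gz_nat, gz_nat]
      have h2 := rec_ge2 hb k (hh j)
      rw [JJ_hh_deriv] at h2
      push_cast at h2 ⊢
      rw [h2]; ring

/-- the correlations along the antidiagonal `i + j = 2n` -/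
def TT (b : ℝ) (n : ℕ) (k : ℤ) : ℝ := gz b (n + k) (n - k)

lemma TT_neg (b : ℝ) (n : ℕ) (k : ℤ) : TT b n (-k) = TT b n k := by
  unfold TT
  rw [gz_comm]
  congr 1 <;> ring

lemma TT_rec {b : ℝ} (hb : 0 < b) (n : ℕ) (k : ℤ) :
    ((n : ℝ) + 1) * TT b (n + 1) k = (1 / b - 1) * (TT b n (k - 1) + TT b n (k + 1)) + 2 / b * TT b n k := by
  unfold TT
  have h1 := gz_rec hb ((n + 1 : ℕ) + k) ((n + 1 : ℕ) - k)
  have h2 := gz_rec hb ((n + 1 : ℕ) - k) ((n + 1 : ℕ) + k)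
  rw [gz_comm b (((n + 1 : ℕ) : ℤ) - k), gz_comm b (((n + 1 : ℕ) : ℤ) - k - 2),
    gz_comm b (((n + 1 : ℕ) : ℤ) - k - 1)] at h2
  have a1 : ((n + 1 : ℕ) : ℤ) + k - 2 = (n : ℤ) + (k - 1) := by push_cast; ring
  have a2 : ((n + 1 : ℕ) : ℤ) - k = (n : ℤ) - (k - 1) := by push_cast; ring
  have a3 : ((n + 1 : ℕ) : ℤ) + k - 1 = (n : ℤ) + k := by push_cast; ring
  have a4 : ((n + 1 : ℕ) : ℤ) - k - 1 = (n : ℤ) - k := by push_cast; ring
  have a5 : ((n + 1 : ℕ) : ℤ) - k - 2 = (n : ℤ) - (k + 1) := by push_cast; ring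
  have a6 : ((n + 1 : ℕ) : ℤ) + k = (n : ℤ) + (k + 1) := by push_cast; ring
  rw [a1, a3, a4] at h1
  rw [a3, a4, a5] at h2
  have c1 : (((((n + 1 : ℕ) : ℤ) + k : ℤ)) : ℝ) = (n : ℝ) + 1 + k := by push_cast; ring
  have c2 : (((((n + 1 : ℕ) : ℤ) - k : ℤ)) : ℝ) = (n : ℝ) + 1 - k := by push_cast; ring
  rw [c1] at h1
  rw [c2] at h2
  have h3 : gz b ((n : ℤ) + (k - 1)) (((n + 1 : ℕ) : ℤ) - k) = gz b ((n : ℤ) + (k - 1)) ((n : ℤ) - (k - 1)) := by
    rw [a2]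
  have h4 : gz b (((n + 1 : ℕ) : ℤ) + k) ((n : ℤ) - (k + 1)) = gz b ((n : ℤ) + (k + 1)) ((n : ℤ) - (k + 1)) := by
    rw [a6]
  rw [h3] at h1
  rw [h4] at h2
  linarith

lemma TT_anti {b : ℝ} (hb : 0 < b) (hb1 : b ≤ 1) : ∀ (n : ℕ) (k : ℤ), 0 ≤ k → TT b n (k + 1) ≤ TT b n k := by
  have hα : 0 ≤ 1 / b - 1 := by
    have : 1 ≤ 1 / b := by rw [le_div_iff₀ hb]; linarith
    linarith
  have hβ : 2 / b = 2 * (1 / b - 1) + 2 := by ring
  intro n
  induction n with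
  | zero =>
    intro k hk
    unfold TT
    rw [gz_neg_right b _ (by push_cast; omega)]
    rcases hk.eq_or_lt with h | h
    · rw [← h]
      have : gz b (((0 : ℕ) : ℤ) + 0) (((0 : ℕ) : ℤ) - 0) = JJ b (hh 0 * hh 0) := by
        rw [add_zero, sub_zero, gz_nat]
      rw [this]
      apply JJ_nonneg
      intro x; simp [hh]
    · rw [gz_neg_right b _ (by push_cast; omega)]
  | succ n ih =>
    intro k hk
    have h1 := TT_rec hb n k
    have h2 := TT_rec hb n (k + 1)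
    have e1 : k + 1 - 1 = k := by ring
    rw [e1] at h2
    have i1 := ih k hk
    have i2 := ih (k + 1) (by omega)
    have h3 : ((n : ℝ) + 1) * TT b (n + 1) (k + 1) ≤ ((n : ℝ) + 1) * TT b (n + 1) k := by
      rw [h1, h2]
      rcases hk.eq_or_lt with h | h
      · have e2 : TT b n (k - 1) = TT b n (k + 1) := by
          rw [← h, zero_sub, zero_add, TT_neg]
        rw [e2]
        nlinarith
      · have i3 := ih (k - 1) (by omega)
        have e3 : k - 1 + 1 = k := by ring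
        rw [e3] at i3
        nlinarith
    exact le_of_mul_le_mul_left h3 (by positivity)

lemma TT_le {b : ℝ} (hb : 0 < b) (hb1 : b ≤ 1) (n : ℕ) (k : ℤ) : TT b n k ≤ TT b n 0 := by
  have h : ∀ m : ℕ, TT b n m ≤ TT b n 0 := by
    intro m
    induction m with
    | zero => exact le_rfl
    | succ m ih =>
      have := TT_anti hb hb1 n m (by positivity)
      push_cast
      exact this.trans ih
  rcases le_total 0 k with hk | hk
  · obtain ⟨m, rfl⟩ : ∃ m : ℕ, k = m := ⟨k.toNat, by omega⟩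
    exact h m
  · obtain ⟨m, hm⟩ : ∃ m : ℕ, k = -m := ⟨(-k).toNat, by omega⟩
    rw [hm, TT_neg]
    exact h m

/-- lower bound for the weighted second moment of `hh n`, for every `n` -/
lemma JJ_hh_sq_ge {b : ℝ} (hb : 0 < b) (hb1 : b ≤ 1) (n : ℕ) :
    JJ b 1 * ((4 / b - 2) ^ n / (n.factorial : ℝ)) ≤ (2 * (n : ℝ) + 1) * JJ b (hh n * hh n) := by
  have h3 : JJ b (ss (2 * n)) = ∑ ij ∈ Finset.HasAntidiagonal.antidiagonal (2 * n), JJ b (hh ij.1 * hh ij.2) := by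
    rw [ss, JJ_sum hb]
  rw [← JJ_ss hb, h3]
  have h4 : ∀ ij ∈ Finset.HasAntidiagonal.antidiagonal (2 * n), JJ b (hh ij.1 * hh ij.2) ≤ JJ b (hh n * hh n) := by
    intro ij hij
    rw [Finset.HasAntidiagonal.mem_antidiagonal] at hij
    have h5 := TT_le hb hb1 n ((ij.1 : ℤ) - n)
    unfold TT at h5
    have e1 : (n : ℤ) + ((ij.1 : ℤ) - n) = (ij.1 : ℤ) := by ring
    have e2 : (n : ℤ) - ((ij.1 : ℤ) - n) = (ij.2 : ℤ) := by omega
    rw [e1, e2, gz_nat, add_zero, sub_zero, gz_nat] at h5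
    exact h5
  calc _ ≤ ∑ ij ∈ Finset.HasAntidiagonal.antidiagonal (2 * n), JJ b (hh n * hh n) := Finset.sum_le_sum h4
    _ = _ := by
      rw [Finset.sum_const, Finset.Nat.card_antidiagonal, nsmul_eq_mul]
      push_cast; ring

end

end Pool.Agent.Y749.VV
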