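import Mathlib

open Finset Real Set

/-! The two-point inequality behind the constant `√(2q-1)`. -/

namespace Pool.Agent.Y749.VV

noncomputable section

/-- `log((1+x)/(1-x))` is superlinear: `L(bτ) ≤ b L(τ)`. -/
lemma L_le {b τ : ℝ} (hb0 : 0 ≤ b) (hb1 : b ≤ 1) (h0 : 0 ≤ τ) (h1 : τ < 1) :
    Real.log (1 + b * τ) - Real.log (1 - b * τ) ≤ b * (Real.log (1 + τ) - Real.log (1 - τ)) := by
  have hbt0 : 0 ≤ b * τ := mul_nonneg hb0 h0
  have hbt1 : b * τ < 1 := by nlinarith
  have s1 := Real.hasSum_log_sub_log_of_abs_lt_one (x := b * τ) (by rw [abs_of_nonneg hbt0]; exact hbt1)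
  have s2 := (Real.hasSum_log_sub_log_of_abs_lt_one (x := τ) (by rw [abs_of_nonneg h0]; exact h1)).mul_left b
  refine hasSum_le ?_ s1 s2
  intro k
  have e1 : (b * τ) ^ (2 * k + 1) ≤ b * τ ^ (2 * k + 1) := by
    rw [mul_pow]
    apply mul_le_mul_of_nonneg_right _ (by positivity)
    calc b ^ (2 * k + 1) = b ^ (2 * k) * b := pow_succ _ _
      _ ≤ 1 * b := mul_le_mul_of_nonneg_right (pow_le_one₀ hb0 hb1) hb0
      _ = b := one_mul b
  have e2 : (0 : ℝ) ≤ 2 * (1 / (2 * (k : ℝ) + 1)) := by positivity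
  calc 2 * (1 / (2 * (k : ℝ) + 1)) * (b * τ) ^ (2 * k + 1)
      ≤ 2 * (1 / (2 * (k : ℝ) + 1)) * (b * τ ^ (2 * k + 1)) := mul_le_mul_of_nonneg_left e1 e2
    _ = b * (2 * (1 / (2 * (k : ℝ) + 1)) * τ ^ (2 * k + 1)) := by ring

/-- `φ(τ) = m(τ)^r + m(-τ)^r` -/
def phi (r b τ : ℝ) : ℝ := ((1 + τ) / (1 + b * τ)) ^ r + ((1 - τ) / (1 - b * τ)) ^ r

lemma hasDerivAt_phi {r b τ : ℝ} (hb0 : 0 ≤ b) (hb1 : b < 1) (h0 : 0 < τ) (h1 : τ < 1) :
    HasDerivAt (phi r b)
      ((1 - b) / (1 + b * τ) ^ 2 * r * ((1 + τ) / (1 + b * τ)) ^ (r - 1) +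
        (-(1 - b) / (1 - b * τ) ^ 2) * r * ((1 - τ) / (1 - b * τ)) ^ (r - 1)) τ := by
  have hbt0 : 0 ≤ b * τ := mul_nonneg hb0 h0.le
  have hbt1 : b * τ < 1 := by nlinarith
  have p1 : (1 + b * τ) ≠ 0 := by positivity
  have p2 : (1 - b * τ) ≠ 0 := by linarith
  have d1 : HasDerivAt (fun x : ℝ => (1 + x) / (1 + b * x)) ((1 - b) / (1 + b * τ) ^ 2) τ := by
    have a1 : HasDerivAt (fun x : ℝ => 1 + x) 1 τ := (hasDerivAt_id τ).const_add 1
    have a2 : HasDerivAt (fun x : ℝ => 1 + b * x) b τ := by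
      simpa using ((hasDerivAt_id τ).const_mul b).const_add 1
    exact (a1.fun_div a2 p1).congr_deriv (by ring)
  have d2 : HasDerivAt (fun x : ℝ => (1 - x) / (1 - b * x)) (-(1 - b) / (1 - b * τ) ^ 2) τ := by
    have a1 : HasDerivAt (fun x : ℝ => 1 - x) (-1) τ := (hasDerivAt_id τ).const_sub 1
    have a2 : HasDerivAt (fun x : ℝ => 1 - b * x) (-b) τ := by
      simpa using ((hasDerivAt_id τ).const_mul b).const_sub 1
    exact (a1.fun_div a2 p2).congr_deriv (by ring)
  have q1 : (1 + τ) / (1 + b * τ) ≠ 0 := by positivity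
  have q2 : (1 - τ) / (1 - b * τ) ≠ 0 := div_ne_zero (by linarith) p2
  exact (d1.rpow_const (Or.inl q1)).add (d2.rpow_const (Or.inl q2))

lemma continuousOn_phi {r b : ℝ} (hr : 0 ≤ r) (hb0 : 0 ≤ b) (hb1 : b < 1) :
    ContinuousOn (phi r b) (Set.Icc 0 1) := by
  unfold phi
  apply ContinuousOn.add
  · apply ContinuousOn.rpow_const
    · apply ContinuousOn.div (by fun_prop) (by fun_prop)
      intro x hx
      have : 0 ≤ b * x := mul_nonneg hb0 hx.1
      linarith
    · intro x _; exact Or.inr hr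
  · apply ContinuousOn.rpow_const
    · apply ContinuousOn.div (by fun_prop) (by fun_prop)
      intro x hx
      have : b * x ≤ b * 1 := mul_le_mul_of_nonneg_left hx.2 hb0
      have h3 : b * x < 1 := by linarith
      linarith
    · intro x _; exact Or.inr hr

lemma phi_ge {r τ : ℝ} (hr : 1 < r) (h0 : 0 ≤ τ) (h1 : τ ≤ 1) :
    2 ≤ phi r ((r - 1) / (r + 1)) τ := by
  set b := (r - 1) / (r + 1) with hb
  have hb0 : 0 ≤ b := div_nonneg (by linarith) (by linarith)
  have hb1 : b < 1 := by rw [hb, div_lt_one (by linarith)]; linarith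
  have hmono : MonotoneOn (phi r b) (Set.Icc 0 1) := by
    apply monotoneOn_of_deriv_nonneg (convex_Icc 0 1) (continuousOn_phi (by linarith) hb0 hb1)
    · intro x hx
      rw [interior_Icc] at hx
      exact (hasDerivAt_phi hb0 hb1 hx.1 hx.2).differentiableAt.differentiableWithinAt
    · intro x hx
      rw [interior_Icc] at hx
      rw [(hasDerivAt_phi hb0 hb1 hx.1 hx.2).deriv]
      obtain ⟨hx0, hx1⟩ := hx
      have hbt0 : 0 ≤ b * x := mul_nonneg hb0 hx0.le
      have hbt1 : b * x < 1 := by nlinarith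
      have p1 : 0 < (1 + b * x) := by positivity
      have p2 : 0 < (1 - b * x) := by linarith
      have q1 : 0 < (1 + x) / (1 + b * x) := by positivity
      have q2 : 0 < (1 - x) / (1 - b * x) := div_pos (by linarith) p2
      have key : ((1 - x) / (1 - b * x)) ^ (r - 1) / (1 - b * x) ^ 2 ≤
          ((1 + x) / (1 + b * x)) ^ (r - 1) / (1 + b * x) ^ 2 := by
        rw [← Real.log_le_log_iff (by positivity) (by positivity)]
        rw [Real.log_div (by positivity) (by positivity), Real.log_div (by positivity) (by positivity),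
          Real.log_rpow q2, Real.log_rpow q1, Real.log_pow, Real.log_pow,
          Real.log_div (by linarith) p2.ne', Real.log_div (by linarith) p1.ne']
        have hL := L_le hb0 hb1.le hx0.le hx1
        have hb' : b * (r + 1) = r - 1 := by
          rw [hb]; field_simp
        have hL2 := mul_le_mul_of_nonneg_left hL (by linarith : (0:ℝ) ≤ r + 1)
        have e : (r + 1) * (b * (Real.log (1 + x) - Real.log (1 - x))) =
            (r - 1) * (Real.log (1 + x) - Real.log (1 - x)) := by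
          rw [← hb']; ring
        rw [e] at hL2
        push_cast
        linarith
      have e3 : (1 - b) / (1 + b * x) ^ 2 * r * ((1 + x) / (1 + b * x)) ^ (r - 1) +
        (-(1 - b) / (1 - b * x) ^ 2) * r * ((1 - x) / (1 - b * x)) ^ (r - 1) =
          (1 - b) * r * (((1 + x) / (1 + b * x)) ^ (r - 1) / (1 + b * x) ^ 2 -
            ((1 - x) / (1 - b * x)) ^ (r - 1) / (1 - b * x) ^ 2) := by ring
      rw [e3]
      apply mul_nonneg
      · exact mul_nonneg (by linarith) (by linarith)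
      · linarith
  have h2 := hmono (left_mem_Icc.2 zero_le_one) ⟨h0, h1⟩ h0
  have h3 : phi r b 0 = 2 := by unfold phi; norm_num
  linarith

/-- the coefficient sum -/
lemma cc_ge {q τ : ℝ} (hq : 1 < q) (h0 : 0 ≤ τ) (h1 : τ ≤ 1) :
    2 ^ (1 - q / (q - 1)) ≤ ((1 + τ) / (1 + 1 / (2 * q - 1) * τ) / 2) ^ (q / (q - 1)) +
      ((1 - τ) / (1 - 1 / (2 * q - 1) * τ) / 2) ^ (q / (q - 1)) := by
  have hq1 : 0 < q - 1 := by linarith
  set r := q / (q - 1) with hr
  have hr1 : 1 < r := by rw [hr, one_lt_div hq1]; linarith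
  have hb : 1 / (2 * q - 1) = (r - 1) / (r + 1) := by
    have h2q : (2 * q - 1) ≠ 0 := by linarith
    have e1 : r - 1 = 1 / (q - 1) := by rw [hr]; field_simp; ring
    have e2 : r + 1 = (2 * q - 1) / (q - 1) := by rw [hr]; field_simp; ring
    rw [e1, e2]
    field_simp
  have hb0 : 0 ≤ 1 / (2 * q - 1) := by
    apply div_nonneg <;> linarith
  have hb1 : 1 / (2 * q - 1) < 1 := by rw [div_lt_one (by linarith)]; linarith
  have h := phi_ge hr1 h0 h1
  rw [← hb] at h
  unfold phi at h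
  have hbt0 : 0 ≤ 1 / (2 * q - 1) * τ := mul_nonneg hb0 h0
  have hbt1 : 1 / (2 * q - 1) * τ < 1 := by nlinarith
  rw [Real.div_rpow (div_nonneg (by linarith) (by linarith)) (by norm_num),
    Real.div_rpow (div_nonneg (by linarith) (by linarith)) (by norm_num), ← add_div,
    Real.rpow_sub (by norm_num), Real.rpow_one]
  exact div_le_div_of_nonneg_right h (by positivity)

/-- The two-point scalar lemma. -/
lemma scalar_lemma {q : ℝ} (hq : 1 < q) {A B R : ℝ} (hA : 0 ≤ A) (hB : 0 ≤ B)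
    (h : ∀ τ : ℝ, 0 ≤ τ → τ ≤ 1 → (1 + τ) / (1 + 1 / (2 * q - 1) * τ) / 2 * A +
      (1 - τ) / (1 - 1 / (2 * q - 1) * τ) / 2 * B ≤ R)
    (hAB : B ≤ A) : (A ^ q + B ^ q) / 2 ≤ R ^ q := by
  have hq1 : 0 < q - 1 := by linarith
  have hq0 : 0 < q := by linarith
  set b := 1 / (2 * q - 1) with hbdef
  have hb0 : 0 ≤ b := by
    apply div_nonneg <;> linarith
  have hb1 : b < 1 := by rw [hbdef, div_lt_one (by linarith)]; linarith
  have hR0 : 0 ≤ R := by
    have := h 0 le_rfl zero_le_one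
    norm_num at this
    linarith
  rcases hA.eq_or_lt with hA0 | hA0
  · have hB0 : B = 0 := by linarith
    rw [← hA0, hB0, Real.zero_rpow hq0.ne']
    norm_num
    exact Real.rpow_nonneg hR0 _
  set A' := A ^ (q - 1) with hA'
  set B' := B ^ (q - 1) with hB'
  have hA'0 : 0 < A' := Real.rpow_pos_of_pos hA0 _
  have hB'0 : 0 ≤ B' := Real.rpow_nonneg hB _
  have hAB' : B' ≤ A' := Real.rpow_le_rpow hB hAB hq1.le
  have hex : ∃ τ : ℝ, 0 ≤ τ ∧ τ ≤ 1 ∧ (1 - τ) / (1 - b * τ) / 2 * A' = (1 + τ) / (1 + b * τ) / 2 * B' := by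
    let φ : ℝ → ℝ := fun τ => (1 - τ) / (1 - b * τ) / 2 * A' - (1 + τ) / (1 + b * τ) / 2 * B'
    have hc : ContinuousOn φ (Set.Icc 0 1) := by
      apply ContinuousOn.sub
      · apply ContinuousOn.mul _ continuousOn_const
        apply ContinuousOn.div_const
        apply ContinuousOn.div (by fun_prop) (by fun_prop)
        intro x hx
        have : b * x ≤ b * 1 := mul_le_mul_of_nonneg_left hx.2 hb0
        have h3 : b * x < 1 := by linarith
        linarith
      · apply ContinuousOn.mul _ continuousOn_const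
        apply ContinuousOn.div_const
        apply ContinuousOn.div (by fun_prop) (by fun_prop)
        intro x hx
        have : 0 ≤ b * x := mul_nonneg hb0 hx.1
        linarith
    have h2 := intermediate_value_Icc' (zero_le_one) hc
    have h3 : (0 : ℝ) ∈ Set.Icc (φ 1) (φ 0) := by
      constructor
      · simp only [φ]
        have : 0 ≤ (1 + 1) / (1 + b * 1) / 2 * B' := by positivity
        simp only [sub_self, zero_div, zero_mul, zero_sub]
        linarith
      · simp only [φ]; norm_num; linarith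
    obtain ⟨τ, hτ, he⟩ := h2 h3
    refine ⟨τ, hτ.1, hτ.2, ?_⟩
    simp only [φ] at he
    linarith
  obtain ⟨τ, h0, h1, he⟩ := hex
  have h2 := h τ h0 h1
  have hcc := cc_ge hq h0 h1
  rw [← hbdef] at hcc
  have hbt0 : 0 ≤ b * τ := mul_nonneg hb0 h0
  have hbt1 : b * τ < 1 := by nlinarith
  set cp := (1 + τ) / (1 + b * τ) / 2 with hcp
  set cm := (1 - τ) / (1 - b * τ) / 2 with hcm
  have hcp0 : 0 < cp := by rw [hcp]; positivity
  have hcm0 : 0 ≤ cm := by
    rw [hcm]; apply div_nonneg _ (by norm_num); apply div_nonneg <;> linarith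
  set l := cp / A' with hl
  have hl0 : 0 < l := div_pos hcp0 hA'0
  have el1 : cp = l * A' := by rw [hl]; field_simp
  have el2 : cm = l * B' := by rw [hl]; field_simp; linarith
  have hAA : A' * A = A ^ q := by
    rw [hA', ← Real.rpow_add_one hA0.ne']; congr 1; ring
  have hBB : B' * B = B ^ q := by
    rcases hB.eq_or_lt with hb | hb
    · rw [← hb, mul_zero, Real.zero_rpow hq0.ne']
    · rw [hB', ← Real.rpow_add_one hb.ne']; congr 1; ring
  set S := A ^ q + B ^ q with hS
  have hS0 : 0 < S := by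
    have := Real.rpow_pos_of_pos hA0 q
    have := Real.rpow_nonneg hB q
    linarith
  have h3 : l * S ≤ R := by
    calc l * S = cp * A + cm * B := by rw [el1, el2, hS, ← hAA, ← hBB]; ring
      _ ≤ R := h2
  have h4 : (l * S) ^ q ≤ R ^ q := Real.rpow_le_rpow (by positivity) h3 hq0.le
  have eA : A' ^ (q / (q - 1)) = A ^ q := by
    rw [hA', ← Real.rpow_mul hA]; congr 1; field_simp
  have eB : B' ^ (q / (q - 1)) = B ^ q := by
    rw [hB', ← Real.rpow_mul hB]; congr 1; field_simp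
  rw [el1, el2, Real.mul_rpow hl0.le hA'0.le, Real.mul_rpow hl0.le hB'0, eA, eB, ← mul_add, ← hS] at hcc
  have h5 := Real.rpow_le_rpow (by positivity) hcc hq1.le
  rw [← Real.rpow_mul (by norm_num), Real.mul_rpow (by positivity) hS0.le, ← Real.rpow_mul hl0.le] at h5
  have e5 : (1 - q / (q - 1)) * (q - 1) = -1 := by field_simp; ring
  have e6 : q / (q - 1) * (q - 1) = q := by field_simp
  rw [e5, e6, Real.rpow_neg_one] at h5
  have h6 : S / 2 ≤ (l * S) ^ q := by
    rw [Real.mul_rpow hl0.le hS0.le]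
    have e7 : S ^ q = S ^ (q - 1) * S := by
      rw [← Real.rpow_add_one hS0.ne']; congr 1; ring
    rw [e7, ← mul_assoc]
    calc S / 2 = 2⁻¹ * S := by ring
      _ ≤ _ := mul_le_mul_of_nonneg_right h5 hS0.le
  exact h6.trans h4

end

end Pool.Agent.Y749.VV
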