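import Mathlib
import Pool.Agent.Helper228.HC.Upper2

open Complex Metric Finset Real

/-! Banach-space-valued version, with a general parameter `a ∈ (0,1)`, of the disc-algebra induction
of `Pool.Agent.Helper228.HC.Upper`. -/

namespace Pool.Agent.Y749.VV

open Pool.Agent.Helper228.HC (AA AA_id AA_const one_add_ne one_sub_ne normSq_add_real normSq_one_add
  norm_mob_le norm_mob_eq mem_cl AA.mul AA.add' AA.sub' AA.inv' AA.div' AA.pow' sum_cons)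

noncomputable section

variable {E : Type*} [NormedAddCommGroup E] [NormedSpace ℂ E]

/-- The Möbius map of the disc sending `0` to `a`. -/
def sg (a : ℝ) (z : ℂ) : ℂ := (z + a) / (1 + a * z)

/-- The vector-valued disc algebra. -/
abbrev AE (h : ℂ → E) : Prop := DiffContOnCl ℂ h (ball 0 1)

lemma AE_const (c : E) : AE (fun _ => c) := diffContOnCl_const

lemma AE_smul {f : ℂ → ℂ} {g : ℂ → E} (hf : AA f) (hg : AE g) : AE (fun z => f z • g z) :=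
  DiffContOnCl.smul hf hg

lemma AE_add {f g : ℂ → E} (hf : AE f) (hg : AE g) : AE (fun z => f z + g z) :=
  DiffContOnCl.add hf hg

lemma AE_sub {f g : ℂ → E} (hf : AE f) (hg : AE g) : AE (fun z => f z - g z) :=
  DiffContOnCl.sub hf hg

lemma sg_zero (a : ℝ) : sg a 0 = a := by simp [sg]

lemma norm_sg_le {a : ℝ} (ha0 : 0 ≤ a) (ha : a < 1) {z : ℂ} (hz : ‖z‖ ≤ 1) : ‖sg a z‖ ≤ 1 := by
  unfold sg
  rw [norm_div]
  have h := norm_mob_le ha0 ha hz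
  have h0 : 0 < ‖1 + (a : ℂ) * z‖ := norm_pos_iff.2 (one_add_ne ha0 ha hz)
  rw [div_le_one h0]; exact h

lemma norm_sg_eq {a : ℝ} (ha0 : 0 ≤ a) (ha : a < 1) {z : ℂ} (hz : ‖z‖ = 1) : ‖sg a z‖ = 1 := by
  unfold sg
  rw [norm_div]
  have h := norm_mob_eq (q := a) hz
  have h0 : 0 < ‖1 + (a : ℂ) * z‖ := norm_pos_iff.2 (one_add_ne ha0 ha hz.le)
  rw [h, div_self h0.ne']

lemma AA_sg {a : ℝ} (ha0 : 0 ≤ a) (ha : a < 1) : AA (sg a) := by
  unfold sg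
  apply AA.div'
  · exact AA_id.add' (AA_const _)
  · exact (AA_const _).add' ((AA_const _).mul AA_id)
  · intro z hz
    exact one_add_ne ha0 ha hz

/-- Multilinear families in the variables `x_i = ω_i σ(z)` with coefficients in the disc algebra. -/
def Fam (a : ℝ) : (n : ℕ) → ((Fin n → ℤˣ) → ℂ → E) → Prop
  | 0, H => ∀ ω, AE (H ω)
  | n + 1, H => ∃ G0 G1 : (Fin n → ℤˣ) → ℂ → E, Fam a n G0 ∧ Fam a n G1 ∧
      ∀ (ε : ℤˣ) (ω : Fin n → ℤˣ) (z : ℂ),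
        H (Fin.cons ε ω) z = G0 ω z + (((ε : ℤ) : ℂ) * sg a z) • G1 ω z

lemma Fam.comb {a : ℝ} : ∀ (n : ℕ) {G G' : (Fin n → ℤˣ) → ℂ → E} {α β : ℂ → ℂ}, AA α → AA β →
    Fam a n G → Fam a n G' → Fam a n (fun ω z => α z • G ω z + β z • G' ω z)
  | 0, G, G', α, β, hα, hβ, hG, hG' => by
    intro ω
    exact AE_add (AE_smul hα (hG ω)) (AE_smul hβ (hG' ω))
  | n + 1, G, G', α, β, hα, hβ, hG, hG' => by
    obtain ⟨G0, G1, h0, h1, h⟩ := hG
    obtain ⟨G0', G1', h0', h1', h'⟩ := hG'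
    refine ⟨fun ω z => α z • G0 ω z + β z • G0' ω z, fun ω z => α z • G1 ω z + β z • G1' ω z,
      Fam.comb n hα hβ h0 h0', Fam.comb n hα hβ h1 h1', ?_⟩
    intro ε ω z
    simp only [h, h']
    module

lemma Fam.aa {a : ℝ} (ha0 : 0 ≤ a) (ha : a < 1) : ∀ (n : ℕ) {G : (Fin n → ℤˣ) → ℂ → E},
    Fam a n G → ∀ ω, AE (G ω)
  | 0, G, hG => hG
  | n + 1, G, hG => by
    obtain ⟨G0, G1, h0, h1, h⟩ := hG
    intro ω
    have h2 : G ω = fun z => G0 (Fin.tail ω) z + ((((ω 0 : ℤˣ) : ℤ) : ℂ) * sg a z) • G1 (Fin.tail ω) z := by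
      funext z
      rw [← h, Fin.cons_self_tail]
    rw [h2]
    exact AE_add (Fam.aa ha0 ha n h0 _) (AE_smul ((AA_const _).mul (AA_sg ha0 ha)) (Fam.aa ha0 ha n h1 _))

def N1 (n : ℕ) (H : (Fin n → ℤˣ) → ℂ → E) (z : ℂ) : ℝ := (∑ ω, ‖H ω z‖) / 2 ^ n

/-- the `q`-th moment at `0` -/
def MQ (q : ℝ) (n : ℕ) (H : (Fin n → ℤˣ) → ℂ → E) : ℝ := (∑ ω, ‖H ω 0‖ ^ q) / 2 ^ n

/-- the `L^q` norm at `0` -/
def NQ (q : ℝ) (n : ℕ) (H : (Fin n → ℤˣ) → ℂ → E) : ℝ := (MQ q n H) ^ (1 / q)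

lemma MQ_nonneg (q : ℝ) (n : ℕ) (H : (Fin n → ℤˣ) → ℂ → E) : 0 ≤ MQ q n H := by
  unfold MQ
  exact div_nonneg (Finset.sum_nonneg fun _ _ => Real.rpow_nonneg (norm_nonneg _) _) (by positivity)

lemma NQ_nonneg (q : ℝ) (n : ℕ) (H : (Fin n → ℤˣ) → ℂ → E) : 0 ≤ NQ q n H :=
  Real.rpow_nonneg (MQ_nonneg _ _ _) _

lemma NQ_rpow {q : ℝ} (hq : 0 < q) (n : ℕ) (H : (Fin n → ℤˣ) → ℂ → E) : NQ q n H ^ q = MQ q n H := by
  unfold NQ
  rw [← Real.rpow_mul (MQ_nonneg _ _ _), one_div_mul_cancel hq.ne', Real.rpow_one]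

lemma N1_nonneg (n : ℕ) (H : (Fin n → ℤˣ) → ℂ → E) (z : ℂ) : 0 ≤ N1 n H z := by
  unfold N1; positivity

lemma N1_continuousOn {n : ℕ} {H : (Fin n → ℤˣ) → ℂ → E} (h : ∀ ω, AE (H ω)) :
    ContinuousOn (N1 n H) (sphere 0 |(1:ℝ)|) := by
  unfold N1
  apply ContinuousOn.div_const
  apply continuousOn_finsetSum
  intro ω _
  apply ContinuousOn.norm
  apply (h ω).continuousOn_ball.mono
  rw [abs_one]
  exact sphere_subset_closedBall

lemma N1_integrable {n : ℕ} {H : (Fin n → ℤˣ) → ℂ → E} (h : ∀ ω, AE (H ω)) :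
    CircleIntegrable (N1 n H) 0 1 := by
  apply ContinuousOn.circleIntegrable'
  exact N1_continuousOn h

lemma NQ_zero_le [CompleteSpace E] {q : ℝ} (hq : 0 < q) {H : (Fin 0 → ℤˣ) → ℂ → E} (h : ∀ ω, AE (H ω)) :
    NQ q 0 H ≤ circleAverage (N1 0 H) 0 1 := by
  have h1 : NQ q 0 H = ‖H default 0‖ := by
    unfold NQ MQ
    rw [Fintype.sum_unique, pow_zero, div_one, ← Real.rpow_mul (norm_nonneg _),
      mul_one_div_cancel hq.ne', Real.rpow_one]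
    congr 2
    exact Subsingleton.elim _ _
  have h2 : N1 0 H = fun z => ‖H default z‖ := by
    funext z
    unfold N1
    rw [Fintype.sum_unique, pow_zero, div_one]
    congr 2
    exact Subsingleton.elim _ _
  rw [h1, h2]
  have h3 : circleAverage (H default) 0 1 = H default 0 := by
    apply DiffContOnCl.circleAverage
    rw [abs_one]
    exact h default
  rw [← h3]
  unfold circleAverage
  rw [norm_smul]
  have h4 : ‖∫ (θ : ℝ) in 0..2 * π, H default (circleMap 0 1 θ)‖ ≤ ∫ (θ : ℝ) in 0..2 * π, ‖H default (circleMap 0 1 θ)‖ := by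
    apply intervalIntegral.norm_integral_le_integral_norm
    positivity
  rw [smul_eq_mul, Real.norm_of_nonneg (by positivity)]
  exact mul_le_mul_of_nonneg_left h4 (by positivity)

def rho (a τ : ℝ) (s : ℂ) : ℂ := ((1 - τ) * (1 - a ^ 2 * τ) : ℝ) / (1 - (a * τ : ℝ) * s) ^ 2

def KU (a τ : ℝ) (s : ℂ) : ℂ := (s + (a * τ : ℝ)) / (1 + (a * τ : ℝ) * s)

def KW (a τ : ℝ) (s : ℂ) : ℂ := (τ : ℂ) * (1 - a * s) * (s - a) / (1 - (a * τ : ℝ) * s) ^ 2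

/-- `(KU + KW) / s` -/
def MM (a τ : ℝ) (s : ℂ) : ℂ :=
  (((1 + (1 + a ^ 2) * τ - 3 * a ^ 2 * τ ^ 2 : ℝ) : ℂ) +
    ((a * τ) * (a ^ 2 * τ ^ 2 + (1 + a ^ 2) * τ - 3) : ℝ) * s) /
    ((1 + (a * τ : ℝ) * s) * (1 - (a * τ : ℝ) * s) ^ 2)

lemma qt {a τ : ℝ} (ha0 : 0 ≤ a) (ha : a < 1) (h0 : 0 ≤ τ) (h1 : τ ≤ 1) : 0 ≤ a * τ ∧ a * τ < 1 := by
  constructor
  · exact mul_nonneg ha0 h0
  · nlinarith

lemma s_mul_MM {a τ : ℝ} (ha0 : 0 ≤ a) (ha : a < 1) (h0 : 0 ≤ τ) (h1 : τ ≤ 1) {s : ℂ} (hs : ‖s‖ ≤ 1) :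
    s * MM a τ s = KU a τ s + KW a τ s := by
  unfold MM KU KW
  have e1 := one_add_ne (qt ha0 ha h0 h1).1 (qt ha0 ha h0 h1).2 hs
  have e2 := one_sub_ne (qt ha0 ha h0 h1).1 (qt ha0 ha h0 h1).2 hs
  rw [mul_div_assoc', div_add_div _ _ e1 (pow_ne_zero 2 e2)]
  congr 1
  push_cast
  ring

lemma KW_aa (a τ : ℝ) : KW a τ a = 0 := by
  unfold KW; simp

lemma KU_aa {a τ : ℝ} (h0 : 0 ≤ τ) : KU a τ a = ((a * ((1 + τ) / (1 + a ^ 2 * τ)) : ℝ) : ℂ) := by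
  unfold KU
  rw [← Complex.ofReal_add, ← Complex.ofReal_mul, ← Complex.ofReal_one, ← Complex.ofReal_add,
    ← Complex.ofReal_div]
  congr 1
  have h1 : a * τ * a = a ^ 2 * τ := by ring
  rw [h1]
  have : (0 : ℝ) < 1 + a ^ 2 * τ := by positivity
  field_simp

lemma rho_aa {a τ : ℝ} (ha0 : 0 ≤ a) (ha : a < 1) (h0 : 0 ≤ τ) (h1 : τ ≤ 1) :
    rho a τ a = (((1 - τ) / (1 - a ^ 2 * τ) : ℝ) : ℂ) := by
  unfold rho
  rw [← Complex.ofReal_mul, ← Complex.ofReal_one, ← Complex.ofReal_sub, ← Complex.ofReal_pow,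
    ← Complex.ofReal_div]
  congr 1
  have h2 : a * τ * a = a ^ 2 * τ := by ring
  rw [h2]
  have h3 : a ^ 2 < 1 := by nlinarith
  have : (1 - a ^ 2 * τ) ≠ 0 := by nlinarith [sq_nonneg a]
  field_simp

lemma norm_KU {a τ : ℝ} (ha0 : 0 ≤ a) (ha : a < 1) (h0 : 0 ≤ τ) (h1 : τ ≤ 1) {s : ℂ} (hs : ‖s‖ = 1) :
    ‖KU a τ s‖ = 1 := by
  unfold KU
  rw [norm_div, norm_mob_eq hs, div_self]
  exact (norm_pos_iff.2 (one_add_ne (qt ha0 ha h0 h1).1 (qt ha0 ha h0 h1).2 hs.le)).ne'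

lemma norm_KW_add_rho {a τ : ℝ} (ha0 : 0 ≤ a) (ha : a < 1) (h0 : 0 ≤ τ) (h1 : τ ≤ 1) {s : ℂ}
    (hs : ‖s‖ = 1) : ‖KW a τ s‖ + ‖rho a τ s‖ = 1 := by
  unfold KW rho
  have e2 := one_sub_ne (qt ha0 ha h0 h1).1 (qt ha0 ha h0 h1).2 hs.le
  rw [norm_div, norm_div, norm_mul, norm_mul, norm_pow, ← add_div]
  have n1 : ‖s - (a : ℂ)‖ = ‖1 - (a : ℂ) * s‖ := by
    have := norm_mob_eq (q := -a) hs
    simpa [sub_eq_add_neg] using this
  have n2 : ‖1 - (a : ℂ) * s‖ ^ 2 = 1 - 2 * a * s.re + a ^ 2 := by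
    have := normSq_one_add (-a) s
    rw [hs] at this
    have h3 : 1 - (a : ℂ) * s = 1 + ((-a : ℝ) : ℂ) * s := by push_cast; ring
    rw [h3, this]; ring
  have n3 : ‖1 - ((a * τ : ℝ) : ℂ) * s‖ ^ 2 = 1 - 2 * (a * τ) * s.re + (a * τ) ^ 2 := by
    have := normSq_one_add (-(a * τ)) s
    rw [hs] at this
    have h3 : 1 - ((a * τ : ℝ) : ℂ) * s = 1 + ((-(a * τ) : ℝ) : ℂ) * s := by push_cast; ring
    rw [h3, this]; ring
  have n4 : 0 < ‖1 - ((a * τ : ℝ) : ℂ) * s‖ ^ 2 := by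
    have := norm_pos_iff.2 e2
    positivity
  have h3 : a ^ 2 < 1 := by nlinarith
  have h4 : 0 ≤ 1 - a ^ 2 * τ := by nlinarith [sq_nonneg a]
  rw [div_eq_one_iff_eq n4.ne', n3, n1, mul_assoc, ← pow_two, n2, Complex.norm_real, Complex.norm_real,
    Real.norm_of_nonneg h0, Real.norm_of_nonneg (mul_nonneg (by linarith) h4)]
  ring

lemma AA_rho {a τ : ℝ} (ha0 : 0 ≤ a) (ha : a < 1) (h0 : 0 ≤ τ) (h1 : τ ≤ 1) :
    AA (fun z => rho a τ (sg a z)) := by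
  unfold rho
  apply AA.div' (AA_const _)
  · exact ((AA_const _).sub' ((AA_const _).mul (AA_sg ha0 ha))).pow' 2
  · intro z hz
    exact pow_ne_zero 2 (one_sub_ne (qt ha0 ha h0 h1).1 (qt ha0 ha h0 h1).2 (norm_sg_le ha0 ha hz))

lemma AA_KU {a τ : ℝ} (ha0 : 0 ≤ a) (ha : a < 1) (h0 : 0 ≤ τ) (h1 : τ ≤ 1) :
    AA (fun z => KU a τ (sg a z)) := by
  unfold KU
  apply AA.div'
  · exact (AA_sg ha0 ha).add' (AA_const _)
  · exact (AA_const _).add' ((AA_const _).mul (AA_sg ha0 ha))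
  · intro z hz
    exact one_add_ne (qt ha0 ha h0 h1).1 (qt ha0 ha h0 h1).2 (norm_sg_le ha0 ha hz)

lemma AA_KW {a τ : ℝ} (ha0 : 0 ≤ a) (ha : a < 1) (h0 : 0 ≤ τ) (h1 : τ ≤ 1) :
    AA (fun z => KW a τ (sg a z)) := by
  unfold KW
  apply AA.div'
  · exact ((AA_const _).mul ((AA_const _).sub' ((AA_const _).mul (AA_sg ha0 ha)))).mul
      ((AA_sg ha0 ha).sub' (AA_const _))
  · exact ((AA_const _).sub' ((AA_const _).mul (AA_sg ha0 ha))).pow' 2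
  · intro z hz
    exact pow_ne_zero 2 (one_sub_ne (qt ha0 ha h0 h1).1 (qt ha0 ha h0 h1).2 (norm_sg_le ha0 ha hz))

lemma AA_MM {a τ : ℝ} (ha0 : 0 ≤ a) (ha : a < 1) (h0 : 0 ≤ τ) (h1 : τ ≤ 1) :
    AA (fun z => MM a τ (sg a z)) := by
  unfold MM
  apply AA.div'
  · exact (AA_const _).add' ((AA_const _).mul (AA_sg ha0 ha))
  · exact ((AA_const _).add' ((AA_const _).mul (AA_sg ha0 ha))).mul
      (((AA_const _).sub' ((AA_const _).mul (AA_sg ha0 ha))).pow' 2)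
  · intro z hz
    exact mul_ne_zero (one_add_ne (qt ha0 ha h0 h1).1 (qt ha0 ha h0 h1).2 (norm_sg_le ha0 ha hz))
      (pow_ne_zero 2 (one_sub_ne (qt ha0 ha h0 h1).1 (qt ha0 ha h0 h1).2 (norm_sg_le ha0 ha hz)))

lemma NQ_smul {q : ℝ} (hq : 0 < q) {n : ℕ} {H H' : (Fin n → ℤˣ) → ℂ → E} {c : ℝ} (hc : 0 ≤ c)
    (h : ∀ ω, ‖H' ω 0‖ = c * ‖H ω 0‖) : NQ q n H' = c * NQ q n H := by
  unfold NQ
  have : MQ q n H' = c ^ q * MQ q n H := by
    unfold MQ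
    rw [mul_div_assoc', Finset.mul_sum]
    congr 1
    apply Finset.sum_congr rfl
    intro ω _
    rw [h, Real.mul_rpow hc (norm_nonneg _)]
  rw [this, Real.mul_rpow (Real.rpow_nonneg hc _) (MQ_nonneg _ _ _), ← Real.rpow_mul hc,
    mul_one_div_cancel hq.ne', Real.rpow_one]

/-- The key inequality for fixed `τ`. -/
lemma key_step {a : ℝ} (ha0 : 0 < a) (ha : a < 1) {q : ℝ} (hq : 0 < q) {n : ℕ}
    (IH : ∀ H : (Fin n → ℤˣ) → ℂ → E, Fam a n H → NQ q n H ≤ circleAverage (N1 n H) 0 1)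
    {G0 G1 : (Fin n → ℤˣ) → ℂ → E} (h0 : Fam a n G0) (h1 : Fam a n G1) {τ : ℝ} (ht0 : 0 ≤ τ) (ht1 : τ ≤ 1) :
    (1 + τ) / (1 + a ^ 2 * τ) / 2 * NQ q n (fun ω z => G0 ω z + sg a z • G1 ω z) +
      (1 - τ) / (1 - a ^ 2 * τ) / 2 * NQ q n (fun ω z => G0 ω z - sg a z • G1 ω z) ≤
    circleAverage (fun z => (N1 n (fun ω z => G0 ω z + sg a z • G1 ω z) z +
      N1 n (fun ω z => G0 ω z - sg a z • G1 ω z) z) / 2) 0 1 := by
  set U : (Fin n → ℤˣ) → ℂ → E := fun ω z => G0 ω z + sg a z • G1 ω z with hU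
  set W : (Fin n → ℤˣ) → ℂ → E := fun ω z => G0 ω z - sg a z • G1 ω z with hW
  have hb : 0 < 1 - a ^ 2 * τ := by nlinarith [sq_nonneg a]
  let Hm : (Fin n → ℤˣ) → ℂ → E := fun ω z => (1 / 2 * rho a τ (sg a z)) • G0 ω z +
    (-(1 / 2) * rho a τ (sg a z) * sg a z) • G1 ω z
  have FHm : Fam a n Hm := Fam.comb n ((AA_const _).mul (AA_rho ha0.le ha ht0 ht1))
    (((AA_const _).mul (AA_rho ha0.le ha ht0 ht1)).mul (AA_sg ha0.le ha)) h0 h1
  let Hz : (Fin n → ℤˣ) → ℂ → E := fun ω z => (1 / 2 * MM a τ (sg a z)) • G0 ω z +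
    (1 / 2 * (KU a τ (sg a z) - KW a τ (sg a z))) • G1 ω z
  have FHz : Fam a n Hz := Fam.comb n ((AA_const _).mul (AA_MM ha0.le ha ht0 ht1))
    ((AA_const _).mul ((AA_KU ha0.le ha ht0 ht1).sub' (AA_KW ha0.le ha ht0 ht1))) h0 h1
  have I1 := IH Hm FHm
  have I2 := IH Hz FHz
  have e1 : ∀ ω z, Hm ω z = (1 / 2 * rho a τ (sg a z)) • W ω z := by
    intro ω z; simp only [Hm, hW]; module
  have e2 : ∀ ω z, ‖z‖ ≤ 1 → sg a z • Hz ω z =
      (1 / 2 : ℂ) • (KU a τ (sg a z) • U ω z + KW a τ (sg a z) • W ω z) := by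
    intro ω z hz
    have := s_mul_MM ha0.le ha ht0 ht1 (norm_sg_le ha0.le ha hz)
    simp only [Hz, hU, hW]
    have e3 : sg a z • ((1 / 2 * MM a τ (sg a z)) • G0 ω z + (1 / 2 * (KU a τ (sg a z) - KW a τ (sg a z))) • G1 ω z) =
        (1 / 2 * (sg a z * MM a τ (sg a z))) • G0 ω z +
          (1 / 2 * (sg a z * (KU a τ (sg a z) - KW a τ (sg a z)))) • G1 ω z := by module
    rw [e3, this]
    module
  have V1 : NQ q n Hm = (1 - τ) / (1 - a ^ 2 * τ) / 2 * NQ q n W := by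
    apply NQ_smul hq
    · apply div_nonneg _ (by norm_num)
      apply div_nonneg <;> linarith
    · intro ω
      have h4 : ‖(1 / 2 : ℂ)‖ = 1 / 2 := by norm_num
      rw [e1, norm_smul, norm_mul, sg_zero, rho_aa ha0.le ha ht0 ht1, Complex.norm_real, Real.norm_of_nonneg, h4]
      · ring
      · apply div_nonneg <;> linarith
  have V2 : NQ q n Hz = (1 + τ) / (1 + a ^ 2 * τ) / 2 * NQ q n U := by
    apply NQ_smul hq
    · positivity
    · intro ω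
      have := e2 ω 0 (by simp)
      rw [sg_zero, KW_aa, KU_aa ht0] at this
      have h3 : ‖(a : ℂ) • Hz ω 0‖ = ‖(1 / 2 : ℂ) • ((((a * ((1 + τ) / (1 + a ^ 2 * τ)) : ℝ) : ℂ)) • U ω 0 + (0 : ℂ) • W ω 0)‖ := by
        rw [this]
      rw [norm_smul, norm_smul, zero_smul, add_zero, norm_smul, Complex.norm_real, Complex.norm_real,
        Real.norm_of_nonneg ha0.le, Real.norm_of_nonneg (mul_nonneg ha0.le (by positivity))] at h3
      have h4 : ‖(1 / 2 : ℂ)‖ = 1 / 2 := by norm_num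
      rw [h4] at h3
      have h5 : a * ‖Hz ω 0‖ = a * ((1 + τ) / (1 + a ^ 2 * τ) / 2 * ‖U ω 0‖) := by rw [h3]; ring
      exact mul_left_cancel₀ ha0.ne' h5
  have FU : ∀ ω, AE (U ω) := fun ω => AE_add (h0.aa ha0.le ha n ω) (AE_smul (AA_sg ha0.le ha) (h1.aa ha0.le ha n ω))
  have FW : ∀ ω, AE (W ω) := fun ω => AE_sub (h0.aa ha0.le ha n ω) (AE_smul (AA_sg ha0.le ha) (h1.aa ha0.le ha n ω))
  rw [V1] at I1
  rw [V2] at I2
  have I3 : circleAverage (N1 n Hz) 0 1 + circleAverage (N1 n Hm) 0 1 ≤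
      circleAverage (fun z => (N1 n U z + N1 n W z) / 2) 0 1 := by
    rw [← circleAverage_add (N1_integrable (FHz.aa ha0.le ha n)) (N1_integrable (FHm.aa ha0.le ha n))]
    apply circleAverage_mono
    · exact (N1_integrable (FHz.aa ha0.le ha n)).add (N1_integrable (FHm.aa ha0.le ha n))
    · have := ((N1_integrable FU).add (N1_integrable FW))
      have := this.const_fun_smul (a := (1/2 : ℝ))
      simpa [div_eq_inv_mul] using this
    · intro z hz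
      have hz1 : ‖z‖ = 1 := by simpa using hz
      simp only [Pi.add_apply]
      unfold N1
      rw [← add_div, ← add_div, ← Finset.sum_add_distrib, ← Finset.sum_add_distrib, div_right_comm]
      apply div_le_div_of_nonneg_right _ (by positivity)
      rw [Finset.sum_div]
      apply Finset.sum_le_sum
      intro ω _
      have hs := norm_sg_eq ha0.le ha hz1
      have k1 : ‖Hz ω z‖ = ‖sg a z • Hz ω z‖ := by rw [norm_smul, hs, one_mul]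
      rw [k1, e2 ω z hz1.le, e1, norm_smul, norm_smul, norm_mul]
      have h4 : ‖(1 / 2 : ℂ)‖ = 1 / 2 := by norm_num
      rw [h4]
      have k2 := norm_add_le (KU a τ (sg a z) • U ω z) (KW a τ (sg a z) • W ω z)
      rw [norm_smul, norm_smul, norm_KU ha0.le ha ht0 ht1 hs] at k2
      have k3 := norm_KW_add_rho ha0.le ha ht0 ht1 hs
      have k4 : ‖rho a τ (sg a z)‖ = 1 - ‖KW a τ (sg a z)‖ := by linarith
      rw [k4]
      nlinarith [norm_nonneg (W ω z), norm_nonneg (U ω z)]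
  linarith

end

end Pool.Agent.Y749.VV
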