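import Mathlib
import Pool.Agent.Y749.VV.Up1
import Pool.Agent.Y749.VV.Scal

open Complex Metric Finset Real

namespace Pool.Agent.Y749.VV

open Pool.Agent.Helper228.HC (AA AA_id AA_const AA.pow' sum_cons)

noncomputable section

variable {E : Type*} [NormedAddCommGroup E] [NormedSpace ℂ E]

/-- the parameter `a = 1/√(2q-1)` -/
def aq (q : ℝ) : ℝ := 1 / Real.sqrt (2 * q - 1)

lemma aq_sq {q : ℝ} (hq : 1 < q) : aq q ^ 2 = 1 / (2 * q - 1) := by
  unfold aq
  rw [div_pow, Real.sq_sqrt (by linarith)]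
  norm_num

lemma aq_pos {q : ℝ} (hq : 1 < q) : 0 < aq q := by
  unfold aq
  have : 0 < 2 * q - 1 := by linarith
  positivity

lemma aq_lt {q : ℝ} (hq : 1 < q) : aq q < 1 := by
  have h1 := aq_sq hq
  have h2 := aq_pos hq
  have h3 : 1 / (2 * q - 1) < 1 := by rw [div_lt_one (by linarith)]; linarith
  nlinarith

theorem main_ineq [CompleteSpace E] {q : ℝ} (hq : 1 < q) : ∀ (n : ℕ) (H : (Fin n → ℤˣ) → ℂ → E), Fam (aq q) n H →
    NQ q n H ≤ circleAverage (N1 n H) 0 1
  | 0, H, hH => NQ_zero_le (by linarith) hH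
  | n + 1, H, hH => by
    have hq0 : 0 < q := by linarith
    obtain ⟨G0, G1, h0, h1, h⟩ := hH
    have IH := main_ineq hq n
    set U : (Fin n → ℤˣ) → ℂ → E := fun ω z => G0 ω z + sg (aq q) z • G1 ω z with hU
    set W : (Fin n → ℤˣ) → ℂ → E := fun ω z => G0 ω z - sg (aq q) z • G1 ω z with hW
    have hU1 : ∀ ω z, H (Fin.cons 1 ω) z = U ω z := by
      intro ω z; rw [h, hU]; simp
    have hW1 : ∀ ω z, H (Fin.cons (-1) ω) z = W ω z := by
      intro ω z; rw [h, hW]; simp [sub_eq_add_neg]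
    have eN1 : N1 (n + 1) H = fun z => (N1 n U z + N1 n W z) / 2 := by
      funext z
      unfold N1
      rw [Pool.Agent.Helper228.HC.sum_cons]
      simp only [hU1, hW1]
      rw [pow_succ]
      field_simp
    have eN2 : MQ q (n + 1) H = (NQ q n U ^ q + NQ q n W ^ q) / 2 := by
      rw [NQ_rpow hq0, NQ_rpow hq0]
      unfold MQ
      rw [Pool.Agent.Helper228.HC.sum_cons]
      simp only [hU1, hW1]
      rw [pow_succ]
      field_simp
    have hR : 0 ≤ circleAverage (N1 (n + 1) H) 0 1 := by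
      apply circleAverage_nonneg_of_nonneg
      intro z _
      exact N1_nonneg _ _ _
    have key : (NQ q n U ^ q + NQ q n W ^ q) / 2 ≤ circleAverage (N1 (n + 1) H) 0 1 ^ q := by
      rcases le_total (NQ q n W) (NQ q n U) with hc | hc
      · apply scalar_lemma hq (NQ_nonneg _ _ _) (NQ_nonneg _ _ _) _ hc
        intro τ t0 t1
        rw [eN1, ← aq_sq hq]
        exact key_step (aq_pos hq) (aq_lt hq) hq0 IH h0 h1 t0 t1
      · rw [add_comm]
        apply scalar_lemma hq (NQ_nonneg _ _ _) (NQ_nonneg _ _ _) _ hc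
        intro τ t0 t1
        have h1' : Fam (aq q) n (fun ω z => (-1 : ℂ) • G1 ω z + (0 : ℂ) • G1 ω z) :=
          Fam.comb n (AA_const (-1)) (AA_const 0) h1 h1
        have := key_step (aq_pos hq) (aq_lt hq) hq0 IH h0 h1' t0 t1
        have e1 : (fun (ω : Fin n → ℤˣ) z => G0 ω z + sg (aq q) z • ((-1 : ℂ) • G1 ω z + (0 : ℂ) • G1 ω z)) = W := by
          funext ω z; rw [hW]; module
        have e2 : (fun (ω : Fin n → ℤˣ) z => G0 ω z - sg (aq q) z • ((-1 : ℂ) • G1 ω z + (0 : ℂ) • G1 ω z)) = U := by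
          funext ω z; rw [hU]; module
        rw [e1, e2] at this
        rw [eN1, ← aq_sq hq]
        simpa [add_comm] using this
    rw [← eN2] at key
    unfold NQ
    calc MQ q (n + 1) H ^ (1 / q) ≤ (circleAverage (N1 (n + 1) H) 0 1 ^ q) ^ (1 / q) :=
          Real.rpow_le_rpow (MQ_nonneg _ _ _) key (by positivity)
      _ = _ := by rw [← Real.rpow_mul hR, mul_one_div_cancel hq0.ne', Real.rpow_one]

lemma Fam.zero {a : ℝ} : ∀ n : ℕ, Fam a n (fun _ _ => (0 : E))
  | 0 => fun _ => AE_const 0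
  | n + 1 => ⟨fun _ _ => 0, fun _ _ => 0, Fam.zero n, Fam.zero n, by intro ε ω z; simp⟩

lemma fam_chi {a : ℝ} (ha0 : 0 ≤ a) (ha : a < 1) (v : E) :
    ∀ (n d : ℕ) (p : Fin n → Bool), (∑ i, if p i then 1 else 0) ≤ d →
    Fam a n (fun ω z => (sg a z ^ d * ((∏ i, if p i then (((ω i : ℤˣ) : ℤ) : ℂ) else 1))) • v)
  | 0, d, p, _ => by
    intro ω
    exact AE_smul (((AA_sg ha0 ha).pow' d).mul (AA_const _)) (AE_const v)
  | n + 1, d, p, hp => by
    rw [Fin.sum_univ_succ] at hp
    by_cases h0 : p 0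
    · simp only [h0, if_true] at hp
      obtain ⟨d', rfl⟩ : ∃ d', d = d' + 1 := ⟨d - 1, by omega⟩
      refine ⟨fun _ _ => 0, _, Fam.zero n, fam_chi ha0 ha v n d' (fun i => p i.succ) (by omega), ?_⟩
      intro ε ω z
      simp only [Fin.prod_univ_succ, h0, if_true, Fin.cons_zero, Fin.cons_succ]
      module
    · simp only [h0, if_false, Bool.false_eq_true, zero_add] at hp
      refine ⟨_, fun _ _ => 0, fam_chi ha0 ha v n d (fun i => p i.succ) hp, Fam.zero n, ?_⟩
      intro ε ω z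
      simp only [Fin.prod_univ_succ, h0, if_false, Fin.cons_succ, Bool.false_eq_true]
      module

lemma Fam.sum {a : ℝ} {n : ℕ} {ι : Type*} (T : Finset ι) (H : ι → (Fin n → ℤˣ) → ℂ → E)
    (h : ∀ i ∈ T, Fam a n (H i)) : Fam a n (fun ω z => ∑ i ∈ T, H i ω z) := by
  classical
  induction T using Finset.induction_on with
  | empty => simpa using Fam.zero n
  | insert b T hb ih =>
    have h1 := ih (fun i hi => h i (Finset.mem_insert_of_mem hi))
    have e : (fun (ω : Fin n → ℤˣ) z => ∑ i ∈ insert b T, H i ω z) =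
        fun ω z => (1 : ℂ) • H b ω z + (1 : ℂ) • ∑ i ∈ T, H i ω z := by
      funext ω z; rw [Finset.sum_insert hb, one_smul, one_smul]
    rw [e]
    exact Fam.comb n (AA_const 1) (AA_const 1) (h b (Finset.mem_insert_self _ _)) h1

end

end Pool.Agent.Y749.VV
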