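import Mathlib
import Pool.Agent.Helper228.HC.Upper3
import Pool.Agent.Y749.VV.Up2
import Pool.Agent.Y749.VV.Defs

open Complex Metric Finset Real

namespace Pool.Agent.Y749.VV

open Pool.Agent.Helper228.HC (AA AA_id AA_const AA.pow' sum_cons Cube walsh sum_walsh_mul mean)

noncomputable section

section real

variable {E : Type*} [NormedAddCommGroup E] [NormedSpace ℝ E]

/-- Fourier inversion. -/
lemma fourierE_inversion {n : ℕ} (f : Cube n → E) (x : Cube n) :
    f x = ∑ S : Finset (Fin n), walsh S x • fourierE f S := by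
  have h1 : ∑ S : Finset (Fin n), walsh S x • fourierE f S =
      ((2 : ℝ) ^ n)⁻¹ • ∑ y, (∑ S : Finset (Fin n), walsh S y * walsh S x) • f y := by
    unfold fourierE
    simp only [Finset.smul_sum, Finset.sum_smul, smul_smul]
    rw [Finset.sum_comm]
    apply Finset.sum_congr rfl
    intro y _
    apply Finset.sum_congr rfl
    intro S _
    congr 1
    ring
  rw [h1]
  simp only [sum_walsh_mul]
  simp [ite_smul, smul_smul]

lemma card_le_degreeE {n : ℕ} {f : Cube n → E} {S : Finset (Fin n)} (h : fourierE f S ≠ 0) :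
    S.card ≤ degreeE f := by
  classical
  unfold degreeE
  exact Finset.le_sup (f := Finset.card) (Finset.mem_filter.2 ⟨Finset.mem_univ _, h⟩)

lemma lpE_one {n : ℕ} (f : Cube n → E) : lpE 1 f = mean fun x => ‖f x‖ := by
  unfold lpE
  simp

/-- the isometric embedding of a real normed space in a complex Banach space -/
def emb (E : Type*) [NormedAddCommGroup E] [NormedSpace ℝ E] :
    E →ₗᵢ[ℝ] (StrongDual ℝ E →L[ℝ] ℂ) where
  toFun x := Complex.ofRealCLM ∘L (NormedSpace.inclusionInDoubleDual ℝ E x)
  map_add' x y := by ext; simp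
  map_smul' c x := by ext; simp
  norm_map' x := by
    have h1 : Complex.ofRealCLM = Complex.ofRealLI.toContinuousLinearMap := rfl
    have h2 := (NormedSpace.inclusionInDoubleDualLi (𝕜 := ℝ) (E := E)).norm_map x
    simp only [LinearMap.coe_mk, AddHom.coe_mk]
    rw [h1, LinearIsometry.norm_toContinuousLinearMap_comp]
    exact h2

end real

end

end Pool.Agent.Y749.VV
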