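import Mathlib
import Pool.Agent.Y749.VV.Up3

open Complex Metric Finset Real

namespace Pool.Agent.Y749.VV

open Pool.Agent.Helper228.HC (AA AA_id AA_const AA.pow' Cube walsh sum_walsh_mul mean)

noncomputable section

variable {E : Type*} [NormedAddCommGroup E] [NormedSpace ℝ E]
variable {F : Type*} [NormedAddCommGroup F] [NormedSpace ℂ F]

lemma fam_walshE {a : ℝ} (ha0 : 0 ≤ a) (ha : a < 1) {n d : ℕ} (S : Finset (Fin n)) (h : S.card ≤ d)
    (v : F) :
    Fam a n (fun ω z => (sg a z ^ d * ((walsh S ω : ℝ) : ℂ)) • v) := by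
  classical
  have h1 := fam_chi ha0 ha v n d (fun i => decide (i ∈ S)) (by simpa using h)
  have e : (fun (ω : Fin n → ℤˣ) z => (sg a z ^ d * ((walsh S ω : ℝ) : ℂ)) • v) =
      fun ω z => (sg a z ^ d * ((∏ i, if (decide (i ∈ S) : Bool) then (((ω i : ℤˣ) : ℤ) : ℂ) else 1))) • v := by
    funext ω z
    congr 2
    unfold walsh
    simp only [decide_eq_true_eq]
    rw [Finset.prod_ite_mem, Finset.univ_inter]
    push_cast
    rfl
  rw [e]; exact h1

lemma fam_fE {a : ℝ} (ha0 : 0 ≤ a) (ha : a < 1) {n : ℕ} (f : Cube n → E)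
    (J : E → F) (J0 : J 0 = 0) (Js : ∀ g : Finset (Fin n) → E, J (∑ S, g S) = ∑ S, J (g S))
    (Jm : ∀ (r : ℝ) v, J (r • v) = (r : ℂ) • J v) :
    Fam a n (fun ω z => (sg a z ^ degreeE f) • J (f ω)) := by
  classical
  have h := Fam.sum (E := F) (a := a) (n := n) (Finset.univ : Finset (Finset (Fin n)))
    (fun S ω z => (sg a z ^ degreeE f * ((walsh S ω : ℝ) : ℂ)) • J (fourierE f S)) (by
      intro S _
      by_cases hS : fourierE f S = 0
      · simp only [hS, J0, smul_zero]
        exact Fam.zero n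
      · exact fam_walshE ha0 ha S (card_le_degreeE hS) _)
  have e : (fun (ω : Fin n → ℤˣ) z => (sg a z ^ degreeE f) • J (f ω)) =
      fun ω z => ∑ S, (sg a z ^ degreeE f * ((walsh S ω : ℝ) : ℂ)) • J (fourierE f S) := by
    funext ω z
    conv_lhs => rw [fourierE_inversion f ω]
    rw [Js, Finset.smul_sum]
    apply Finset.sum_congr rfl
    intro S _
    rw [Jm, smul_smul]
  rw [e]; exact h

/-- **Upper bound**, through an isometric embedding in a complex Banach space. -/
theorem upperE_aux [CompleteSpace F] {q : ℝ} (hq : 1 < q) {n : ℕ} (f : Cube n → E)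
    (J : E → F) (J0 : J 0 = 0) (Js : ∀ g : Finset (Fin n) → E, J (∑ S, g S) = ∑ S, J (g S))
    (Jm : ∀ (r : ℝ) v, J (r • v) = (r : ℂ) • J v) (Jn : ∀ v, ‖J v‖ = ‖v‖) :
    lpE q f ≤ Real.sqrt (2 * q - 1) ^ degreeE f * lpE 1 f := by
  have ha0 := aq_pos hq
  have ha := aq_lt hq
  have hq0 : 0 < q := by linarith
  have h := main_ineq hq n _ (fam_fE ha0.le ha f J J0 Js Jm)
  have e1 : NQ q n (fun ω z => (sg (aq q) z ^ degreeE f) • J (f ω)) = aq q ^ degreeE f * lpE q f := by
    have e2 : NQ q n (fun (ω : Fin n → ℤˣ) (_ : ℂ) => J (f ω)) = lpE q f := by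
      unfold NQ MQ lpE mean
      simp only [Jn]
    rw [← e2]
    apply NQ_smul hq0 (by positivity)
    intro ω
    rw [sg_zero, norm_smul, norm_pow, Complex.norm_real, Real.norm_of_nonneg ha0.le]
  have e2 : circleAverage (N1 n (fun ω z => (sg (aq q) z ^ degreeE f) • J (f ω))) 0 1 = lpE 1 f := by
    apply circleAverage_const_on_circle
    intro z hz
    have hz1 : ‖z‖ = 1 := by simpa using hz
    rw [lpE_one]
    unfold N1 mean
    congr 1
    apply Finset.sum_congr rfl
    intro ω _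
    rw [norm_smul, norm_pow, norm_sg_eq ha0.le ha hz1, one_pow, one_mul, Jn]
  rw [e1, e2] at h
  have hs : 0 < Real.sqrt (2 * q - 1) := Real.sqrt_pos.2 (by linarith)
  have h3 : Real.sqrt (2 * q - 1) * aq q = 1 := by
    unfold aq
    rw [mul_one_div, div_self hs.ne']
  calc lpE q f = (Real.sqrt (2 * q - 1) * aq q) ^ degreeE f * lpE q f := by rw [h3]; simp
    _ = Real.sqrt (2 * q - 1) ^ degreeE f * (aq q ^ degreeE f * lpE q f) := by rw [mul_pow]; ring
    _ ≤ _ := mul_le_mul_of_nonneg_left h (by positivity)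

/-- **Upper bound** for functions with values in an arbitrary normed space. -/
theorem upperE {q : ℝ} (hq : 1 < q) {n : ℕ} (f : Cube n → E) :
    lpE q f ≤ Real.sqrt (2 * q - 1) ^ degreeE f * lpE 1 f :=
  upperE_aux (F := StrongDual ℝ E →L[ℝ] ℂ) hq f (emb E) (map_zero (emb E).toLinearMap)
    (fun g => map_sum (emb E).toLinearMap g _)
    (fun r v => by
      ext x
      have := congrArg (fun φ : StrongDual ℝ E →L[ℝ] ℂ => φ x) (map_smul (emb E).toLinearMap r v)
      simpa using this)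
    (fun v => (emb E).norm_map v)

end

end Pool.Agent.Y749.VV
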