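import Mathlib
import Pool.Agent.Helper228.HC.Lower2
import Pool.Agent.Helper228.HC.Upper3
import Pool.Agent.Y749.VV.Defs

open Finset

/-! From functions with values in a normed space to real-valued functions. -/

namespace Pool.Agent.Y749.VV

open Pool.Agent.Helper228.HC (Cube mean walsh degree lpNorm card_cube mean_const_mul mean_nonneg
  unit_mul_self)

noncomputable section

variable {E : Type*} [NormedAddCommGroup E] [NormedSpace ℝ E]

lemma fourierE_smul {n : ℕ} (f : Cube n → ℝ) (v : E) (S : Finset (Fin n)) :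
    fourierE (fun x => f x • v) S = Pool.Agent.Helper228.HC.fourier f S • v := by
  unfold fourierE Pool.Agent.Helper228.HC.fourier mean
  simp only [smul_smul]
  rw [← Finset.sum_smul, smul_smul]
  congr 1
  rw [div_eq_inv_mul]
  congr 1
  apply Finset.sum_congr rfl
  intro x _
  ring

lemma degreeE_smul {n : ℕ} (f : Cube n → ℝ) {v : E} (hv : v ≠ 0) :
    degreeE (fun x => f x • v) = degree f := by
  classical
  unfold degreeE degree
  congr 1
  apply Finset.filter_congr
  intro S _
  rw [fourierE_smul, smul_ne_zero_iff]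
  simp [hv]

lemma lpE_smul {p : ℝ} (hp : 0 < p) {n : ℕ} (f : Cube n → ℝ) (v : E) :
    lpE p (fun x => f x • v) = ‖v‖ * lpNorm p f := by
  unfold lpE lpNorm
  have h1 : (fun x : Cube n => ‖f x • v‖ ^ p) = fun x => ‖v‖ ^ p * |f x| ^ p := by
    funext x
    rw [norm_smul, Real.norm_eq_abs, Real.mul_rpow (abs_nonneg _) (norm_nonneg _), mul_comm]
  rw [h1, mean_const_mul, Real.mul_rpow (Real.rpow_nonneg (norm_nonneg _) _)
    (mean_nonneg fun x => Real.rpow_nonneg (abs_nonneg _) _), ← Real.rpow_mul (norm_nonneg _),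
    mul_one_div_cancel hp.ne', Real.rpow_one]

/-- A constant admissible for `E`-valued functions is admissible for real-valued ones. -/
lemma real_of_vec {p q C : ℝ} (hp : 0 < p) (hq : 0 < q) {v : E} (hv : v ≠ 0)
    (h : ∀ n : ℕ, 1 ≤ n → ∀ f : Cube n → E, lpE q f ≤ C ^ degreeE f * lpE p f) :
    ∀ n : ℕ, 1 ≤ n → ∀ f : Cube n → ℝ, lpNorm q f ≤ C ^ degree f * lpNorm p f := by
  intro n hn f
  have h1 := h n hn (fun x => f x • v)
  rw [degreeE_smul f hv, lpE_smul hp, lpE_smul hq] at h1
  have hv0 : 0 < ‖v‖ := norm_pos_iff.2 hv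
  apply le_of_mul_le_mul_left _ hv0
  calc ‖v‖ * lpNorm q f ≤ _ := h1
    _ = _ := by ring

lemma mean_one_of {n : ℕ} (g : Cube n → ℝ) (h : ∀ x, g x = 1) : mean g = 1 := by
  unfold mean
  simp only [h, Finset.sum_const, Finset.card_univ, card_cube, nsmul_eq_mul, mul_one]
  push_cast
  exact div_self (by positivity)

lemma one_le_of {p q C : ℝ} (h0 : 0 < C)
    (h : ∀ n : ℕ, 1 ≤ n → ∀ f : Cube n → ℝ, lpNorm q f ≤ C ^ degree f * lpNorm p f) : 1 ≤ C := by
  by_contra hlt
  push Not at hlt
  let f : Cube 1 → ℝ := fun x => (((x 0 : ℤˣ) : ℤ) : ℝ)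
  have habs : ∀ x : Cube 1, |f x| = 1 := by
    intro x
    rcases Int.units_eq_one_or (x 0) with h1 | h1 <;> simp [f, h1]
  have h1 : ∀ s : ℝ, lpNorm s f = 1 := by
    intro s
    unfold lpNorm
    rw [mean_one_of, Real.one_rpow]
    intro x
    rw [habs, Real.one_rpow]
  have h3 : Pool.Agent.Helper228.HC.fourier f {0} ≠ 0 := by
    unfold Pool.Agent.Helper228.HC.fourier
    rw [mean_one_of]
    · norm_num
    · intro x
      unfold walsh
      rw [Finset.prod_singleton]
      exact unit_mul_self (x 0)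
  have h4 : 1 ≤ degree f := by
    have := Pool.Agent.Helper228.HC.card_le_degree h3
    simpa using this
  have h5 := h 1 le_rfl f
  rw [h1, h1, mul_one] at h5
  have h6 : C ^ degree f ≤ C ^ 1 := pow_le_pow_of_le_one h0.le hlt.le h4
  rw [pow_one] at h6
  linarith

end

end Pool.Agent.Y749.VV
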