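import Mathlib
import Pool.Agent.Helper228.HC.Lower6
import Pool.Agent.Y749.VV.Defs
import Pool.Agent.Y749.VV.Vec
import Pool.Agent.Y749.VV.Up4
import Pool.Agent.Y749.VV.Low9
import Pool.Agent.Y749.VV.Low10

open MeasureTheory ProbabilityTheory Filter Topology Real Polynomial

/-! Lower bound for the best `L²`–`L¹` constant in degree at most `d`. -/

namespace Pool.Agent.Y749.VV

open Pool.Agent.Helper228.HC (Cube mean degree hh ss JJ EE EE_eq EE_one EE_L1 hh_natDegree degree_poly_le XX)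

noncomputable section

lemma EE_hh_ge (n : ℕ) : 6 ^ n / (n.factorial : ℝ) ≤ (2 * (n : ℝ) + 1) * EE (hh n * hh n) := by
  have h := JJ_hh_sq_ge (b := 1 / 2) (by norm_num) (by norm_num) n
  have e : (4 / (1 / 2) - 2 : ℝ) = 6 := by norm_num
  rw [e] at h
  have h1 : EE 1 = 1 := EE_one
  rw [EE_eq] at h1
  rw [EE_eq]
  have hpos : 0 < (Real.sqrt (2 * π))⁻¹ := by
    have := Real.pi_pos
    positivity
  have h2 := mul_le_mul_of_nonneg_left h hpos.le
  rw [← mul_assoc, h1, one_mul] at h2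
  linarith

/-- real-valued functions: the best constant in degree at most `d` is at least `√3^d / (2(d+1))` -/
theorem lower_deg {d : ℕ} {K : ℝ} (hK0 : 0 ≤ K)
    (h : ∀ n : ℕ, 1 ≤ n → ∀ f : Cube n → ℝ, degree f ≤ d →
      Pool.Agent.Helper228.HC.lpNorm 2 f ≤ K * Pool.Agent.Helper228.HC.lpNorm 1 f) :
    Real.sqrt 3 ^ d / (2 * ((d : ℝ) + 1)) ≤ K := by
  have h1 := transferR (m := 1) le_rfl (q := 2) (by norm_num) hK0 (hh d) (by
    intro n hn
    have := h n hn (fun x : Cube n => (hh d).eval (XX n x)) ((degree_poly_le n (hh d)).trans (hh_natDegree d))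
    simpa using this)
  simp only [Nat.cast_one, div_one, Real.rpow_one, pow_one, Real.rpow_two, sq_abs] at h1
  have e1 : EE (hh d * hh d) = ∫ x, (hh d).eval x ^ 2 ∂(gaussianReal 0 1) := by
    unfold EE
    congr 1
    funext x
    rw [eval_mul, pow_two]
  rw [← e1] at h1
  have h2 := EE_hh_ge d
  have h3 := EE_L1 d
  have hd0 : (0 : ℝ) ≤ d := by positivity
  have hf : (0 : ℝ) < (d.factorial : ℝ) := by positivity
  have h4 : 6 ^ d / (d.factorial : ℝ) ≤
      (2 * (d : ℝ) + 1) * (K ^ 2 * (2 * ((d : ℝ) + 1) * (2 ^ d / (d.factorial : ℝ)))) := by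
    calc _ ≤ _ := h2
      _ ≤ (2 * (d : ℝ) + 1) * (K ^ 2 * (∫ x, |(hh d).eval x| ∂(gaussianReal 0 1)) ^ 2) := by
        apply mul_le_mul_of_nonneg_left _ (by positivity)
        rw [← mul_pow]; exact h1
      _ ≤ _ := by
        apply mul_le_mul_of_nonneg_left _ (by positivity)
        exact mul_le_mul_of_nonneg_left h3 (by positivity)
  have e6 : (6 : ℝ) ^ d = 3 ^ d * 2 ^ d := by rw [← mul_pow]; norm_num
  have h5 : (3 : ℝ) ^ d ≤ (2 * (d : ℝ) + 1) * (K ^ 2 * (2 * ((d : ℝ) + 1))) := by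
    have h6 : (3 : ℝ) ^ d * (2 ^ d / (d.factorial : ℝ)) ≤
        (2 * (d : ℝ) + 1) * (K ^ 2 * (2 * ((d : ℝ) + 1))) * (2 ^ d / (d.factorial : ℝ)) := by
      calc _ = 6 ^ d / (d.factorial : ℝ) := by rw [e6]; ring
        _ ≤ _ := h4
        _ = _ := by ring
    exact le_of_mul_le_mul_right h6 (by positivity)
  have h7 : (3 : ℝ) ^ d ≤ (K * (2 * ((d : ℝ) + 1))) ^ 2 := by
    calc _ ≤ _ := h5
      _ = (K ^ 2 * 2 * ((d : ℝ) + 1)) * (2 * (d : ℝ) + 1) := by ring
      _ ≤ (K ^ 2 * 2 * ((d : ℝ) + 1)) * (2 * (d : ℝ) + 2) := by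
        apply mul_le_mul_of_nonneg_left _ (by positivity)
        linarith
      _ = _ := by ring
  rw [div_le_iff₀ (by positivity)]
  have h8 : (Real.sqrt 3 ^ d) ^ 2 ≤ (K * (2 * ((d : ℝ) + 1))) ^ 2 := by
    rw [← pow_mul, mul_comm d 2, pow_mul, Real.sq_sqrt (by norm_num)]
    exact h7
  exact le_of_sq_le_sq h8 (by positivity)

variable {E : Type*} [NormedAddCommGroup E] [NormedSpace ℝ E]

lemma lpE_nonneg {n : ℕ} (p : ℝ) (f : Cube n → E) : 0 ≤ lpE p f :=
  Real.rpow_nonneg (Pool.Agent.Helper228.HC.mean_nonneg fun _ => Real.rpow_nonneg (norm_nonneg _) _) _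

/-- upper bound in degree at most `d` -/
theorem upper_deg {n : ℕ} (d : ℕ) (f : Cube n → E) (hf : degreeE f ≤ d) :
    lpE 2 f ≤ Real.sqrt 3 ^ d * lpE 1 f := by
  have h := upperE (q := 2) (by norm_num) f
  have e : (2 * 2 - 1 : ℝ) = 3 := by norm_num
  rw [e] at h
  apply h.trans
  apply mul_le_mul_of_nonneg_right _ (lpE_nonneg _ _)
  apply pow_le_pow_right₀ _ hf
  rw [Real.one_le_sqrt]; norm_num

/-- vector-valued: reduction to real-valued functions -/
lemma real_of_vec_deg {d : ℕ} {K : ℝ} {v : E} (hv : v ≠ 0)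
    (h : ∀ n : ℕ, 1 ≤ n → ∀ f : Cube n → E, degreeE f ≤ d → lpE 2 f ≤ K * lpE 1 f) :
    ∀ n : ℕ, 1 ≤ n → ∀ f : Cube n → ℝ, degree f ≤ d →
      Pool.Agent.Helper228.HC.lpNorm 2 f ≤ K * Pool.Agent.Helper228.HC.lpNorm 1 f := by
  intro n hn f hf
  have h1 := h n hn (fun x => f x • v) (by rw [degreeE_smul f hv]; exact hf)
  rw [lpE_smul (by norm_num), lpE_smul (by norm_num)] at h1
  have hv0 : 0 < ‖v‖ := norm_pos_iff.2 hv
  apply le_of_mul_le_mul_left _ hv0
  calc ‖v‖ * Pool.Agent.Helper228.HC.lpNorm 2 f ≤ _ := h1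
    _ = _ := by ring

end

end Pool.Agent.Y749.VV
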