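import Mathlib
import Pool.Agent.Y749.VV.Low3

open MeasureTheory ProbabilityTheory Filter Topology Real Polynomial

/-! Weighted `L²` and pointwise bounds for the Hermite polynomials `hh n`. -/

namespace Pool.Agent.Y749.VV

open Pool.Agent.Helper228.HC (hh ss hh_rec hh_deriv JJ JJ_integrable JJ_add
  JJ_C_mul JJ_sub JJ_sum JJ_nonneg JJ_mono stein JJ_two_mul)

noncomputable section

/-- pointwise bound by a weighted Sobolev norm -/
lemma sup_le {b : ℝ} (hb : 0 < b) (h : ℝ[X]) (x : ℝ) :
    h.eval x ^ 2 * Real.exp (-b * x ^ 2) ≤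
      JJ b (C (1 + b) * (h * h) + derivative h * derivative h + C b * (X * X * (h * h))) := by
  have hd : ∀ x : ℝ, HasDerivAt (fun x : ℝ => (h * h).eval x * Real.exp (-b * x ^ 2))
      ((2 * (h * derivative h) - C (2 * b) * (X * (h * h))).eval x * Real.exp (-b * x ^ 2)) x := by
    intro x
    have h1 := (h * h).hasDerivAt x
    have h2 : HasDerivAt (fun x : ℝ => Real.exp (-b * x ^ 2)) (Real.exp (-b * x ^ 2) * (-b * (2 * x))) x := by
      have h3 : HasDerivAt (fun x : ℝ => -b * x ^ 2) (-b * (2 * x)) x := by
        have := (hasDerivAt_pow 2 x).const_mul (-b)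
        simpa using this
      exact h3.exp
    refine (h1.fun_mul h2).congr_deriv ?_
    simp only [eval_sub, eval_mul, eval_C, eval_X, derivative_mul, eval_add, eval_ofNat]
    ring
  have hI := JJ_integrable hb (h * h)
  have hI' := JJ_integrable hb (2 * (h * derivative h) - C (2 * b) * (X * (h * h)))
  have ht := tendsto_zero_of_hasDerivAt_of_integrableOn_Iic (a := x) (fun y _ => hd y) hI'.integrableOn hI.integrableOn
  have hint := integral_Iic_of_hasDerivAt_of_tendsto (a := x) (hd x).continuousAt.continuousWithinAt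
    (fun y _ => hd y) hI'.integrableOn ht
  rw [sub_zero] at hint
  have hM := JJ_integrable hb (C (1 + b) * (h * h) + derivative h * derivative h + C b * (X * X * (h * h)))
  have hb0 : ∀ y : ℝ, (2 * (h * derivative h) - C (2 * b) * (X * (h * h))).eval y * Real.exp (-b * y ^ 2) ≤
      (C (1 + b) * (h * h) + derivative h * derivative h + C b * (X * X * (h * h))).eval y * Real.exp (-b * y ^ 2) := by
    intro y
    apply mul_le_mul_of_nonneg_right _ (Real.exp_pos _).le
    simp only [eval_sub, eval_mul, eval_C, eval_X, eval_add, eval_ofNat]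
    set u := eval y h
    set v := eval y (derivative h)
    have e1 : 0 ≤ (u - v) ^ 2 := sq_nonneg _
    have e2 : 0 ≤ b * (u + y * u) ^ 2 := by positivity
    nlinarith
  have hn : ∀ y : ℝ, 0 ≤ (C (1 + b) * (h * h) + derivative h * derivative h + C b * (X * X * (h * h))).eval y *
      Real.exp (-b * y ^ 2) := by
    intro y
    apply mul_nonneg _ (Real.exp_pos _).le
    simp only [eval_mul, eval_C, eval_X, eval_add]
    have e1 := mul_self_nonneg (eval y h)
    have e2 := mul_self_nonneg (eval y (derivative h))
    have e3 := mul_self_nonneg y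
    positivity
  have e0 : h.eval x ^ 2 * Real.exp (-b * x ^ 2) = (h * h).eval x * Real.exp (-b * x ^ 2) := by
    rw [eval_mul]; ring
  have e1 := setIntegral_mono hI'.integrableOn hM.integrableOn hb0 (s := Set.Iic x)
  have e2 := setIntegral_le_integral (s := Set.Iic x) hM (ae_of_all _ hn)
  rw [hint] at e1
  rw [e0]
  exact e1.trans e2

end

end Pool.Agent.Y749.VV
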