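import Mathlib
import Pool.Agent.Y749.VV.Low4

open MeasureTheory ProbabilityTheory Filter Topology Real Polynomial

/-! Weighted `L²` and pointwise bounds for the Hermite polynomials `hh n`. -/

namespace Pool.Agent.Y749.VV

open Pool.Agent.Helper228.HC (hh ss hh_rec hh_deriv JJ JJ_integrable JJ_add
  JJ_C_mul JJ_sub JJ_sum JJ_nonneg JJ_mono stein JJ_two_mul)

noncomputable section

/-- **Pointwise bound** for the weighted Hermite polynomials. -/
lemma sup_hh {b : ℝ} (hb : 0 < b) (hb1 : b ≤ 1) : ∃ c : ℝ, 0 < c ∧ JJ b 1 ≤ c ∧ ∀ (n : ℕ) (x : ℝ),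
    (hh n).eval x ^ 2 * Real.exp (-b * x ^ 2) ≤ c * ((n : ℝ) + 1) * ((4 / b - 2) ^ n / (n.factorial : ℝ)) := by
  have hj := JJ_one_pos hb
  have hβ : 2 ≤ 4 / b - 2 := by
    have : 4 ≤ 4 / b := by rw [le_div_iff₀ hb]; linarith
    linarith
  refine ⟨JJ b 1 * (2 + b + 2 * (1 + 1 / b)), by positivity, ?_, ?_⟩
  · have h1 : 0 < 1 / b := by positivity
    nlinarith
  intro n x
  set β := 4 / b - 2 with hβdef
  have h1 := sup_le hb (hh n) x
  rw [JJ_add hb, JJ_add hb, JJ_C_mul, JJ_C_mul] at h1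
  have h2 := JJ_X2_le hb (hh n)
  have h3 := JJ_hh_sq_le hb hb1 n
  rw [← hβdef] at h3
  set T := β ^ n / (n.factorial : ℝ) with hT
  have hT0 : 0 < T := by rw [hT]; positivity
  have h4 : JJ b (derivative (hh n) * derivative (hh n)) ≤ JJ b 1 * (2 * (n : ℝ) * T) := by
    cases n with
    | zero => simp [hh, JJ_zero]
    | succ m =>
      have e1 : derivative (hh (m + 1)) * derivative (hh (m + 1)) = C 4 * (hh m * hh m) := by
        rw [hh_deriv, C_ofNat]; ring
      have h5 := JJ_hh_sq_le hb hb1 m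
      rw [← hβdef] at h5
      rw [e1, JJ_C_mul]
      have e2 : T = β / ((m : ℝ) + 1) * (β ^ m / (m.factorial : ℝ)) := by
        rw [hT, Nat.factorial_succ, pow_succ]; push_cast
        field_simp
      have hm0 : 0 < β ^ m / (m.factorial : ℝ) := by positivity
      rw [e2]
      push_cast
      have e3 : JJ b 1 * (2 * ((m : ℝ) + 1) * (β / ((m : ℝ) + 1) * (β ^ m / (m.factorial : ℝ)))) =
          JJ b 1 * (2 * β * (β ^ m / (m.factorial : ℝ))) := by
        field_simp
      rw [e3]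
      have h6 : 4 * (JJ b 1 * (β ^ m / (m.factorial : ℝ))) ≤ JJ b 1 * (2 * β * (β ^ m / (m.factorial : ℝ))) := by
        have : 0 ≤ (2 * β - 4) * (JJ b 1 * (β ^ m / (m.factorial : ℝ))) := by
          apply mul_nonneg (by linarith) (by positivity)
        nlinarith
      linarith
  have hn0 : (0 : ℝ) ≤ n := by positivity
  set A := JJ b (hh n * hh n) with hA
  set A' := JJ b (derivative (hh n) * derivative (hh n)) with hA'
  have h5 : (hh n).eval x ^ 2 * Real.exp (-b * x ^ 2) ≤ (2 + b) * A + (1 + 1 / b) * A' := by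
    have h6 : b * JJ b (X * X * (hh n * hh n)) ≤ b * (1 / b * A + 1 / b ^ 2 * A') :=
      mul_le_mul_of_nonneg_left h2 hb.le
    have h7 : b * (1 / b * A + 1 / b ^ 2 * A') = A + 1 / b * A' := by field_simp
    rw [h7] at h6
    linarith
  calc _ ≤ (2 + b) * A + (1 + 1 / b) * A' := h5
    _ ≤ (2 + b) * (JJ b 1 * T) + (1 + 1 / b) * (JJ b 1 * (2 * (n : ℝ) * T)) := by
      have : 0 < 1 / b := by positivity
      apply add_le_add
      · exact mul_le_mul_of_nonneg_left h3 (by positivity)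
      · exact mul_le_mul_of_nonneg_left h4 (by positivity)
    _ = JJ b 1 * ((2 + b) + 2 * (1 + 1 / b) * (n : ℝ)) * T := by ring
    _ ≤ JJ b 1 * (2 + b + 2 * (1 + 1 / b)) * ((n : ℝ) + 1) * T := by
      have h8 : 0 < 1 / b := by positivity
      apply mul_le_mul_of_nonneg_right _ hT0.le
      rw [mul_assoc (JJ b 1)]
      apply mul_le_mul_of_nonneg_left _ hj.le
      nlinarith [mul_nonneg hb.le hn0, mul_nonneg h8.le hn0]

end

end Pool.Agent.Y749.VV
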