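import Mathlib
import Pool.Agent.Helper228.HC.Lower3
import Pool.Agent.Helper228.HC.Upper3
import Pool.Agent.Y749.VV.Low1

open MeasureTheory ProbabilityTheory Filter Topology Real

/-! Transfer of the `L^q`–`L^m` comparison from the cube to Gauss space. -/

namespace Pool.Agent.Y749.VV

open Pool.Agent.Helper228.HC (Cube lpNorm mean degree mean_nonneg lpNorm_one poly_bound mean_mono XX mean_const_mul
  exp_moment mean_add integrable_poly min_bdd_cont tendsto_mean degree_poly_le)

noncomputable section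

theorem transferPQ {m : ℕ} (hm : 1 ≤ m) {q C : ℝ} (hq : 0 < q) (hC1 : 1 ≤ C)
    (h : ∀ n : ℕ, 1 ≤ n → ∀ f : Cube n → ℝ, lpNorm q f ≤ C ^ degree f * lpNorm m f) (p : Polynomial ℝ) :
    ∫ x, |p.eval x| ^ q ∂(gaussianReal 0 1) ≤
      (C ^ p.natDegree * (∫ x, |p.eval x| ^ m ∂(gaussianReal 0 1)) ^ (1 / (m : ℝ))) ^ q := by
  have hm0 : (0 : ℝ) < 1 / (m : ℝ) := by positivity
  obtain ⟨K, hK0, hK⟩ := poly_bound (p ^ (2 * m))
  set B := K * (2 * Real.exp (1 / 2)) with hB
  have hB0 : 0 ≤ B := by rw [hB]; positivity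
  have hBn : ∀ n : ℕ, 1 ≤ n → mean (fun x : Cube n => p.eval (XX n x) ^ (2 * m)) ≤ B := by
    intro n hn
    calc mean (fun x : Cube n => p.eval (XX n x) ^ (2 * m)) ≤ mean (fun x : Cube n => K * Real.exp |XX n x|) := by
          apply mean_mono
          intro x
          have := hK (XX n x)
          rw [Polynomial.eval_pow] at this
          exact (le_abs_self _).trans this
      _ = K * mean (fun x : Cube n => Real.exp |XX n x|) := mean_const_mul _ _
      _ ≤ _ := mul_le_mul_of_nonneg_left (exp_moment hn) hK0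
  have hsq : ∀ n : ℕ, 1 ≤ n → mean (fun x : Cube n => |p.eval (XX n x)| ^ q) ≤
      (C ^ p.natDegree * (mean fun x : Cube n => |p.eval (XX n x)| ^ m) ^ (1 / (m : ℝ))) ^ q := by
    intro n hn
    have h1 := h n hn (fun x => p.eval (XX n x))
    have h0 : 0 ≤ mean fun x : Cube n => |p.eval (XX n x)| ^ m := mean_nonneg fun x => by positivity
    have h2 : lpNorm q (fun x : Cube n => p.eval (XX n x)) ≤
        C ^ p.natDegree * (mean fun x : Cube n => |p.eval (XX n x)| ^ m) ^ (1 / (m : ℝ)) := by
      have e : lpNorm m (fun x : Cube n => p.eval (XX n x)) =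
          (mean fun x : Cube n => |p.eval (XX n x)| ^ m) ^ (1 / (m : ℝ)) := by
        unfold Pool.Agent.Helper228.HC.lpNorm
        simp only [Real.rpow_natCast]
      rw [e] at h1
      apply h1.trans
      apply mul_le_mul_of_nonneg_right _ (Real.rpow_nonneg h0 _)
      exact pow_le_pow_right₀ hC1 (degree_poly_le n p)
    exact mean_rpow_le hq h2
  have hIq : Integrable (fun x => |p.eval x| ^ q) (gaussianReal 0 1) := integrable_abs_rpow p hq.le
  have hI2q : Integrable (fun x => |p.eval x| ^ (2 * q)) (gaussianReal 0 1) :=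
    integrable_abs_rpow p (by linarith)
  have hI1 : Integrable (fun x => |p.eval x| ^ m) (gaussianReal 0 1) := by
    have := (integrable_poly (p ^ m)).abs
    simpa [Polynomial.eval_pow, abs_pow] using this
  -- main finite inequality
  have key : ∀ L : ℝ, 0 < L → ∫ x, |p.eval x| ^ q ∂(gaussianReal 0 1) ≤
      (C ^ p.natDegree * (∫ x, |p.eval x| ^ m ∂(gaussianReal 0 1) + B * L⁻¹) ^ (1 / (m : ℝ))) ^ q +
        (∫ x, |p.eval x| ^ (2 * q) ∂(gaussianReal 0 1)) * L⁻¹ := by
    intro L hL
    obtain ⟨φ2, hφ2⟩ := min_bdd_cont (g := fun x => |p.eval x| ^ q)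
      ((p.continuous.abs).rpow_const (fun x => Or.inr hq.le)) (fun x => Real.rpow_nonneg (abs_nonneg _) _) hL
    obtain ⟨φ1, hφ1⟩ := min_bdd_cont (g := fun x => |p.eval x| ^ m) (by fun_prop) (fun x => by positivity) hL
    have hlim : ∫ x, φ2 x ∂(gaussianReal 0 1) ≤
        (C ^ p.natDegree * (∫ x, φ1 x ∂(gaussianReal 0 1) + B * L⁻¹) ^ (1 / (m : ℝ))) ^ q := by
      apply le_of_tendsto_of_tendsto (tendsto_mean φ2)
        (((((tendsto_mean φ1).add_const (B * L⁻¹)).rpow_const (Or.inr hm0.le)).const_mul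
          (C ^ p.natDegree)).rpow_const (Or.inr hq.le))
      filter_upwards [eventually_ge_atTop 1] with n hn
      have h1 : mean (fun x : Cube n => φ2 (XX n x)) ≤ mean (fun x : Cube n => |p.eval (XX n x)| ^ q) := by
        apply mean_mono
        intro x
        rw [hφ2]
        exact min_le_left _ _
      have h2 : (mean fun x : Cube n => |p.eval (XX n x)| ^ m) ≤ mean (fun x : Cube n => φ1 (XX n x)) + B * L⁻¹ := by
        have : (mean fun x : Cube n => |p.eval (XX n x)| ^ m) ≤
            mean (fun x : Cube n => φ1 (XX n x) + L⁻¹ * p.eval (XX n x) ^ (2 * m)) := by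
          apply mean_mono
          intro x
          rw [hφ1]
          have e2 : p.eval (XX n x) ^ (2 * m) = (|p.eval (XX n x)| ^ m) ^ 2 := by
            rw [← pow_mul, mul_comm m 2, pow_mul, pow_mul, sq_abs]
          rw [e2]
          have hy0 : 0 ≤ |p.eval (XX n x)| ^ m := by positivity
          set y := |p.eval (XX n x)| ^ m
          rcases le_total y L with hc | hc
          · rw [min_eq_left hc]
            have : 0 ≤ L⁻¹ * y ^ 2 := by positivity
            linarith
          · rw [min_eq_right hc]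
            have h3 : y ≤ L⁻¹ * y ^ 2 := by
              rw [inv_mul_eq_div, le_div_iff₀ hL]
              nlinarith
            linarith
        rw [mean_add, mean_const_mul] at this
        have h4 : L⁻¹ * mean (fun x : Cube n => p.eval (XX n x) ^ (2 * m)) ≤ L⁻¹ * B :=
          mul_le_mul_of_nonneg_left (hBn n hn) (by positivity)
        linarith
      have h0 : 0 ≤ mean fun x : Cube n => |p.eval (XX n x)| ^ m := mean_nonneg fun x => by positivity
      calc mean (fun x : Cube n => φ2 (XX n x)) ≤ _ := h1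
        _ ≤ _ := hsq n hn
        _ ≤ _ := by
          apply Real.rpow_le_rpow (by positivity) _ hq.le
          exact mul_le_mul_of_nonneg_left (Real.rpow_le_rpow h0 h2 hm0.le) (by positivity)
    have h5 : ∫ x, φ1 x ∂(gaussianReal 0 1) ≤ ∫ x, |p.eval x| ^ m ∂(gaussianReal 0 1) := by
      apply integral_mono (φ1.integrable _) hI1
      intro x
      simp only [hφ1]
      exact min_le_left _ _
    have h50 : 0 ≤ ∫ x, φ1 x ∂(gaussianReal 0 1) := by
      apply integral_nonneg
      intro x
      simp only [hφ1]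
      exact le_min (by positivity) hL.le
    have h6 : ∫ x, |p.eval x| ^ q ∂(gaussianReal 0 1) ≤
        ∫ x, (φ2 x + |p.eval x| ^ (2 * q) * L⁻¹) ∂(gaussianReal 0 1) := by
      apply integral_mono hIq ((φ2.integrable _).add (hI2q.mul_const _))
      intro x
      simp only [Pi.add_apply, hφ2]
      have e : |p.eval x| ^ (2 * q) = (|p.eval x| ^ q) ^ 2 := by
        rw [← Real.rpow_natCast, ← Real.rpow_mul (abs_nonneg _)]
        congr 1; push_cast; ring
      rw [e]
      have hy0 : 0 ≤ |p.eval x| ^ q := Real.rpow_nonneg (abs_nonneg _) _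
      set y := |p.eval x| ^ q
      rcases le_total y L with hc | hc
      · rw [min_eq_left hc]
        have : 0 ≤ y ^ 2 * L⁻¹ := by positivity
        linarith
      · rw [min_eq_right hc]
        have h3 : y ≤ y ^ 2 * L⁻¹ := by
          rw [← div_eq_mul_inv, le_div_iff₀ hL]
          nlinarith
        linarith
    rw [integral_add (φ2.integrable _) (hI2q.mul_const _), integral_mul_const] at h6
    have h7 : (C ^ p.natDegree * (∫ x, φ1 x ∂(gaussianReal 0 1) + B * L⁻¹) ^ (1 / (m : ℝ))) ^ q ≤
        (C ^ p.natDegree * (∫ x, |p.eval x| ^ m ∂(gaussianReal 0 1) + B * L⁻¹) ^ (1 / (m : ℝ))) ^ q := by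
      apply Real.rpow_le_rpow (by positivity) _ hq.le
      apply mul_le_mul_of_nonneg_left _ (by positivity)
      apply Real.rpow_le_rpow (by positivity) _ hm0.le
      linarith
    linarith
  have hlim2 : Tendsto (fun k : ℕ => (C ^ p.natDegree *
      (∫ x, |p.eval x| ^ m ∂(gaussianReal 0 1) + B * ((k : ℝ) + 1)⁻¹) ^ (1 / (m : ℝ))) ^ q +
        (∫ x, |p.eval x| ^ (2 * q) ∂(gaussianReal 0 1)) * ((k : ℝ) + 1)⁻¹) atTop
      (𝓝 ((C ^ p.natDegree * (∫ x, |p.eval x| ^ m ∂(gaussianReal 0 1) + B * 0) ^ (1 / (m : ℝ))) ^ q +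
        (∫ x, |p.eval x| ^ (2 * q) ∂(gaussianReal 0 1)) * 0)) := by
    have ht : Tendsto (fun k : ℕ => ((k : ℝ) + 1)⁻¹) atTop (𝓝 0) := by
      simpa [one_div] using tendsto_one_div_add_atTop_nhds_zero_nat (𝕜 := ℝ)
    exact (((((ht.const_mul B).const_add _).rpow_const (Or.inr hm0.le)).const_mul _).rpow_const
      (Or.inr hq.le)).add (ht.const_mul _)
  have := ge_of_tendsto' hlim2 (fun k => key ((k : ℝ) + 1) (by positivity))
  simpa using this

end

end Pool.Agent.Y749.VV
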