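import Mathlib
import Pool.Agent.Y749.VV.Low5
import Pool.Agent.Y749.VV.Low6

open MeasureTheory ProbabilityTheory Filter Topology Real Polynomial

/-! Moments of the weighted Hermite polynomials. -/

namespace Pool.Agent.Y749.VV

open Pool.Agent.Helper228.HC (Cube mean degree hh ss JJ JJ_integrable JJ_add
  JJ_C_mul JJ_sub JJ_sum JJ_nonneg JJ_mono gauss_integral EE_L1 hh_natDegree)

noncomputable section

/-- the weighted function `u = h² e^{-b x²}` and its powers -/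
lemma u_rpow (y x μ q : ℝ) (hy : 0 ≤ y) (hq : 0 < q) :
    (y ^ 2 * Real.exp (-(μ / q) * x ^ 2)) ^ (q / 2) = y ^ q * Real.exp (-(μ / 2) * x ^ 2) := by
  rw [Real.mul_rpow (by positivity) (Real.exp_pos _).le, sq_rpow_half hy, ← Real.exp_mul]
  congr 2
  field_simp

lemma JJ_sq_leμ {q ε D μ : ℝ} (hμ : 0 < μ) (hq : 2 ≤ q) (hε : 0 < ε) (hD : 0 < D) (p : ℝ[X])
    (h : ∫ x : ℝ, |p.eval x| ^ q * Real.exp (-(μ / 2) * x ^ 2) ≤ D ^ (q / 2)) :
    JJ (μ / q + ε) (p * p) ≤ D * (1 + Real.sqrt (π / ε)) := by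
  have hq0 : 0 < q := by linarith
  have hI := integrable_abs_rpow_exp p (s := q) (b := μ / 2) hq0.le (by positivity)
  have hE := JJ_integrable hε 1
  have hle : JJ (μ / q + ε) (p * p) ≤ ∫ x : ℝ, (D * ((1 : ℝ[X]).eval x * Real.exp (-ε * x ^ 2)) +
      D ^ (1 - q / 2) * (|p.eval x| ^ q * Real.exp (-(μ / 2) * x ^ 2))) := by
    unfold JJ
    apply integral_mono (JJ_integrable (by positivity) (p * p)) ((hE.const_mul D).add (hI.const_mul _))
    intro x
    simp only [Pi.add_apply, eval_one, one_mul, eval_mul]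
    have hy0 : 0 ≤ |p.eval x| := abs_nonneg _
    have hpp : p.eval x * p.eval x = |p.eval x| ^ 2 := by rw [sq_abs]; ring
    rw [hpp, ← u_rpow _ x μ q hy0 hq0]
    have e1 : |p.eval x| ^ 2 * Real.exp (-(μ / q + ε) * x ^ 2) =
        |p.eval x| ^ 2 * Real.exp (-(μ / q) * x ^ 2) * Real.exp (-ε * x ^ 2) := by
      rw [mul_assoc, ← Real.exp_add]
      congr 2; ring
    rw [e1]
    have hu0 : 0 ≤ |p.eval x| ^ 2 * Real.exp (-(μ / q) * x ^ 2) := by positivity
    generalize |p.eval x| ^ 2 * Real.exp (-(μ / q) * x ^ 2) = u at hu0 ⊢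
    have h1 : u ≤ D + D ^ (1 - q / 2) * u ^ (q / 2) := by
      rcases le_total u D with hc | hc
      · have : 0 ≤ D ^ (1 - q / 2) * u ^ (q / 2) := by positivity
        linarith
      · have hu1 : 0 < u := lt_of_lt_of_le hD hc
        have h2 : u ^ (1 - q / 2) ≤ D ^ (1 - q / 2) :=
          Real.rpow_le_rpow_of_nonpos hD hc (by linarith)
        have h3 : u = u ^ (1 - q / 2) * u ^ (q / 2) := by
          rw [← Real.rpow_add hu1]
          have : 1 - q / 2 + q / 2 = 1 := by ring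
          rw [this, Real.rpow_one]
        have h4 : u ^ (1 - q / 2) * u ^ (q / 2) ≤ D ^ (1 - q / 2) * u ^ (q / 2) :=
          mul_le_mul_of_nonneg_right h2 (by positivity)
        linarith
    have h5 : Real.exp (-ε * x ^ 2) ≤ 1 := by
      rw [Real.exp_le_one_iff]; nlinarith [sq_nonneg x]
    have h6 : 0 < Real.exp (-ε * x ^ 2) := Real.exp_pos _
    have h7 : 0 ≤ D ^ (1 - q / 2) * u ^ (q / 2) := by positivity
    nlinarith
  have h8 : ∫ x : ℝ, (D * ((1 : ℝ[X]).eval x * Real.exp (-ε * x ^ 2)) +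
      D ^ (1 - q / 2) * (|p.eval x| ^ q * Real.exp (-(μ / 2) * x ^ 2))) =
      D * JJ ε 1 + D ^ (1 - q / 2) * ∫ x : ℝ, |p.eval x| ^ q * Real.exp (-(μ / 2) * x ^ 2) := by
    rw [integral_add (hE.const_mul D) (hI.const_mul _), integral_const_mul, integral_const_mul]
    rfl
  rw [h8, JJ_one] at hle
  have h9 : D ^ (1 - q / 2) * ∫ x : ℝ, |p.eval x| ^ q * Real.exp (-(μ / 2) * x ^ 2) ≤ D := by
    calc _ ≤ D ^ (1 - q / 2) * D ^ (q / 2) := mul_le_mul_of_nonneg_left h (by positivity)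
      _ = D := by
        rw [← Real.rpow_add hD]
        have : 1 - q / 2 + q / 2 = 1 := by ring
        rw [this, Real.rpow_one]
  linarith

/-- the case `q ≤ 2`, through a pointwise bound -/
lemma JJ_sq_le_sup {q D μ S : ℝ} (hμ : 0 < μ) (hq0 : 0 < q) (hq : q ≤ 2) (hS : 0 ≤ S) (p : ℝ[X])
    (hsup : ∀ x : ℝ, p.eval x ^ 2 * Real.exp (-(μ / q) * x ^ 2) ≤ S)
    (h : ∫ x : ℝ, |p.eval x| ^ q * Real.exp (-(μ / 2) * x ^ 2) ≤ D) :
    JJ (μ / q) (p * p) ≤ S ^ (1 - q / 2) * D := by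
  have hI := integrable_abs_rpow_exp p (s := q) (b := μ / 2) hq0.le (by positivity)
  have hle : JJ (μ / q) (p * p) ≤ ∫ x : ℝ, (S ^ (1 - q / 2) * (|p.eval x| ^ q * Real.exp (-(μ / 2) * x ^ 2))) := by
    unfold JJ
    apply integral_mono (JJ_integrable (by positivity) (p * p)) (hI.const_mul _)
    intro x
    simp only [eval_mul]
    have hy0 : 0 ≤ |p.eval x| := abs_nonneg _
    have hpp : p.eval x * p.eval x = |p.eval x| ^ 2 := by rw [sq_abs]; ring
    have hs := hsup x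
    rw [← sq_abs] at hs
    rw [hpp, ← u_rpow _ x μ q hy0 hq0]
    have hu0 : 0 ≤ |p.eval x| ^ 2 * Real.exp (-(μ / q) * x ^ 2) := by positivity
    generalize |p.eval x| ^ 2 * Real.exp (-(μ / q) * x ^ 2) = u at hu0 hs ⊢
    rcases hu0.eq_or_lt with h0 | h0
    · rw [← h0]; positivity
    · have h3 : u = u ^ (1 - q / 2) * u ^ (q / 2) := by
        rw [← Real.rpow_add h0]
        have : 1 - q / 2 + q / 2 = 1 := by ring
        rw [this, Real.rpow_one]
      have h4 : u ^ (1 - q / 2) ≤ S ^ (1 - q / 2) := Real.rpow_le_rpow hu0 hs (by linarith)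
      calc u = u ^ (1 - q / 2) * u ^ (q / 2) := h3
        _ ≤ _ := mul_le_mul_of_nonneg_right h4 (by positivity)
  rw [integral_const_mul] at hle
  exact hle.trans (mul_le_mul_of_nonneg_left h (by positivity))

/-- `L^m` bound for the test polynomials. -/
lemma Wm_le {m : ℕ} (hm : 1 ≤ m) : ∃ c : ℝ, 0 < c ∧ ∀ n : ℕ,
    ∫ x : ℝ, |(hh n).eval x| ^ m * Real.exp (-((m : ℝ) / 2) * x ^ 2) ≤
      (c * ((n : ℝ) + 1) * (2 ^ n / (n.factorial : ℝ))) ^ ((m : ℝ) / 2) := by
  rcases Nat.eq_or_lt_of_le hm with h1 | h1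
  · -- `m = 1`
    subst h1
    have hpi := Real.pi_pos
    refine ⟨4 * π, by positivity, ?_⟩
    intro n
    have h2 := EE_L1 n
    have h3 := gauss_integral (fun x => |(hh n).eval x|)
    have h4 : ∫ x : ℝ, |(hh n).eval x| ^ 1 * Real.exp (-(((1 : ℕ) : ℝ) / 2) * x ^ 2) =
        Real.sqrt (2 * π) * ∫ x, |(hh n).eval x| ∂(gaussianReal 0 1) := by
      rw [h3]
      have : 0 < Real.sqrt (2 * π) := by positivity
      field_simp
      simp only [Nat.cast_one, one_mul]
    rw [h4]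
    have hI0 : 0 ≤ ∫ x, |(hh n).eval x| ∂(gaussianReal 0 1) := integral_nonneg fun x => abs_nonneg _
    have h5 : ∫ x, |(hh n).eval x| ∂(gaussianReal 0 1) ≤ Real.sqrt (2 * ((n : ℝ) + 1) * (2 ^ n / (n.factorial : ℝ))) :=
      Real.le_sqrt_of_sq_le h2
    calc Real.sqrt (2 * π) * ∫ x, |(hh n).eval x| ∂(gaussianReal 0 1)
        ≤ Real.sqrt (2 * π) * Real.sqrt (2 * ((n : ℝ) + 1) * (2 ^ n / (n.factorial : ℝ))) :=
          mul_le_mul_of_nonneg_left h5 (by positivity)
      _ = (4 * π * ((n : ℝ) + 1) * (2 ^ n / (n.factorial : ℝ))) ^ ((((1 : ℕ) : ℝ)) / 2) := by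
        rw [← Real.sqrt_mul (by positivity), Real.sqrt_eq_rpow, Nat.cast_one]
        congr 1; ring
  · -- `m ≥ 2`
    obtain ⟨c, hc, hjc, hsup⟩ := sup_hh one_pos le_rfl
    refine ⟨c, hc, ?_⟩
    intro n
    have hm2 : (2 : ℝ) ≤ m := by exact_mod_cast h1
    have hT0 : (0 : ℝ) < 2 ^ n / (n.factorial : ℝ) := by positivity
    set S := c * ((n : ℝ) + 1) * (2 ^ n / (n.factorial : ℝ)) with hS
    have hS0 : 0 < S := by rw [hS]; positivity
    have hle : ∫ x : ℝ, |(hh n).eval x| ^ m * Real.exp (-((m : ℝ) / 2) * x ^ 2) ≤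
        ∫ x : ℝ, S ^ ((m : ℝ) / 2 - 1) * ((hh n * hh n).eval x * Real.exp (-1 * x ^ 2)) := by
      have hI := integrable_abs_rpow_exp (hh n) (s := (m : ℝ)) (b := (m : ℝ) / 2) (by positivity) (by positivity)
      simp only [Real.rpow_natCast] at hI
      apply integral_mono hI ((JJ_integrable one_pos (hh n * hh n)).const_mul _)
      intro x
      simp only [eval_mul]
      have hs := hsup n x
      have e4 : (4 / 1 - 2 : ℝ) = 2 := by norm_num
      rw [e4, ← hS, ← sq_abs] at hs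
      have hpp : (hh n).eval x * (hh n).eval x = |(hh n).eval x| ^ 2 := by rw [sq_abs]; ring
      have hur := u_rpow |(hh n).eval x| x m m (abs_nonneg _) (by positivity)
      have e5 : (m : ℝ) / m = 1 := by field_simp
      rw [e5, Real.rpow_natCast] at hur
      rw [hpp, ← hur]
      have hu0 : 0 ≤ |(hh n).eval x| ^ 2 * Real.exp (-1 * x ^ 2) := by positivity
      generalize |(hh n).eval x| ^ 2 * Real.exp (-1 * x ^ 2) = u at hu0 hs ⊢
      rcases hu0.eq_or_lt with h0 | h0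
      · rw [← h0, Real.zero_rpow (by positivity), mul_zero]
      · have h3 : u ^ ((m : ℝ) / 2) = u ^ ((m : ℝ) / 2 - 1) * u := by
          rw [← Real.rpow_add_one h0.ne']
          congr 1; ring
        rw [h3]
        exact mul_le_mul_of_nonneg_right (Real.rpow_le_rpow hu0 hs (by linarith)) hu0
    rw [integral_const_mul] at hle
    have h2 : ∫ x : ℝ, (hh n * hh n).eval x * Real.exp (-1 * x ^ 2) ≤ S := by
      have h3 := JJ_hh_sq_le one_pos le_rfl n
      have e4 : (4 / 1 - 2 : ℝ) = 2 := by norm_num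
      rw [e4] at h3
      have hn0 : (0 : ℝ) ≤ n := by positivity
      calc ∫ x : ℝ, (hh n * hh n).eval x * Real.exp (-1 * x ^ 2) = JJ 1 (hh n * hh n) := rfl
        _ ≤ JJ 1 1 * (2 ^ n / (n.factorial : ℝ)) := h3
        _ ≤ c * ((n : ℝ) + 1) * (2 ^ n / (n.factorial : ℝ)) := by
          apply mul_le_mul_of_nonneg_right _ hT0.le
          nlinarith [mul_nonneg hc.le hn0]
    calc _ ≤ _ := hle
      _ ≤ S ^ ((m : ℝ) / 2 - 1) * S := mul_le_mul_of_nonneg_left h2 (by positivity)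
      _ = S ^ ((m : ℝ) / 2) := by
        rw [← Real.rpow_add_one hS0.ne']
        congr 1; ring

end

end Pool.Agent.Y749.VV
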