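import Mathlib
import Pool.Agent.Helper228.HC.Lower5
import Pool.Agent.Y749.VV.Low7
import Pool.Agent.Y749.VV.Low11

open MeasureTheory ProbabilityTheory Filter Topology Real Polynomial

/-! Moments of the weighted Hermite polynomials, real exponents. -/

namespace Pool.Agent.Y749.VV

open Pool.Agent.Helper228.HC (Cube mean degree hh ss JJ JJ_integrable JJ_add
  JJ_C_mul JJ_sub JJ_sum JJ_nonneg JJ_mono gauss_integral EE_L1 hh_natDegree JJ1_val JJ1_X)

noncomputable section

lemma yz_rpow_le {y z θ : ℝ} (hy : 0 ≤ y) (hz : 0 < z) (hz1 : z ≤ 1) (h1 : 1 / 2 ≤ θ) (h2 : θ ≤ 1) :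
    (y * z) ^ θ ≤ y + z := by
  have hyz : 0 ≤ y * z := by positivity
  rcases le_total (y * z) 1 with h | h
  · have h3 : (y * z) ^ θ ≤ (y * z) ^ (1 / 2 : ℝ) := by
      rcases hyz.eq_or_lt with h0 | h0
      · rw [← h0, Real.zero_rpow (by linarith), Real.zero_rpow (by norm_num)]
      · exact Real.rpow_le_rpow_of_exponent_ge h0 h h1
    have h4 : (y * z) ^ (1 / 2 : ℝ) ≤ y + z := by
      rw [← Real.sqrt_eq_rpow]
      exact Real.sqrt_le_iff.2 ⟨by positivity, by nlinarith [sq_nonneg (y - z)]⟩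
    exact h3.trans h4
  · have h3 : (y * z) ^ θ ≤ (y * z) ^ (1 : ℝ) := Real.rpow_le_rpow_of_exponent_le h h2
    rw [Real.rpow_one] at h3
    have : y * z ≤ y := by nlinarith
    linarith

/-- `L^p` bound for the test polynomials, `p ≥ 1` real. -/
lemma Wp_le {p : ℝ} (hp : 1 ≤ p) : ∃ c : ℝ, 0 < c ∧ ∀ n : ℕ,
    ∫ x : ℝ, |(hh n).eval x| ^ p * Real.exp (-(p / 2) * x ^ 2) ≤
      (c * ((n : ℝ) + 1) * (2 ^ n / (n.factorial : ℝ))) ^ (p / 2) := by
  have hp0 : 0 < p := by linarith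
  have hpi := Real.pi_pos
  rcases le_total p 2 with h2p | h2p
  · -- `p ≤ 2`
    refine ⟨Real.sqrt π * 2 * (1 + π) ^ 2, by positivity, ?_⟩
    intro n
    have hT0 : (0 : ℝ) < 2 ^ n / (n.factorial : ℝ) := by positivity
    set D := Real.sqrt π * 2 * ((n : ℝ) + 1) * (2 ^ n / (n.factorial : ℝ)) with hD
    have hD0 : 0 < D := by rw [hD]; positivity
    have hJ : JJ 1 ((1 + X * X) * (hh n * hh n)) ≤ D := by
      have e : (1 + X * X) * (hh n * hh n) = hh n * hh n + X * X * (hh n * hh n) := by ring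
      rw [e, JJ_add one_pos]
      have h1 := JJ1_X n
      have h3 := JJ1_val n
      rw [h3] at h1 ⊢
      calc _ ≤ Real.sqrt π * (2 ^ n / (n.factorial : ℝ)) + (2 * n + 1) * (Real.sqrt π * (2 ^ n / (n.factorial : ℝ))) := by
            linarith
        _ = D := by rw [hD]; ring
    have hI := integrable_abs_rpow_exp (hh n) (s := p) (b := p / 2) hp0.le (by positivity)
    have hI2 := JJ_integrable one_pos ((1 + X * X) * (hh n * hh n))
    have hI3 := integrable_inv_one_add_sq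
    have hle : ∫ x : ℝ, |(hh n).eval x| ^ p * Real.exp (-(p / 2) * x ^ 2) ≤
        ∫ x : ℝ, (D ^ (p / 2) * (D⁻¹ * (((1 + X * X) * (hh n * hh n)).eval x * Real.exp (-1 * x ^ 2)) +
          (1 + x ^ 2)⁻¹)) := by
      apply integral_mono hI (((hI2.const_mul D⁻¹).add hI3).const_mul _)
      intro x
      simp only [Pi.add_apply, eval_mul, eval_add, eval_one, eval_X]
      have hur := u_rpow |(hh n).eval x| x p p (abs_nonneg _) hp0
      have e5 : p / p = 1 := by field_simp
      rw [e5] at hur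
      have hx : 0 < 1 + x ^ 2 := by positivity
      have hpp : (1 + x * x) * ((hh n).eval x * (hh n).eval x) = (1 + x ^ 2) * |(hh n).eval x| ^ 2 := by
        rw [sq_abs]; ring
      rw [← hur, hpp]
      have hu0 : 0 ≤ |(hh n).eval x| ^ 2 * Real.exp (-1 * x ^ 2) := by positivity
      have e6 : D⁻¹ * ((1 + x ^ 2) * |(hh n).eval x| ^ 2 * Real.exp (-1 * x ^ 2)) =
          D⁻¹ * ((1 + x ^ 2) * (|(hh n).eval x| ^ 2 * Real.exp (-1 * x ^ 2))) := by ring
      rw [e6]
      generalize |(hh n).eval x| ^ 2 * Real.exp (-1 * x ^ 2) = u at hu0 ⊢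
      have h3 : u = D * ((D⁻¹ * ((1 + x ^ 2) * u)) * (1 + x ^ 2)⁻¹) := by
        field_simp
      have h4 := yz_rpow_le (y := D⁻¹ * ((1 + x ^ 2) * u)) (z := (1 + x ^ 2)⁻¹) (θ := p / 2)
        (by positivity) (by positivity) (inv_le_one_of_one_le₀ (by nlinarith [sq_nonneg x])) (by linarith) (by linarith)
      calc u ^ (p / 2) = (D * ((D⁻¹ * ((1 + x ^ 2) * u)) * (1 + x ^ 2)⁻¹)) ^ (p / 2) := by rw [← h3]
        _ = D ^ (p / 2) * ((D⁻¹ * ((1 + x ^ 2) * u)) * (1 + x ^ 2)⁻¹) ^ (p / 2) := by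
            rw [Real.mul_rpow hD0.le (by positivity)]
        _ ≤ _ := mul_le_mul_of_nonneg_left h4 (by positivity)
    rw [integral_const_mul, integral_add (hI2.const_mul _) hI3, integral_const_mul,
      integral_univ_inv_one_add_sq] at hle
    have h5 : D⁻¹ * (∫ x : ℝ, ((1 + X * X) * (hh n * hh n)).eval x * Real.exp (-1 * x ^ 2)) ≤ 1 := by
      rw [inv_mul_le_iff₀ hD0, mul_one]
      exact hJ
    have h6 : (1 + π : ℝ) ≤ ((1 + π) ^ 2) ^ (p / 2) := by
      rw [sq_rpow_half (by positivity)]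
      calc (1 + π : ℝ) = (1 + π) ^ (1 : ℝ) := (Real.rpow_one _).symm
        _ ≤ _ := Real.rpow_le_rpow_of_exponent_le (by linarith) hp
    calc _ ≤ _ := hle
      _ ≤ D ^ (p / 2) * (1 + π) := mul_le_mul_of_nonneg_left (by linarith) (by positivity)
      _ ≤ D ^ (p / 2) * ((1 + π) ^ 2) ^ (p / 2) := mul_le_mul_of_nonneg_left h6 (by positivity)
      _ = _ := by
        rw [← Real.mul_rpow hD0.le (by positivity)]
        congr 1
        rw [hD]; ring
  · -- `p ≥ 2`
    obtain ⟨c, hc, hjc, hsup⟩ := sup_hh one_pos le_rfl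
    refine ⟨c, hc, ?_⟩
    intro n
    have hT0 : (0 : ℝ) < 2 ^ n / (n.factorial : ℝ) := by positivity
    set S := c * ((n : ℝ) + 1) * (2 ^ n / (n.factorial : ℝ)) with hS
    have hS0 : 0 < S := by rw [hS]; positivity
    have hle : ∫ x : ℝ, |(hh n).eval x| ^ p * Real.exp (-(p / 2) * x ^ 2) ≤
        ∫ x : ℝ, S ^ (p / 2 - 1) * ((hh n * hh n).eval x * Real.exp (-1 * x ^ 2)) := by
      have hI := integrable_abs_rpow_exp (hh n) (s := p) (b := p / 2) (by positivity) (by positivity)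
      apply integral_mono hI ((JJ_integrable one_pos (hh n * hh n)).const_mul _)
      intro x
      simp only [eval_mul]
      have hs := hsup n x
      have e4 : (4 / 1 - 2 : ℝ) = 2 := by norm_num
      rw [e4, ← hS, ← sq_abs] at hs
      have hpp : (hh n).eval x * (hh n).eval x = |(hh n).eval x| ^ 2 := by rw [sq_abs]; ring
      have hur := u_rpow |(hh n).eval x| x p p (abs_nonneg _) (by positivity)
      have e5 : p / p = 1 := by field_simp
      rw [e5] at hur
      rw [hpp, ← hur]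
      have hu0 : 0 ≤ |(hh n).eval x| ^ 2 * Real.exp (-1 * x ^ 2) := by positivity
      generalize |(hh n).eval x| ^ 2 * Real.exp (-1 * x ^ 2) = u at hu0 hs ⊢
      rcases hu0.eq_or_lt with h0 | h0
      · rw [← h0, Real.zero_rpow (by positivity), mul_zero]
      · have h3 : u ^ (p / 2) = u ^ (p / 2 - 1) * u := by
          rw [← Real.rpow_add_one h0.ne']
          congr 1; ring
        rw [h3]
        exact mul_le_mul_of_nonneg_right (Real.rpow_le_rpow hu0 hs (by linarith)) hu0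
    rw [integral_const_mul] at hle
    have h2 : ∫ x : ℝ, (hh n * hh n).eval x * Real.exp (-1 * x ^ 2) ≤ S := by
      have h3 := JJ_hh_sq_le one_pos le_rfl n
      have e4 : (4 / 1 - 2 : ℝ) = 2 := by norm_num
      rw [e4] at h3
      have hn0 : (0 : ℝ) ≤ n := by positivity
      calc ∫ x : ℝ, (hh n * hh n).eval x * Real.exp (-1 * x ^ 2) = JJ 1 (hh n * hh n) := rfl
        _ ≤ JJ 1 1 * (2 ^ n / (n.factorial : ℝ)) := h3
        _ ≤ c * ((n : ℝ) + 1) * (2 ^ n / (n.factorial : ℝ)) := by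
          apply mul_le_mul_of_nonneg_right _ hT0.le
          nlinarith [mul_nonneg hc.le hn0]
    calc _ ≤ _ := hle
      _ ≤ S ^ (p / 2 - 1) * S := mul_le_mul_of_nonneg_left h2 (by positivity)
      _ = S ^ (p / 2) := by
        rw [← Real.rpow_add_one hS0.ne']
        congr 1; ring

/-- change of variables -/
lemma gauss_scaleR {m : ℝ} (hm0 : 0 < m) (φ : ℝ → ℝ) :
    ∫ x, φ ((1 / Real.sqrt m) * x) ∂(gaussianReal 0 1) =
      (Real.sqrt m / Real.sqrt (2 * π)) * ∫ y : ℝ, φ y * Real.exp (-(m / 2) * y ^ 2) := by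
  have hs : 0 < Real.sqrt m := Real.sqrt_pos.2 hm0
  rw [gauss_integral]
  have h1 := Measure.integral_comp_mul_left (fun y : ℝ => φ y * Real.exp (-(m / 2) * y ^ 2)) (1 / Real.sqrt m)
  have e1 : ∀ x : ℝ, φ ((1 / Real.sqrt m) * x) * Real.exp (-(m / 2) * ((1 / Real.sqrt m) * x) ^ 2) =
      φ ((1 / Real.sqrt m) * x) * Real.exp (-(1 / 2) * x ^ 2) := by
    intro x
    congr 2
    rw [mul_pow, div_pow, Real.sq_sqrt hm0.le]
    field_simp
  simp only [e1] at h1
  rw [h1, one_div, inv_inv, abs_of_pos hs, smul_eq_mul]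
  ring

end

end Pool.Agent.Y749.VV
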