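import Mathlib
import Pool.Agent.Y749.VV.Low10
import Pool.Agent.Y749.VV.Low12

open MeasureTheory ProbabilityTheory Filter Topology Real Polynomial

/-! Lower bound for the best `L^q`–`L^p` constant in degree at most `d`, `1 ≤ p < q` real. -/

namespace Pool.Agent.Y749.VV

open Pool.Agent.Helper228.HC (Cube mean degree hh ss JJ JJ_integrable JJ_add
  JJ_C_mul JJ_sub JJ_sum JJ_nonneg JJ_mono gauss_integral EE_L1 hh_natDegree degree_poly_le XX)

noncomputable section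

/-- `K` bounds the comparison of `L^q` and `L^p` for real functions of degree at most `d`. -/
def AdmDeg (p q : ℝ) (d : ℕ) (K : ℝ) : Prop :=
  ∀ N : ℕ, 1 ≤ N → ∀ f : Cube N → ℝ, degree f ≤ d →
    Pool.Agent.Helper228.HC.lpNorm q f ≤ K * Pool.Agent.Helper228.HC.lpNorm p f

/-- `L^q` bound for the test polynomials. -/
lemma Wq_leR {p : ℝ} (hp : 1 ≤ p) {q : ℝ} (hq : 0 < q) : ∃ c : ℝ, 0 < c ∧ ∀ (n : ℕ) (K : ℝ), 0 < K →
    AdmDeg p q n K →
    ∫ x : ℝ, |(hh n).eval x| ^ q * Real.exp (-(p / 2) * x ^ 2) ≤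
      (c * ((n : ℝ) + 1) * (2 ^ n * K ^ 2 / (n.factorial : ℝ))) ^ (q / 2) := by
  obtain ⟨c, hc, hW⟩ := Wp_le hp
  have hm0 : 0 < p := by linarith
  have hpi := Real.pi_pos
  set κ : ℝ := Real.sqrt p / Real.sqrt (2 * π) with hκ
  have hκ0 : 0 < κ := by rw [hκ]; positivity
  refine ⟨c * (κ ^ (q / p - 1)) ^ (2 / q), by positivity, ?_⟩
  intro n K hK0 h
  have ha : (1 / Real.sqrt p) ≠ 0 := by positivity
  set P : ℝ[X] := (hh n).comp (C (1 / Real.sqrt p) * X) with hP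
  have hPe : ∀ x : ℝ, P.eval x = (hh n).eval ((1 / Real.sqrt p) * x) := by
    intro x
    rw [hP, eval_comp, eval_mul, eval_C, eval_X]
  have hPd : P.natDegree ≤ n := by
    rw [hP, natDegree_comp, natDegree_C_mul_X _ ha, mul_one]
    exact hh_natDegree n
  have h1 := transferS hm0 hq hK0.le P (by
    intro N hN
    exact h N hN (fun x : Cube N => P.eval (XX N x)) ((degree_poly_le N P).trans hPd))
  simp only [hPe] at h1
  rw [gauss_scaleR hm0 (fun y => |(hh n).eval y| ^ q), gauss_scaleR hm0 (fun y => |(hh n).eval y| ^ p), ← hκ] at h1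
  set T : ℝ := c * ((n : ℝ) + 1) * (2 ^ n / (n.factorial : ℝ)) with hT
  have hT0 : 0 < T := by rw [hT]; positivity
  have hWm := hW n
  rw [← hT] at hWm
  set Wm := ∫ x : ℝ, |(hh n).eval x| ^ p * Real.exp (-(p / 2) * x ^ 2) with hWmdef
  have hWm0 : 0 ≤ Wm := integral_nonneg fun x => by positivity
  set Wq := ∫ x : ℝ, |(hh n).eval x| ^ q * Real.exp (-(p / 2) * x ^ 2) with hWqdef
  have h2 : (κ * Wm) ^ (1 / p) ≤ κ ^ (1 / p) * T ^ (1 / 2 : ℝ) := by
    rw [Real.mul_rpow hκ0.le hWm0]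
    apply mul_le_mul_of_nonneg_left _ (by positivity)
    calc Wm ^ (1 / p) ≤ (T ^ (p / 2)) ^ (1 / p) := Real.rpow_le_rpow hWm0 hWm (by positivity)
      _ = T ^ (1 / 2 : ℝ) := by
        rw [← Real.rpow_mul hT0.le]
        congr 1
        field_simp
  have h3 : κ * Wq ≤ (K * (κ ^ (1 / p) * T ^ (1 / 2 : ℝ))) ^ q := by
    apply h1.trans
    apply Real.rpow_le_rpow (by positivity) _ hq.le
    exact mul_le_mul_of_nonneg_left h2 hK0.le
  have h4 : (K * (κ ^ (1 / p) * T ^ (1 / 2 : ℝ))) ^ q =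
      κ ^ (q / p) * (K ^ 2 * T) ^ (q / 2) := by
    have e1 : K * (κ ^ (1 / p) * T ^ (1 / 2 : ℝ)) = κ ^ (1 / p) * (K * T ^ (1 / 2 : ℝ)) := by ring
    have e2 : K * T ^ (1 / 2 : ℝ) = (K ^ 2 * T) ^ (1 / 2 : ℝ) := by
      rw [Real.mul_rpow (by positivity) hT0.le]
      congr 1
      rw [← Real.sqrt_eq_rpow, Real.sqrt_sq hK0.le]
    rw [e1, e2, Real.mul_rpow (by positivity) (by positivity), ← Real.rpow_mul hκ0.le, ← Real.rpow_mul (by positivity)]
    congr 2 <;> ring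
  rw [h4] at h3
  have h5 : Wq ≤ κ ^ (q / p - 1) * (K ^ 2 * T) ^ (q / 2) := by
    have e : κ ^ (q / p) = κ * κ ^ (q / p - 1) := by
      rw [mul_comm, ← Real.rpow_add_one hκ0.ne']
      congr 1; ring
    rw [e, mul_assoc] at h3
    exact le_of_mul_le_mul_left h3 hκ0
  have hx0 : 0 < κ ^ (q / p - 1) := by positivity
  calc Wq ≤ _ := h5
    _ = (c * (κ ^ (q / p - 1)) ^ (2 / q) * ((n : ℝ) + 1) * (2 ^ n * K ^ 2 / (n.factorial : ℝ))) ^ (q / 2) := by
      have e1 : c * (κ ^ (q / p - 1)) ^ (2 / q) * ((n : ℝ) + 1) * (2 ^ n * K ^ 2 / (n.factorial : ℝ)) =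
          (κ ^ (q / p - 1)) ^ (2 / q) * (K ^ 2 * T) := by
        rw [hT]; ring
      rw [e1, Real.mul_rpow (show (0 : ℝ) ≤ (κ ^ (q / p - 1)) ^ (2 / q) by positivity)
        (show (0 : ℝ) ≤ K ^ 2 * T by positivity), ← Real.rpow_mul hx0.le]
      have e2 : 2 / q * (q / 2) = 1 := by field_simp
      rw [e2, Real.rpow_one]

lemma JJ_one_ge {b : ℝ} (hb : 0 < b) (hb1 : b ≤ 1) : 1 ≤ JJ b 1 := by
  rw [JJ_one, Real.one_le_sqrt, le_div_iff₀ hb]
  have := Real.pi_gt_three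
  linarith

/-- the case `q ≥ 2` -/
lemma lower_ge2 {p q : ℝ} (hp : 1 ≤ p) (hpq : p < q) (hq2 : 2 ≤ q) : ∃ c : ℝ, 0 < c ∧
    ∀ (n : ℕ) (K : ℝ), 0 < K → AdmDeg p q n K →
      (2 * q / p - 1) ^ n ≤ c * ((n : ℝ) + 1) ^ 4 * K ^ 2 := by
  have hp0 : 0 < p := by linarith
  have hq0 : 0 < q := by linarith
  obtain ⟨c, hc, hW⟩ := Wq_leR hp hq0
  set b := p / q with hb
  have hb0 : 0 < b := by rw [hb]; positivity
  have hb1 : b < 1 := by rw [hb, div_lt_one hq0]; exact hpq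
  have hpi := Real.pi_pos
  have h1b : 0 < 1 - b := by linarith
  refine ⟨4 * c * (2 + 4 * π / (b * (1 - b))), by positivity, ?_⟩
  intro n K hK h
  have hn0 : (0 : ℝ) ≤ n := by positivity
  have hn1 : (0 : ℝ) < (n : ℝ) + 1 := by positivity
  set ε := b * (1 - b) / (4 * ((n : ℝ) + 1)) with hε
  have hε0 : 0 < ε := by rw [hε]; positivity
  have hε1 : ε ≤ 1 - b := by
    rw [hε, div_le_iff₀ (by positivity)]
    nlinarith
  have hw1 : b + ε ≤ 1 := by linarith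
  have hw0 : 0 < b + ε := by linarith
  set D := c * ((n : ℝ) + 1) * (2 ^ n * K ^ 2 / (n.factorial : ℝ)) with hD
  have hD0 : 0 < D := by rw [hD]; positivity
  have h1 := JJ_sq_leμ hp0 hq2 hε0 hD0 (hh n) (hW n K hK h)
  rw [← hb] at h1
  have h2 := JJ_hh_sq_ge hw0 hw1 n
  have h3 := JJ_one_ge hw0 hw1
  set β := 4 / b - 2 with hβ
  have hβ0 : 2 / b ≤ β := by
    rw [hβ]
    have : 2 ≤ 2 / b := by rw [le_div_iff₀ hb0]; linarith
    have e : 4 / b = 2 / b + 2 / b := by ring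
    linarith
  have hβp : 0 < β := lt_of_lt_of_le (by positivity) hβ0
  -- comparison of `4/w-2` with `β`
  have h4 : β * (1 + -(1 / (2 * ((n : ℝ) + 1)))) ≤ 4 / (b + ε) - 2 := by
    have h5 : 4 / b - 4 / (b + ε) ≤ 4 * ε / b ^ 2 := by
      rw [div_sub_div _ _ hb0.ne' hw0.ne', div_le_div_iff₀ (by positivity) (by positivity)]
      have : 4 * (b + ε) - b * 4 = 4 * ε := by ring
      rw [this]
      have h6 : b ^ 2 ≤ b * (b + ε) := by nlinarith
      exact mul_le_mul_of_nonneg_left h6 (by positivity)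
    have h6 : 4 * ε / b ^ 2 ≤ (1 / b) * (1 / ((n : ℝ) + 1)) := by
      have e : 4 * ε / b ^ 2 = (1 - b) * ((1 / b) * (1 / ((n : ℝ) + 1))) := by
        rw [hε]; field_simp
      rw [e]
      have h7 : 0 ≤ (1 / b) * (1 / ((n : ℝ) + 1)) := by positivity
      nlinarith
    have h7 : (1 / b) * (1 / ((n : ℝ) + 1)) ≤ β * (1 / (2 * ((n : ℝ) + 1))) := by
      calc _ = (2 / b) * (1 / (2 * ((n : ℝ) + 1))) := by field_simp
        _ ≤ _ := mul_le_mul_of_nonneg_right hβ0 (by positivity)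
    rw [hβ] at h7 ⊢
    nlinarith
  have hsmall : 1 / (2 * ((n : ℝ) + 1)) ≤ 1 / 2 := by
    rw [div_le_div_iff₀ (by positivity) (by norm_num)]; linarith
  have h5 : β ^ n * (1 / 2) ≤ (4 / (b + ε) - 2) ^ n := by
    have h6 : (1 / 2 : ℝ) ≤ (1 + -(1 / (2 * ((n : ℝ) + 1)))) ^ n := by
      have h7 := one_add_mul_le_pow (a := -(1 / (2 * ((n : ℝ) + 1)))) (by linarith) n
      have h8 : (n : ℝ) * (1 / (2 * ((n : ℝ) + 1))) ≤ 1 / 2 := by
        rw [mul_one_div, div_le_div_iff₀ (by positivity) (by norm_num)]; linarith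
      linarith
    calc β ^ n * (1 / 2) ≤ β ^ n * (1 + -(1 / (2 * ((n : ℝ) + 1)))) ^ n := mul_le_mul_of_nonneg_left h6 (by positivity)
      _ = (β * (1 + -(1 / (2 * ((n : ℝ) + 1))))) ^ n := by rw [mul_pow]
      _ ≤ _ := pow_le_pow_left₀ (mul_nonneg hβp.le (by linarith)) h4 n
  have hf : (0 : ℝ) < (n.factorial : ℝ) := by positivity
  have h6 : β ^ n * (1 / 2) / (n.factorial : ℝ) ≤ (2 * (n : ℝ) + 1) * (D * (1 + Real.sqrt (π / ε))) := by
    calc β ^ n * (1 / 2) / (n.factorial : ℝ) ≤ (4 / (b + ε) - 2) ^ n / (n.factorial : ℝ) :=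
          div_le_div_of_nonneg_right h5 hf.le
      _ ≤ JJ (b + ε) 1 * ((4 / (b + ε) - 2) ^ n / (n.factorial : ℝ)) := by
          have h7 : 0 ≤ (4 / (b + ε) - 2) ^ n / (n.factorial : ℝ) :=
            le_trans (by positivity) (div_le_div_of_nonneg_right h5 hf.le)
          nlinarith
      _ ≤ _ := h2
      _ ≤ _ := mul_le_mul_of_nonneg_left h1 (by positivity)
  have h7 : 1 + Real.sqrt (π / ε) ≤ (2 + 4 * π / (b * (1 - b))) * ((n : ℝ) + 1) := by
    have h8 : Real.sqrt (π / ε) ≤ 1 + π / ε := by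
      rw [Real.sqrt_le_left (by positivity)]
      have : 0 ≤ π / ε := by positivity
      nlinarith
    have h9 : π / ε = 4 * π / (b * (1 - b)) * ((n : ℝ) + 1) := by
      rw [hε]; field_simp
    rw [h9] at h8 ⊢
    have h10 : (2 + 4 * π / (b * (1 - b))) * ((n : ℝ) + 1) =
        2 * ((n : ℝ) + 1) + 4 * π / (b * (1 - b)) * ((n : ℝ) + 1) := by ring
    rw [h10]
    linarith
  have e2 : β = 2 * (2 * q / p - 1) := by
    rw [hβ, hb]; field_simp; ring
  have h8 : β ^ n * (1 / 2) / (n.factorial : ℝ) ≤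
      (2 * ((n : ℝ) + 1)) * (D * ((2 + 4 * π / (b * (1 - b))) * ((n : ℝ) + 1))) := by
    apply h6.trans
    apply mul_le_mul (by linarith) (mul_le_mul_of_nonneg_left h7 hD0.le) (by positivity) (by positivity)
  have h9 : (2 * q / p - 1) ^ n * (2 ^ n * (1 / 2) / (n.factorial : ℝ)) ≤
      (2 * c * (2 + 4 * π / (b * (1 - b))) * ((n : ℝ) + 1) ^ 3 * K ^ 2 * 2) * (2 ^ n * (1 / 2) / (n.factorial : ℝ)) := by
    calc _ = β ^ n * (1 / 2) / (n.factorial : ℝ) := by rw [e2, mul_pow]; ring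
      _ ≤ _ := h8
      _ = _ := by rw [hD]; field_simp
  have h10 := le_of_mul_le_mul_right h9 (by positivity)
  apply h10.trans
  have h11 : ((n : ℝ) + 1) ^ 3 ≤ ((n : ℝ) + 1) ^ 4 := pow_le_pow_right₀ (by linarith) (by norm_num)
  calc 2 * c * (2 + 4 * π / (b * (1 - b))) * ((n : ℝ) + 1) ^ 3 * K ^ 2 * 2
      = (4 * c * (2 + 4 * π / (b * (1 - b))) * K ^ 2) * ((n : ℝ) + 1) ^ 3 := by ring
    _ ≤ (4 * c * (2 + 4 * π / (b * (1 - b))) * K ^ 2) * ((n : ℝ) + 1) ^ 4 :=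
        mul_le_mul_of_nonneg_left h11 (by positivity)
    _ = _ := by ring

/-- the case `q ≤ 2` -/
lemma lower_le2 {p q : ℝ} (hp : 1 ≤ p) (hpq : p < q) (hq2 : q ≤ 2) : ∃ c : ℝ, 0 < c ∧
    ∀ (n : ℕ) (K : ℝ), 0 < K → AdmDeg p q n K →
      Real.sqrt (2 * q / p - 1) ^ n ≤ c * ((n : ℝ) + 1) ^ 2 * K := by
  have hp0 : 0 < p := by linarith
  have hq0 : 0 < q := by linarith
  have hq1 : 1 ≤ q := by linarith
  obtain ⟨c, hc, hW⟩ := Wq_leR hp hq0
  set b := p / q with hb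
  have hb0 : 0 < b := by rw [hb]; positivity
  have hb1 : b < 1 := by rw [hb, div_lt_one hq0]; exact hpq
  obtain ⟨c1, hc1, -, hsup⟩ := sup_hh hb0 hb1.le
  set M := max c1 c with hM
  have hM0 : 0 < M := lt_max_of_lt_left hc1
  refine ⟨2 * M + 1, by positivity, ?_⟩
  intro n K hK h
  have hn0 : (0 : ℝ) ≤ n := by positivity
  have hf : (0 : ℝ) < (n.factorial : ℝ) := by positivity
  set β := 4 / b - 2 with hβ
  have hβp : 0 < β := by
    have : 4 < 4 / b := by rw [lt_div_iff₀ hb0]; linarith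
    rw [hβ]; linarith
  have e2 : β = 2 * (2 * q / p - 1) := by
    rw [hβ, hb]; field_simp; ring
  set A := β ^ n / (n.factorial : ℝ) with hA
  have hA0 : 0 < A := by rw [hA]; positivity
  set G := 2 ^ n * K ^ 2 / (n.factorial : ℝ) with hG
  have hG0 : 0 < G := by rw [hG]; positivity
  have h3 := JJ_sq_le_sup (μ := p) hp0 hq0 hq2 (S := c1 * ((n : ℝ) + 1) * A)
    (by positivity) (hh n) (hsup n) (hW n K hK h)
  have h2 := JJ_hh_sq_ge hb0 hb1.le n
  have h1 := JJ_one_ge hb0 hb1.le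
  rw [← hβ, ← hA] at h2
  set m := M * ((n : ℝ) + 1) with hm
  have hm0 : 0 < m := by rw [hm]; positivity
  have hq2' : 0 ≤ 1 - q / 2 := by linarith
  have h4 : (c1 * ((n : ℝ) + 1) * A) ^ (1 - q / 2) * (c * ((n : ℝ) + 1) * G) ^ (q / 2) ≤
      m * (A ^ (1 - q / 2) * G ^ (q / 2)) := by
    have i1 : c1 * ((n : ℝ) + 1) * A ≤ m * A := by
      apply mul_le_mul_of_nonneg_right _ hA0.le
      exact mul_le_mul_of_nonneg_right (le_max_left _ _) (by positivity)
    have i2 : c * ((n : ℝ) + 1) * G ≤ m * G := by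
      apply mul_le_mul_of_nonneg_right _ hG0.le
      exact mul_le_mul_of_nonneg_right (le_max_right _ _) (by positivity)
    calc _ ≤ (m * A) ^ (1 - q / 2) * (m * G) ^ (q / 2) := by
          apply mul_le_mul (Real.rpow_le_rpow (by positivity) i1 hq2')
            (Real.rpow_le_rpow (by positivity) i2 (by positivity)) (by positivity) (by positivity)
      _ = (m ^ (1 - q / 2) * m ^ (q / 2)) * (A ^ (1 - q / 2) * G ^ (q / 2)) := by
          rw [Real.mul_rpow hm0.le hA0.le, Real.mul_rpow hm0.le hG0.le]; ring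
      _ = _ := by
          rw [← Real.rpow_add hm0]
          have : 1 - q / 2 + q / 2 = 1 := by ring
          rw [this, Real.rpow_one]
  have h5 : A ≤ (2 * (n : ℝ) + 1) * (m * (A ^ (1 - q / 2) * G ^ (q / 2))) := by
    calc A ≤ JJ b 1 * A := by nlinarith
      _ ≤ _ := h2
      _ ≤ _ := mul_le_mul_of_nonneg_left (h3.trans h4) (by positivity)
  have hAs : A = A ^ (1 - q / 2) * A ^ (q / 2) := by
    rw [← Real.rpow_add hA0]
    have : 1 - q / 2 + q / 2 = 1 := by ring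
    rw [this, Real.rpow_one]
  have h6 : A ^ (q / 2) ≤ (2 * (n : ℝ) + 1) * m * G ^ (q / 2) := by
    have h7 : A ^ (1 - q / 2) * A ^ (q / 2) ≤ A ^ (1 - q / 2) * ((2 * (n : ℝ) + 1) * m * G ^ (q / 2)) := by
      rw [← hAs]
      calc A ≤ _ := h5
        _ = _ := by ring
    exact le_of_mul_le_mul_left h7 (by positivity)
  have hr0 : 0 ≤ 2 * q / p - 1 := by
    rw [e2] at hβp; linarith
  set r := Real.sqrt (2 * q / p - 1) with hr
  have hrr : 0 ≤ r := Real.sqrt_nonneg _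
  have hr2 : r ^ 2 = 2 * q / p - 1 := Real.sq_sqrt hr0
  -- `A / G = (r^n/K)^2`
  have h8 : A = G * (r ^ n / K) ^ 2 := by
    rw [hA, hG, e2, ← hr2, mul_pow, div_pow, ← pow_mul, ← pow_mul, mul_comm 2 n]
    field_simp
  have h9 : (r ^ n / K) ^ q ≤ (2 * (n : ℝ) + 1) * m := by
    have h10 : A ^ (q / 2) = G ^ (q / 2) * (r ^ n / K) ^ q := by
      rw [h8, Real.mul_rpow hG0.le (by positivity), sq_rpow_half (by positivity)]
    rw [h10] at h6
    have h11 : G ^ (q / 2) * (r ^ n / K) ^ q ≤ G ^ (q / 2) * ((2 * (n : ℝ) + 1) * m) := by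
      calc _ ≤ _ := h6
        _ = _ := by ring
    exact le_of_mul_le_mul_left h11 (by positivity)
  have h10 : r ^ n / K ≤ 1 + (2 * (n : ℝ) + 1) * m := by
    rcases le_total (r ^ n / K) 1 with hc' | hc'
    · have : 0 ≤ (2 * (n : ℝ) + 1) * m := by positivity
      linarith
    · have : (r ^ n / K) ^ (1 : ℝ) ≤ (r ^ n / K) ^ q := Real.rpow_le_rpow_of_exponent_le hc' hq1
      rw [Real.rpow_one] at this
      linarith
  rw [div_le_iff₀ hK] at h10
  apply h10.trans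
  apply mul_le_mul_of_nonneg_right _ hK.le
  rw [hm]
  nlinarith [mul_nonneg hM0.le hn0, mul_nonneg hM0.le (mul_nonneg hn0 hn0)]

/-- **Lower bound in every single degree**, for all real `1 ≤ p < q`. -/
theorem lower_degR {p q : ℝ} (hp : 1 ≤ p) (hpq : p < q) : ∃ c : ℝ, 0 < c ∧
    ∀ (n : ℕ) (K : ℝ), 0 < K → AdmDeg p q n K →
      Real.sqrt (2 * q / p - 1) ^ n / (c * ((n : ℝ) + 1) ^ 2) ≤ K := by
  rcases le_total 2 q with hq2 | hq2
  · obtain ⟨c, hc, h⟩ := lower_ge2 hp hpq hq2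
    refine ⟨Real.sqrt c, Real.sqrt_pos.2 hc, fun n K hK hA => ?_⟩
    have h1 := h n K hK hA
    have hp0 : 0 < p := by linarith
    have hr0 : 0 ≤ 2 * q / p - 1 := by
      have : 1 ≤ q / p := by rw [le_div_iff₀ hp0]; linarith
      have e : 2 * q / p = 2 * (q / p) := by ring
      rw [e]; linarith
    have hsc := Real.sqrt_pos.2 hc
    rw [div_le_iff₀ (by positivity)]
    have h2 : (Real.sqrt (2 * q / p - 1) ^ n) ^ 2 ≤ (K * (Real.sqrt c * ((n : ℝ) + 1) ^ 2)) ^ 2 := by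
      rw [← pow_mul, mul_comm n 2, pow_mul, Real.sq_sqrt hr0]
      calc _ ≤ _ := h1
        _ = K ^ 2 * (Real.sqrt c ^ 2 * ((n : ℝ) + 1) ^ 4) := by rw [Real.sq_sqrt hc.le]; ring
        _ = _ := by ring
    exact le_of_sq_le_sq h2 (by positivity)
  · obtain ⟨c, hc, h⟩ := lower_le2 hp hpq hq2
    refine ⟨c, hc, fun n K hK hA => ?_⟩
    have h1 := h n K hK hA
    rw [div_le_iff₀ (by positivity)]
    linarith

end

end Pool.Agent.Y749.VV
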