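import Mathlib
import Pool.Agent.Y749.VV.Defs
import Pool.Agent.Y749.VV.Vec
import Pool.Agent.Y749.VV.Low13
import Pool.Agent.Y869.HV.Upper

open Real

/-! Vector-valued upper and lower bounds in degree at most `d`, `1 ≤ p < q` real. -/

namespace Pool.Agent.Y749.VV

open Pool.Agent.Helper228.HC (Cube mean degree walsh)

noncomputable section

variable {E : Type} [NormedAddCommGroup E] [NormedSpace ℝ E]

/-- upper bound in degree at most `d` -/
theorem upper_degR {p q : ℝ} (hp : 1 ≤ p) (hpq : p < q) {n : ℕ} (d : ℕ) (f : Cube n → E) (hf : degreeE f ≤ d) :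
    lpE q f ≤ Real.sqrt (2 * q / p - 1) ^ d * lpE p f := by
  classical
  have h := Pool.Agent.Y869.HV.upper_boundE (d := d) hp hpq f (by
    intro S hS
    refine le_trans ?_ hf
    unfold degreeE
    exact Finset.le_sup (f := Finset.card) (by
      rw [Finset.mem_filter]
      exact ⟨Finset.mem_univ _, hS⟩))
  exact h

/-- vector-valued: reduction to real-valued functions -/
lemma admDeg_of_vec {d : ℕ} {K : ℝ} {v : E} (hv : v ≠ 0) {p q : ℝ} (hp : 1 ≤ p) (hpq : p < q)
    (h : ∀ n : ℕ, 1 ≤ n → ∀ f : Cube n → E, degreeE f ≤ d → lpE q f ≤ K * lpE p f) :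
    AdmDeg p q d K := by
  intro n hn f hf
  have h1 := h n hn (fun x => f x • v) (by rw [degreeE_smul f hv]; exact hf)
  rw [lpE_smul (by linarith), lpE_smul (by linarith)] at h1
  have hv0 : 0 < ‖v‖ := norm_pos_iff.2 hv
  apply le_of_mul_le_mul_left _ hv0
  calc ‖v‖ * Pool.Agent.Helper228.HC.lpNorm q f ≤ _ := h1
    _ = _ := by ring

end

end Pool.Agent.Y749.VV
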